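import Pool.Agent.H646R2.SV.Search

/-!
The chain lemma.
-/

set_option autoImplicit false
set_option linter.unusedVariables false
set_option linter.unusedSimpArgs false

open FirstOrder FirstOrder.Language Pool.Agent.Helper227.EN Pool.Agent.Helper578.JD Encodable
open Nat.Partrec (Code)

namespace Pool.Agent.H646R2.SV

/-- acceptance within a given number of steps -/
def accF (r z : ℕ) : ℕ :=
  if (Code.evaln (Nat.unpair z).1 (Denumerable.ofNat Code r) (Nat.unpair z).2).isSome then 1 else 0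

theorem accF_prim : Primrec₂ accF := by
  unfold accF
  have h1 : Primrec fun p : ℕ × ℕ => ((Nat.unpair p.2).1, Denumerable.ofNat Code p.1) :=
    (Primrec.fst.comp (Primrec.unpair.comp Primrec.snd)).pair
      ((Primrec.ofNat Code).comp Primrec.fst)
  have h2 : Primrec fun p : ℕ × ℕ =>
      (Code.evaln (Nat.unpair p.2).1 (Denumerable.ofNat Code p.1) (Nat.unpair p.2).2).isSome :=
    Primrec.option_isSome.comp (Code.primrec_evaln.comp
      (h1.pair (Primrec.snd.comp (Primrec.unpair.comp Primrec.snd))))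
  exact (Primrec.ite (Primrec.eq.comp h2 (Primrec.const true)) (Primrec.const 1)
    (Primrec.const 0) : Primrec fun p : ℕ × ℕ => if (Code.evaln (Nat.unpair p.2).1
      (Denumerable.ofNat Code p.1) (Nat.unpair p.2).2).isSome = true then 1 else 0)

theorem accF_iff (r s y : ℕ) : accF r (Nat.pair s y) = 1 ↔
    (Code.evaln s (Denumerable.ofNat Code r) y).isSome = true := by
  unfold accF
  rw [Nat.unpair_pair]
  split_ifs with h <;> simp [h]

theorem W_iff (r y : ℕ) : W r y ↔ ∃ s, accF r (Nat.pair s y) = 1 := by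
  unfold W
  rw [Part.dom_iff_mem]
  constructor
  · rintro ⟨v, hv⟩
    obtain ⟨s, hs⟩ := Code.evaln_complete.1 hv
    refine ⟨s, (accF_iff r s y).2 ?_⟩
    rw [Option.mem_def] at hs
    rw [hs]; rfl
  · rintro ⟨s, hs⟩
    rw [accF_iff, Option.isSome_iff_exists] at hs
    obtain ⟨v, hv⟩ := hs
    exact ⟨v, Code.evaln_complete.2 ⟨s, hv⟩⟩

theorem accF_W {r z : ℕ} (h : accF r z = 1) : W r (Nat.unpair z).2 := by
  rw [W_iff]
  exact ⟨(Nat.unpair z).1, by rw [Nat.pair_unpair]; exact h⟩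

/-- components of the objects found by the search -/
def fT (z : ℕ) : ℕ := (Nat.unpair (Nat.unpair z).2).1
def fU (z : ℕ) : ℕ := (Nat.unpair (Nat.unpair (Nat.unpair z).2).2).1
def fW (z : ℕ) : ℕ := (Nat.unpair (Nat.unpair (Nat.unpair z).2).2).2

theorem fT_prim : Nat.Primrec fT :=
  (Nat.Primrec.left.comp Nat.Primrec.right)
theorem fU_prim : Nat.Primrec fU :=
  (Nat.Primrec.left.comp (Nat.Primrec.right.comp Nat.Primrec.right))
theorem fW_prim : Nat.Primrec fW :=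
  (Nat.Primrec.right.comp (Nat.Primrec.right.comp Nat.Primrec.right))

section
variable {M : Type} [CommSemiring M] [LinearOrder M] [IsStrictOrderedRing M]
    [CanonicallyOrderedAdd M] [LA.Structure M] (hc : Compat M)
include hc

theorem saR_iff (n u : ℕ) : SaR M n (u : M) ↔ Es n u M := by
  unfold SaR
  rw [← satR_sent hc]
  simp only [nm_eq hc, Nat.cast_zero, exists_eq_left]

theorem sp_iff {φ φ1 : LA.Formula ℕ} {n : ℕ}
    (h : ∀ (a b : ℕ) (y : M), r3 M φ a b y ↔ y = (accF a b : M))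
    (h1 : ∀ (a : ℕ) (y : M), r3 M φ1 a y y ↔ y = (fT a : M)) (r z : ℕ) :
    SP M φ φ1 n (r : M) (z : M) ↔ accF r z = 1 ∧ Es (n + 1) (fT z) M := by
  unfold SP
  simp only [nm_eq hc, exists_eq_left, h, h1, Nat.cast_inj, saR_iff hc, Nat.cast_one]
  refine and_congr ?_ Iff.rfl
  rw [eq_comm, ← Nat.cast_one, Nat.cast_inj]

theorem lp_iff {φ φ1 : LA.Formula ℕ} {n : ℕ}
    (h : ∀ (a b : ℕ) (y : M), r3 M φ a b y ↔ y = (accF a b : M))
    (h1 : ∀ (a : ℕ) (y : M), r3 M φ1 a y y ↔ y = (fT a : M)) (r : ℕ)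
    (hex : ∃ z : ℕ, accF r z = 1 ∧ Es (n + 1) (fT z) M) :
    ∃ z : ℕ, accF r z = 1 ∧ Es (n + 1) (fT z) M ∧ ∀ z' : M, LP M φ φ1 n (r : M) z' ↔ z' = z := by
  classical
  obtain ⟨ha, hb⟩ := Nat.find_spec hex
  have hmin := fun k => Nat.find_min (m := k) hex
  generalize Nat.find hex = z at ha hb hmin
  refine ⟨z, ha, hb, fun z' => ?_⟩
  have hz : SP M φ φ1 n (r : M) (z : M) := (sp_iff hc h h1 r z).2 ⟨ha, hb⟩
  have hz2 : ∀ y : M, y < (z : M) → ¬ SP M φ φ1 n (r : M) y := by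
    intro y hy hs
    obtain ⟨y, -, rfl⟩ := std_below hc _ y hy.le
    rw [Nat.cast_lt] at hy
    exact hmin y hy ((sp_iff hc h h1 r y).1 hs)
  unfold LP
  simp only [rlt_iff hc]
  constructor
  · rintro ⟨h2, h3⟩
    rcases lt_trichotomy z' (z : M) with h4 | h4 | h4
    · exact absurd h2 (hz2 _ h4)
    · exact h4
    · exact absurd ⟨_, h4, hz⟩ h3
  · rintro rfl
    exact ⟨hz, fun ⟨y, hy, hs⟩ => hz2 y hy hs⟩

theorem cp_iff {φ φ1 φ2 : LA.Formula ℕ} {n m r z : ℕ} {f : ℕ → ℕ}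
    (h2 : ∀ (a : ℕ) (y : M), r3 M φ2 a y y ↔ y = (f a : M))
    (hz : ∀ z' : M, LP M φ φ1 n (r : M) z' ↔ z' = z) :
    CP M φ φ1 φ2 n m (nm M r) ↔ Es (m + 1) (f z) M := by
  unfold CP HP
  simp only [nm_eq hc, hz, exists_eq_left, h2, saR_iff hc]

end

theorem enc3 (a b c : ℕ) : encode (a, (b, c)) = Nat.pair a (Nat.pair b c) := by
  rw [Encodable.encode_prod_val, Encodable.encode_prod_val, Encodable.encode_nat,
    Encodable.encode_nat, Encodable.encode_nat]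

theorem fT_enc (s τ u w : ℕ) : fT (Nat.pair s (encode (τ, (u, w)))) = τ := by
  rw [enc3, fT, Nat.unpair_pair, Nat.unpair_pair]

theorem enc_f (z : ℕ) : encode (fT z, (fU z, fW z)) = (Nat.unpair z).2 := by
  rw [enc3, fT, fU, fW, Nat.pair_unpair, Nat.pair_unpair]

theorem chain (p : Cd) (n : ℕ) : ∃ m, n ≤ m ∧ ∃ X0 X1 : Sn,
    Hier D0 (m + 1) (fun K _ _ => X0 K) ∧ Hier D0 (m + 1) (fun K _ _ => X1 K) ∧
      ∀ τ a0 a1, Es (n + 1) τ p.M → ¬ Good n m X0 X1 τ a0 a1 := by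
  obtain ⟨i1, i2, i3, i4, hc⟩ := exists_alg p.M p.pa.1
  -- formulas
  obtain ⟨G, ⟨φ, hφ⟩, hG⟩ := repF_comp2 hc accF accF_prim
  obtain ⟨G1, ⟨φ1, hφ1⟩, hG1⟩ := repF_primrec hc fT fT_prim
  obtain ⟨G2, ⟨φ2, hφ2⟩, hG2⟩ := repF_primrec hc fU fU_prim
  obtain ⟨G3, ⟨φ3, hφ3⟩, hG3⟩ := repF_primrec hc fW fW_prim
  have h0 : ∀ (a b : ℕ) (y : p.M), r3 p.M φ a b y ↔ y = (accF a b : p.M) := fun a b y =>
    (hφ _).trans (hG a b y)
  have h1 : ∀ (a : ℕ) (y : p.M), r3 p.M φ1 a y y ↔ y = (fT a : p.M) := fun a y =>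
    (hφ1 _).trans (hG1 a y)
  have h2 : ∀ (a : ℕ) (y : p.M), r3 p.M φ2 a y y ↔ y = (fU a : p.M) := fun a y =>
    (hφ2 _).trans (hG2 a y)
  have h3 : ∀ (a : ℕ) (y : p.M), r3 p.M φ3 a y y ↔ y = (fW a : p.M) := fun a y =>
    (hφ3 _).trans (hG3 a y)
  obtain ⟨c2, hc2⟩ := HP_hier0 φ φ1 φ2 n
  obtain ⟨c3, hc3⟩ := HP_hier0 φ φ1 φ3 n
  let m : ℕ := max n (max c2 c3)
  have hm2 := Hier.mono Clop.base hc2 (show c2 ≤ m from (le_max_left _ _).trans (le_max_right _ _))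
  have hm3 := Hier.mono Clop.base hc3 (show c3 ≤ m from (le_max_right _ _).trans (le_max_right _ _))
  -- codes of the diagonal predicates
  obtain ⟨N0, hN0⟩ := hier_D0_hierU (CP_hier hm2)
  obtain ⟨N1, hN1⟩ := hier_D0_hierU (CP_hier hm3)
  obtain ⟨U0, hU0⟩ := hier_iff.1 hN0
  obtain ⟨U1, hU1⟩ := hier_iff.1 hN1
  have hre := good1_re (n := n) (m := m) hU0 hU1
  obtain ⟨r, hr⟩ := recursion (β := ℕ × (ℕ × ℕ)) (P := fun r y => Good1 n m
    (fun K _ => CP K φ φ1 φ2 n m (cs K r 0)) (fun K _ => CP K φ φ1 φ3 n m (cs K r 0))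
    y.1 y.2.1 y.2.2) hre
  have hcs : ∀ (K : Type) [LA.Structure K], cs K r 0 = nm K r := fun K _ => rfl
  simp only [hcs] at hr
  refine ⟨m, le_max_left _ _, fun K _ => CP K φ φ1 φ2 n m (nm K r),
    fun K _ => CP K φ φ1 φ3 n m (nm K r), CPr_hier hm2 r, CPr_hier hm3 r, fun τ a0 a1 hτ hG' => ?_⟩
  obtain ⟨u, w, hg⟩ := hG'.one
  have hW := (hr (τ, (u, w))).2 hg
  rw [W_iff] at hW
  obtain ⟨s, hs⟩ := hW
  obtain ⟨z, hz1, hz2, hz3⟩ := lp_iff (n := n) hc h0 h1 r ⟨Nat.pair s (encode (τ, (u, w))), hs,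
    by rw [fT_enc]; exact hτ⟩
  have hz4 := accF_W hz1
  have hz5 : W r (encode (fT z, (fU z, fW z))) := by
    rw [enc_f]; exact hz4
  have hgood := (hr _).1 hz5 p.M p.pa
  simp only at hgood
  rw [cp_iff (m := m) hc h2 hz3, cp_iff (m := m) hc h3 hz3] at hgood
  obtain ⟨g1, g2, g3⟩ := hgood
  have e1 : Es (m + 1) (fU z) p.M := by
    rcases g1 hz2 with h | h <;> exact h
  have e2 : Es (m + 1) (fW z) p.M := by
    rcases g2 e1 e1 with h | h <;> exact h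
  exact g3 e2 e2

end Pool.Agent.H646R2.SV
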