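import Pool.Agent.H646R2.SV.Hier
import Mathlib.Logic.Godel.GodelBetaFunction

/-!
Atomic facts, clopen predicates of the atomic diagram, and their codes.
-/

set_option autoImplicit false
set_option linter.unusedVariables false

open FirstOrder FirstOrder.Language Pool.Agent.Helper227.EN

namespace Pool.Agent.H646R2.SV

/-- atomic facts -/
def fact4 {M : Type} [LA.Structure M] (x : ℕ → M) (c i j l : ℕ) : Prop :=
  if c = 0 then Structure.funMap (L := LA) AF.add ![x i, x j] = x l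
  else if c = 1 then Structure.funMap (L := LA) AF.mul ![x i, x j] = x l
  else if c = 2 then Structure.RelMap (L := LA) AR.lt ![x i, x j]
  else if c = 3 then Structure.funMap (L := LA) AF.zero ![] = x i
  else if c = 4 then Structure.funMap (L := LA) AF.one ![] = x i
  else x i = x j

/-- code of an atomic fact -/
def fc (c i j l : ℕ) : ℕ := Nat.pair c (Nat.pair i (Nat.pair j l))

/-- components of a code of an atomic fact -/
def q0 (p : ℕ) : ℕ := (Nat.unpair p).1
def q1 (p : ℕ) : ℕ := (Nat.unpair (Nat.unpair p).2).1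
def q2 (p : ℕ) : ℕ := (Nat.unpair (Nat.unpair (Nat.unpair p).2).2).1
def q3 (p : ℕ) : ℕ := (Nat.unpair (Nat.unpair (Nat.unpair p).2).2).2

@[simp] theorem q0_fc (c i j l : ℕ) : q0 (fc c i j l) = c := by simp [q0, fc]
@[simp] theorem q1_fc (c i j l : ℕ) : q1 (fc c i j l) = i := by simp [q1, fc]
@[simp] theorem q2_fc (c i j l : ℕ) : q2 (fc c i j l) = j := by simp [q2, fc]
@[simp] theorem q3_fc (c i j l : ℕ) : q3 (fc c i j l) = l := by simp [q3, fc]

theorem q1_le (p : ℕ) : q1 p ≤ p :=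
  (Nat.unpair_left_le _).trans (Nat.unpair_right_le _)
theorem q2_le (p : ℕ) : q2 p ≤ p :=
  (Nat.unpair_left_le _).trans ((Nat.unpair_right_le _).trans (Nat.unpair_right_le _))
theorem q3_le (p : ℕ) : q3 p ≤ p :=
  (Nat.unpair_right_le _).trans ((Nat.unpair_right_le _).trans (Nat.unpair_right_le _))

/-- the atomic diagram of a sequence of elements -/
noncomputable def D {M : Type} [LA.Structure M] (x : ℕ → M) : ℕ → Bool := fun p =>
  open Classical in decide (fact4 x (q0 p) (q1 p) (q2 p) (q3 p))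

theorem D_iff {M : Type} [LA.Structure M] (x : ℕ → M) (p : ℕ) :
    D x p = true ↔ fact4 x (q0 p) (q1 p) (q2 p) (q3 p) := by
  simp [D]

theorem D_fc {M : Type} [LA.Structure M] (x : ℕ → M) (c i j l : ℕ) :
    D x (fc c i j l) = true ↔ fact4 x c i j l := by
  simp [D_iff]

theorem fact4_congr {M : Type} [LA.Structure M] {x y : ℕ → M} {c i j l : ℕ}
    (hi : x i = y i) (hj : x j = y j) (hl : x l = y l) : fact4 x c i j l ↔ fact4 y c i j l := by
  unfold fact4
  rw [hi, hj, hl]

theorem D_congr {M : Type} [LA.Structure M] {x y : ℕ → M} {p : ℕ}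
    (h : ∀ i ≤ p, x i = y i) : D x p = D y p := by
  rw [Bool.eq_iff_iff, D_iff, D_iff]
  exact fact4_congr (h _ (q1_le p)) (h _ (q2_le p)) (h _ (q3_le p))

/-- renaming an atomic fact -/
def renf (σ : ℕ → ℕ) (p : ℕ) : ℕ := fc (q0 p) (σ (q1 p)) (σ (q2 p)) (σ (q3 p))

theorem D_ren {M : Type} [LA.Structure M] (x : ℕ → M) (σ : ℕ → ℕ) (p : ℕ) :
    D (fun i => x (σ i)) p = D x (renf σ p) := by
  rw [Bool.eq_iff_iff, D_iff, renf, D_fc]
  rfl

/-- Clopen predicates. -/
def Clop (R : Pr) : Prop :=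
  ∃ (N : ℕ) (g : (ℕ → Bool) → Prop), (∀ a b : ℕ → Bool, (∀ i < N, a i = b i) → (g a ↔ g b)) ∧
    R = fun (M : Type) [LA.Structure M] (x : ℕ → M) => g (D x)

theorem Clop.base : Base Clop where
  not := by
    rintro R ⟨N, g, hg, rfl⟩
    exact ⟨N, fun a => ¬ g a, fun a b h => not_congr (hg a b h), rfl⟩
  and := by
    rintro R S ⟨N, g, hg, rfl⟩ ⟨N', g', hg', rfl⟩
    exact ⟨max N N', fun a => g a ∧ g' a, fun a b h => and_congr
      (hg a b fun i hi => h i (lt_max_of_lt_left hi))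
      (hg' a b fun i hi => h i (lt_max_of_lt_right hi)), rfl⟩
  ren := by
    rintro R σ ⟨N, g, hg, rfl⟩
    refine ⟨∑ p ∈ Finset.range N, (renf σ p + 1), fun a => g (fun p => a (renf σ p)),
      fun a b h => hg _ _ fun p hp => h _ ?_, ?_⟩
    · have := Finset.single_le_sum (f := fun p => renf σ p + 1) (fun _ _ => Nat.zero_le _)
        (Finset.mem_range.2 hp)
      omega
    · refine pr_ext fun M _ x => ?_
      have : (D fun i => x (σ i)) = fun p => D x (renf σ p) := funext fun p => D_ren x σ p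
      show g (D fun i => x (σ i)) ↔ g fun p => D x (renf σ p)
      rw [this]
  supp := by
    rintro R ⟨N, g, hg, rfl⟩
    exact ⟨N, fun M _ x y h => hg _ _ fun p hp => D_congr fun i hi => h i (by omega)⟩

theorem Clop.supp' {R : Pr} {N : ℕ} {g : (ℕ → Bool) → Prop}
    (hg : ∀ a b : ℕ → Bool, (∀ i < N, a i = b i) → (g a ↔ g b))
    (hR : R = fun (M : Type) [LA.Structure M] (x : ℕ → M) => g (D x)) : Supp N R := by
  subst hR
  exact fun M _ x y h => hg _ _ fun p hp => D_congr fun i hi => h i (by omega)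

/-- Meaning of the code `u` of a clopen set. -/
def Ev0 (u : ℕ) (a : ℕ → Bool) : Prop :=
  ∃ j < (Nat.unpair u).1, ∀ p < (Nat.unpair (Nat.beta (Nat.unpair u).2 j)).1,
    (Nat.beta (Nat.unpair (Nat.beta (Nat.unpair u).2 j)).2 p = 1 ↔ a p = true)

theorem beta_le (n i : ℕ) : Nat.beta n i ≤ n :=
  (Nat.mod_le _ _).trans (Nat.unpair_left_le _)

theorem ev0_bound {u j p : ℕ} (hp : p < (Nat.unpair (Nat.beta (Nat.unpair u).2 j)).1) : p < u := by
  have h1 := Nat.unpair_left_le (Nat.beta (Nat.unpair u).2 j)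
  have h2 := beta_le (Nat.unpair u).2 j
  have h3 := Nat.unpair_right_le u
  omega

theorem Ev0_congr {u : ℕ} {a b : ℕ → Bool} (h : ∀ i < u, a i = b i) : Ev0 u a ↔ Ev0 u b := by
  unfold Ev0
  refine exists_congr fun j => and_congr_right fun _ => forall_congr' fun p =>
    forall_congr' fun hp => ?_
  rw [h p (ev0_bound hp)]

theorem exists_code0 (N : ℕ) (g : (ℕ → Bool) → Prop)
    (hg : ∀ a b : ℕ → Bool, (∀ i < N, a i = b i) → (g a ↔ g b)) : ∃ u, ∀ a, Ev0 u a ↔ g a := by
  classical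
  -- code of a string of length `N`
  let cs : (Fin N → Bool) → ℕ := fun s =>
    Nat.pair N (Nat.unbeta (List.ofFn fun i => if s i then 1 else 0))
  have hcs : ∀ s p (hp : p < N), (Nat.beta (Nat.unpair (cs s)).2 p = 1 ↔ s ⟨p, hp⟩ = true) := by
    intro s p hp
    have hl : (List.ofFn fun i => if s i then 1 else 0).length = N := by simp
    have h1 := Nat.beta_unbeta_coe (List.ofFn fun i => if s i then 1 else 0) ⟨p, by rw [hl]; exact hp⟩
    simp only [cs, Nat.unpair_pair]
    have h2 : (List.ofFn fun i => if s i then 1 else 0)[p]'(by rw [hl]; exact hp) =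
        if s ⟨p, hp⟩ then 1 else 0 := by simp
    simp only [Fin.getElem_fin] at h1
    rw [h1, h2]
    cases s ⟨p, hp⟩ <;> simp
  have hcs1 : ∀ s, (Nat.unpair (cs s)).1 = N := fun s => by simp [cs]
  let S : Finset (Fin N → Bool) := Finset.univ.filter fun s =>
    g (fun i => if h : i < N then s ⟨i, h⟩ else false)
  let l : List ℕ := S.toList.map cs
  refine ⟨Nat.pair l.length (Nat.unbeta l), fun a => ?_⟩
  unfold Ev0
  simp only [Nat.unpair_pair]
  constructor
  · rintro ⟨j, hj, h⟩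
    have h1 := Nat.beta_unbeta_coe l ⟨j, hj⟩
    simp only [Fin.getElem_fin] at h1
    rw [h1] at h
    have h2 : l[j] ∈ l := List.getElem_mem hj
    obtain ⟨s, hs, hs2⟩ := List.mem_map.1 h2
    rw [Finset.mem_toList, Finset.mem_filter] at hs
    rw [← hs2] at h
    refine (hg _ _ fun i hi => ?_).1 hs.2
    simp only [hi, dif_pos]
    have h3 := h i (by rw [hcs1]; exact hi)
    rw [hcs s i hi] at h3
    rw [Bool.eq_iff_iff]
    exact h3
  · intro h
    have hs : (fun i : Fin N => a i) ∈ S.toList := by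
      rw [Finset.mem_toList, Finset.mem_filter]
      refine ⟨Finset.mem_univ _, (hg _ _ fun i hi => ?_).2 h⟩
      simp [hi]
    have h1 : cs (fun i : Fin N => a i) ∈ l := List.mem_map.2 ⟨_, hs, rfl⟩
    obtain ⟨j, hj, hj2⟩ := List.getElem_of_mem h1
    refine ⟨j, hj, ?_⟩
    have h2 := Nat.beta_unbeta_coe l ⟨j, hj⟩
    simp only [Fin.getElem_fin] at h2
    rw [h2, hj2]
    intro p hp
    rw [hcs1] at hp
    rw [hcs _ p hp]

/-- Meaning of the code `u` at level `n`. -/
def Ev : ℕ → ℕ → Pr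
  | 0, u => fun _ _ x => Ev0 u (D x)
  | n + 1, u => fun M _ x => ∃ x' : ℕ → M, (∀ i < (Nat.unpair u).1, x' i = x i) ∧
      ¬ Ev n (Nat.unpair u).2 M x'

theorem hier_iff {n : ℕ} {R : Pr} : Hier Clop n R ↔ ∃ u, R = Ev n u := by
  induction n generalizing R with
  | zero =>
    constructor
    · rintro ⟨N, g, hg, rfl⟩
      obtain ⟨u, hu⟩ := exists_code0 N g hg
      exact ⟨u, pr_ext fun M _ x => (hu _).symm⟩
    · rintro ⟨u, rfl⟩
      exact ⟨u, Ev0 u, fun a b h => Ev0_congr h, rfl⟩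
  | succ n ih =>
    constructor
    · rintro ⟨Q, k, hQ, rfl⟩
      obtain ⟨u, rfl⟩ := ih.1 hQ
      refine ⟨Nat.pair k u, pr_ext fun M _ x => ?_⟩
      simp [Ev]
    · rintro ⟨u, rfl⟩
      exact ⟨Ev n (Nat.unpair u).2, (Nat.unpair u).1, ih.2 ⟨_, rfl⟩, rfl⟩

theorem Ev_hier (n u : ℕ) : Hier Clop n (Ev n u) := hier_iff.2 ⟨u, rfl⟩

theorem Ev_supp (n u : ℕ) : Supp u (Ev n u) := by
  cases n with
  | zero => exact fun M _ x y h => Ev0_congr fun p hp => D_congr fun i hi => h i (by omega)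
  | succ n =>
    have hle := Nat.unpair_left_le u
    intro M _ x y h
    constructor
    · rintro ⟨x', h1, h2⟩
      exact ⟨x', fun i hi => (h1 i hi).trans (h i (by omega)), h2⟩
    · rintro ⟨x', h1, h2⟩
      exact ⟨x', fun i hi => (h1 i hi).trans (h i (by omega)).symm, h2⟩

end Pool.Agent.H646R2.SV
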