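import Mathlib

/-!
Definitions used in the statement: oracle computations and the jump, the language `{0, S, +, ·}`
and Peano arithmetic, Gödel numbers, the classes of the arithmetical hierarchy, atomic diagrams,
and Solovay families.
-/

set_option autoImplicit false

open FirstOrder FirstOrder.Language

namespace Pool.Agent.H646R2.SV.Defs

/-! ### Oracle computations -/

/-- Programs using an oracle; compare `Nat.RecursiveIn` in Mathlib. -/
inductive OCode : Type
  | zero : OCode
  | succ : OCode
  | left : OCode
  | right : OCode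
  | oracle : OCode
  | pair (a b : OCode) : OCode
  | comp (a b : OCode) : OCode
  | prec (a b : OCode) : OCode
  | rfind (a : OCode) : OCode

/-- The function computed by a program with the oracle `g`. -/
def OCode.eval (g : ℕ → Part ℕ) : OCode → (ℕ → Part ℕ)
  | .zero => fun _ => Part.some 0
  | .succ => fun n => Part.some (Nat.succ n)
  | .left => fun n => Part.some (Nat.unpair n).1
  | .right => fun n => Part.some (Nat.unpair n).2
  | .oracle => g
  | .pair a b => fun n => (Nat.pair <$> a.eval g n <*> b.eval g n)
  | .comp a b => fun n => (b.eval g n).bind (a.eval g)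
  | .prec a b => fun p =>
        (Nat.unpair p).2.rec (a.eval g (Nat.unpair p).1) fun y IH =>
          IH.bind fun i => b.eval g (Nat.pair (Nat.unpair p).1 (Nat.pair y i))
  | .rfind a => fun x =>
        Nat.rfind fun n => (a.eval g (Nat.pair x n)).map (fun m => decide (m = 0))

/-- The number of a program. Every natural number is the number of exactly one program. -/
def OCode.num : OCode → ℕ
  | .zero => 0
  | .succ => 1
  | .left => 2
  | .right => 3
  | .oracle => 4
  | .pair a b => 4 * Nat.pair a.num b.num + 5
  | .comp a b => 4 * Nat.pair a.num b.num + 6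
  | .prec a b => 4 * Nat.pair a.num b.num + 7
  | .rfind a => 4 * a.num + 8

open Classical in
/-- The characteristic function of a set, used as an oracle. -/
noncomputable def chi (X : Set ℕ) : ℕ → Part ℕ := fun n => Part.some (if n ∈ X then 1 else 0)

/-- The program with number `e` and oracle `X` halts on the input `x` with output `y`. -/
def Phi (X : Set ℕ) (e x y : ℕ) : Prop := ∃ c : OCode, c.num = e ∧ y ∈ c.eval (chi X) x

/-- `e` is an index for `Y` as a set computable in `X`: the program with number `e` and oracle `X`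
computes the characteristic function of `Y`. -/
def IsIndex (X : Set ℕ) (e : ℕ) (Y : Set ℕ) : Prop :=
  ∃ c : OCode, c.num = e ∧ c.eval (chi X) = chi Y

/-- The Turing jump. -/
def jump (X : Set ℕ) : Set ℕ := {e | ∃ y, Phi X e e y}

/-- The `k`-th Turing jump. -/
def jumps (X : Set ℕ) : ℕ → Set ℕ
  | 0 => X
  | k + 1 => jump (jumps X k)

/-! ### The language of arithmetic -/

/-- The function symbols `0`, `S`, `+`, `·`. -/
inductive AFun : ℕ → Type
  | zero : AFun 0
  | succ : AFun 1
  | add : AFun 2
  | mul : AFun 2

/-- The language `{0, S, +, ·}`. -/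
def LS : Language := ⟨AFun, fun _ => Empty⟩

section
variable (M : Type) [LS.Structure M]

/-- The element `0`. -/
def zeroS : M := Structure.funMap (L := LS) AFun.zero ![]
variable {M}
/-- The successor. -/
def succS (x : M) : M := Structure.funMap (L := LS) AFun.succ ![x]
/-- The addition. -/
def addS (x y : M) : M := Structure.funMap (L := LS) AFun.add ![x, y]
/-- The multiplication. -/
def mulS (x y : M) : M := Structure.funMap (L := LS) AFun.mul ![x, y]
variable (M)

/-- `M` is a model of Peano arithmetic: the basic axioms hold, and induction holds for all sets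
which are first-order definable with parameters. -/
structure IsPA : Prop where
  succ_ne_zero : ∀ x : M, succS x ≠ zeroS M
  succ_inj : ∀ x y : M, succS x = succS y → x = y
  add_zero : ∀ x : M, addS x (zeroS M) = x
  add_succ : ∀ x y : M, addS x (succS y) = succS (addS x y)
  mul_zero : ∀ x : M, mulS x (zeroS M) = zeroS M
  mul_succ : ∀ x y : M, mulS x (succS y) = addS (mulS x y) x
  induction : ∀ P : Set M, (Set.univ : Set M).Definable₁ LS P →
    zeroS M ∈ P → (∀ x ∈ P, succS x ∈ P) → ∀ x, x ∈ P

/-- `M` is nonstandard: some element is not of the form `S (S (... (S 0)))`. -/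
def Nonstandard : Prop := ∃ x : M, ∀ n : ℕ, x ≠ succS^[n] (zeroS M)

end

/-! ### Gödel numbers -/

/-- The Gödel number of a term; `v` gives the numbers of the variables (or names). -/
def tnum {α : Type} (v : α → ℕ) : LS.Term α → ℕ
  | .var a => 5 * v a
  | .func AFun.zero _ => 1
  | .func AFun.succ ts => 5 * tnum v (ts 0) + 2
  | .func AFun.add ts => 5 * Nat.pair (tnum v (ts 0)) (tnum v (ts 1)) + 3
  | .func AFun.mul ts => 5 * Nat.pair (tnum v (ts 0)) (tnum v (ts 1)) + 4

/-- The numbers of the variables in formulas. -/
def vnum (n : ℕ) : Empty ⊕ Fin n → ℕ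
  | .inr i => i

/-- The Gödel number of a formula. -/
def fnum : ∀ {n : ℕ}, LS.BoundedFormula Empty n → ℕ
  | _, .falsum => 0
  | n, .equal s t => 3 * Nat.pair (tnum (vnum n) s) (tnum (vnum n) t) + 1
  | _, .rel R _ => Empty.elim R
  | _, .imp φ ψ => 3 * Nat.pair (fnum φ) (fnum ψ) + 2
  | _, .all φ => 3 * fnum φ + 3

/-! ### Bounded quantifiers and the arithmetical hierarchy -/

/-- A term, seen as a term with one more variable. -/
def liftT {n : ℕ} (t : LS.Term (Empty ⊕ Fin n)) : LS.Term (Empty ⊕ Fin (n + 1)) :=
  t.relabel (Sum.map id Fin.castSucc)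

/-- The last variable. -/
def lastV (n : ℕ) : LS.Term (Empty ⊕ Fin (n + 1)) := Term.var (Sum.inr (Fin.last n))

/-- The formula `s ≤ t`, that is `∃ z, s + z = t`. -/
def leF {n : ℕ} (s t : LS.Term (Empty ⊕ Fin n)) : LS.BoundedFormula Empty n :=
  (Term.bdEqual (Term.func (L := LS) AFun.add ![liftT s, lastV n]) (liftT t)).ex

/-- The bounded quantifier: the formula `∀ x, x ≤ t → φ`, where `x` is the last variable of `φ`. -/
def ballF {n : ℕ} (t : LS.Term (Empty ⊕ Fin n)) (φ : LS.BoundedFormula Empty (n + 1)) :
    LS.BoundedFormula Empty n :=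
  ((leF (lastV n) (liftT t)).imp φ).all

/-- Bounded formulas. -/
inductive IsBounded : ∀ {n : ℕ}, LS.BoundedFormula Empty n → Prop
  | falsum {n : ℕ} : IsBounded (BoundedFormula.falsum : LS.BoundedFormula Empty n)
  | equal {n : ℕ} (s t : LS.Term (Empty ⊕ Fin n)) : IsBounded (Term.bdEqual s t)
  | imp {n : ℕ} {φ ψ : LS.BoundedFormula Empty n} : IsBounded φ → IsBounded ψ →
      IsBounded (φ.imp ψ)
  | ball {n : ℕ} (t : LS.Term (Empty ⊕ Fin n)) {φ : LS.BoundedFormula Empty (n + 1)} :
      IsBounded φ → IsBounded (ballF t φ)

/-- The arithmetical hierarchy of formulas: `IsLevel true k` is the class `Σ_k` and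
`IsLevel false k` is the class `Π_k`. The formulas of `Σ_0 = Π_0` are the bounded formulas, those
of `Σ_{k+1}` are obtained from those of `Π_k` by a block of existential quantifiers, and those of
`Π_{k+1}` are obtained from those of `Σ_k` by a block of universal quantifiers. -/
inductive IsLevel : Bool → ℕ → ∀ {n : ℕ}, LS.BoundedFormula Empty n → Prop
  | zero (b : Bool) {n : ℕ} {φ : LS.BoundedFormula Empty n} : IsBounded φ → IsLevel b 0 φ
  | flip {b : Bool} {k n : ℕ} {φ : LS.BoundedFormula Empty n} : IsLevel (!b) k φ →
      IsLevel b (k + 1) φ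
  | ex {k n : ℕ} {φ : LS.BoundedFormula Empty (n + 1)} : IsLevel true (k + 1) φ →
      IsLevel true (k + 1) φ.ex
  | all {k n : ℕ} {φ : LS.BoundedFormula Empty (n + 1)} : IsLevel false (k + 1) φ →
      IsLevel false (k + 1) φ.all

/-- The set of Gödel numbers of `Σ_n` sentences. -/
def SigmaN (n : ℕ) : Set ℕ := {g | ∃ σ : LS.Sentence, IsLevel true n σ ∧ fnum σ = g}

/-! ### Structures with universe `ℕ` -/

/-- The complete theory of a structure with universe `ℕ`, as a set of Gödel numbers. -/
def Th (A : LS.Structure ℕ) : Set ℕ := {g | ∃ σ : LS.Sentence, @Sentence.Realize LS ℕ A σ ∧ fnum σ = g}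

/-- The atomic diagram of a structure with universe `ℕ`: the set of Gödel numbers of all true
equations between closed terms of the language expanded by names for the elements (the term
`.var a` is the name of the element `a`). -/
def diag (A : LS.Structure ℕ) : Set ℕ :=
  {g | ∃ s t : LS.Term ℕ, @Term.realize LS ℕ A ℕ id s = @Term.realize LS ℕ A ℕ id t ∧
    Nat.pair (tnum id s) (tnum id t) = g}

/-! ### Solovay families -/

/-- `t = (t n)` (`n ≥ 1`) is a Solovay family for the complete theory `T` relative to `X`. -/
structure IsSolovayFamily (T X : Set ℕ) (t : ℕ → ℕ → ℕ) : Prop where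
  /-- `t n` is computable in the `(n-1)`-st jump of `X`, uniformly in `n` -/
  computable : ∃ e, ∀ n ≥ 1, ∀ s, Phi (jumps X (n - 1)) e (Nat.pair n s) (t n s)
  /-- the limit of `t n` exists and is an index for `T ∩ Σ_n` as a set computable in `X` -/
  limit : ∀ n ≥ 1, ∃ l, (∀ᶠ s in Filter.atTop, t n s = l) ∧ IsIndex X l (T ∩ SigmaN n)
  /-- all the values of `t n` are indices for subsets of `T ∩ Σ_n` -/
  subset : ∀ n ≥ 1, ∀ s, ∃ Y ⊆ T ∩ SigmaN n, IsIndex X (t n s) Y

/-- The function changes its value at most once. -/
def ChangesOnce (t : ℕ → ℕ) : Prop := ∀ s s', t (s + 1) ≠ t s → t (s' + 1) ≠ t s' → s = s'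

end Pool.Agent.H646R2.SV.Defs
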