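import Pool.Agent.H646R2.SV.Fml

/-!
Bounded predicates, and their hierarchy.
-/

set_option autoImplicit false
set_option linter.unusedVariables false

open FirstOrder FirstOrder.Language Pool.Agent.Helper227.EN

namespace Pool.Agent.H646R2.SV

section raw
variable {M : Type} [LA.Structure M]

/-- addition of a structure -/
def rad (x y : M) : M := Structure.funMap (L := LA) AF.add ![x, y]
/-- multiplication of a structure -/
def rmu (x y : M) : M := Structure.funMap (L := LA) AF.mul ![x, y]
/-- zero of a structure -/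
def rze (M : Type) [LA.Structure M] : M := Structure.funMap (L := LA) AF.zero ![]
/-- one of a structure -/
def ron (M : Type) [LA.Structure M] : M := Structure.funMap (L := LA) AF.one ![]
/-- order of a structure -/
def rlt (x y : M) : Prop := Structure.RelMap (L := LA) AR.lt ![x, y]

end raw

/-- term functions -/
inductive Tm : (∀ (M : Type) [LA.Structure M], (ℕ → M) → M) → Prop
  | var (i : ℕ) : Tm (fun M _ x => x i)
  | zero : Tm (fun M _ x => rze M)
  | one : Tm (fun M _ x => ron M)
  | add {f g : ∀ (M : Type) [LA.Structure M], (ℕ → M) → M} : Tm f → Tm g →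
      Tm (fun M _ x => rad (f M x) (g M x))
  | mul {f g : ∀ (M : Type) [LA.Structure M], (ℕ → M) → M} : Tm f → Tm g →
      Tm (fun M _ x => rmu (f M x) (g M x))

/-- bounded predicates -/
inductive D0 : Pr → Prop
  | eq {f g : ∀ (M : Type) [LA.Structure M], (ℕ → M) → M} : Tm f → Tm g →
      D0 (fun M _ x => f M x = g M x)
  | lt {f g : ∀ (M : Type) [LA.Structure M], (ℕ → M) → M} : Tm f → Tm g →
      D0 (fun M _ x => rlt (f M x) (g M x))
  | not {R : Pr} : D0 R → D0 (fun M _ x => ¬ R M x)
  | and {R S : Pr} : D0 R → D0 S → D0 (fun M _ x => R M x ∧ S M x)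
  | ball {f : ∀ (M : Type) [LA.Structure M], (ℕ → M) → M} {R : Pr} (k : ℕ) : Tm f → D0 R →
      D0 (fun M _ x => ∀ y : M, rlt y (f M x) → R M (Function.update x k y))

theorem Tm.ren {f : ∀ (M : Type) [LA.Structure M], (ℕ → M) → M} (h : Tm f) (σ : ℕ → ℕ) :
    Tm (fun M _ x => f M (fun i => x (σ i))) := by
  induction h with
  | var i => exact Tm.var (σ i)
  | zero => exact Tm.zero
  | one => exact Tm.one
  | add _ _ h1 h2 => exact Tm.add h1 h2
  | mul _ _ h1 h2 => exact Tm.mul h1 h2

theorem Tm.supp {f : ∀ (M : Type) [LA.Structure M], (ℕ → M) → M} (h : Tm f) :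
    ∃ s, ∀ (M : Type) [LA.Structure M] (x y : ℕ → M), (∀ i < s, x i = y i) → f M x = f M y := by
  induction h with
  | var i => exact ⟨i + 1, fun M _ x y h => h i (Nat.lt_succ_self i)⟩
  | zero => exact ⟨0, fun M _ x y h => rfl⟩
  | one => exact ⟨0, fun M _ x y h => rfl⟩
  | add _ _ h1 h2 =>
    obtain ⟨s, hs⟩ := h1
    obtain ⟨t, ht⟩ := h2
    refine ⟨max s t, fun M _ x y h => ?_⟩
    simp only
    rw [hs M x y fun i hi => h i (lt_max_of_lt_left hi), ht M x y fun i hi => h i (lt_max_of_lt_right hi)]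
  | mul _ _ h1 h2 =>
    obtain ⟨s, hs⟩ := h1
    obtain ⟨t, ht⟩ := h2
    refine ⟨max s t, fun M _ x y h => ?_⟩
    simp only
    rw [hs M x y fun i hi => h i (lt_max_of_lt_left hi), ht M x y fun i hi => h i (lt_max_of_lt_right hi)]

theorem D0.supp {R : Pr} (h : D0 R) : ∃ s, Supp s R := by
  induction h with
  | eq hf hg =>
    obtain ⟨s, hs⟩ := hf.supp
    obtain ⟨t, ht⟩ := hg.supp
    refine ⟨max s t, fun M _ x y h => ?_⟩
    simp only
    rw [hs M x y fun i hi => h i (lt_max_of_lt_left hi), ht M x y fun i hi => h i (lt_max_of_lt_right hi)]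
  | lt hf hg =>
    obtain ⟨s, hs⟩ := hf.supp
    obtain ⟨t, ht⟩ := hg.supp
    refine ⟨max s t, fun M _ x y h => ?_⟩
    simp only
    rw [hs M x y fun i hi => h i (lt_max_of_lt_left hi), ht M x y fun i hi => h i (lt_max_of_lt_right hi)]
  | not _ h1 =>
    obtain ⟨s, hs⟩ := h1
    exact ⟨s, hs.not⟩
  | and _ _ h1 h2 =>
    obtain ⟨s, hs⟩ := h1
    obtain ⟨t, ht⟩ := h2
    exact ⟨max s t, fun M _ x y h => and_congr (hs M x y fun i hi => h i (lt_max_of_lt_left hi))
      (ht M x y fun i hi => h i (lt_max_of_lt_right hi))⟩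
  | @ball f R k hf _ h1 =>
    obtain ⟨s, hs⟩ := hf.supp
    obtain ⟨t, ht⟩ := h1
    refine ⟨max s t, fun M _ x y h => forall_congr' fun z => ?_⟩
    rw [hs M x y fun i hi => h i (lt_max_of_lt_left hi)]
    refine imp_congr Iff.rfl (ht M _ _ fun i hi => ?_)
    by_cases hk : i = k
    · subst hk; simp
    · rw [Function.update_of_ne hk, Function.update_of_ne hk]
      exact h i (lt_max_of_lt_right hi)

theorem D0.congr {R S : Pr} (h : D0 R)
    (e : ∀ (M : Type) [LA.Structure M] (x : ℕ → M), R M x ↔ S M x) : D0 S := by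
  rw [← pr_ext e]; exact h

theorem D0.ren {R : Pr} (h : D0 R) (σ : ℕ → ℕ) : D0 (fun M _ x => R M (fun i => x (σ i))) := by
  induction h generalizing σ with
  | eq hf hg => exact D0.eq (hf.ren σ) (hg.ren σ)
  | lt hf hg => exact D0.lt (hf.ren σ) (hg.ren σ)
  | not _ h1 => exact D0.not (h1 σ)
  | and _ _ h1 h2 => exact D0.and (h1 σ) (h2 σ)
  | @ball f R k hf hR h1 =>
    obtain ⟨s, hs⟩ := hR.supp
    let K := ∑ i ∈ Finset.range s, (σ i + 1)
    have hσ : ∀ i < s, σ i < K := by
      intro i hi
      have := Finset.single_le_sum (f := fun i => σ i + 1) (fun _ _ => Nat.zero_le _)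
        (Finset.mem_range.2 hi)
      show σ i < ∑ i ∈ Finset.range s, (σ i + 1)
      omega
    refine (D0.ball K (hf.ren σ) (h1 (fun i => if i = k then K else σ i))).congr fun M _ x => ?_
    refine forall_congr' fun y => imp_congr Iff.rfl (hs M _ _ fun i hi => ?_)
    by_cases hk : i = k
    · simp [hk]
    · have := hσ i hi
      rw [Function.update_of_ne hk]
      simp only [hk, if_false]
      rw [Function.update_of_ne (by omega)]

theorem D0.base : Base D0 := ⟨D0.not, D0.and, fun σ h => h.ren σ, D0.supp⟩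

theorem D0.or {R S : Pr} (h1 : D0 R) (h2 : D0 S) : D0 (fun M _ x => R M x ∨ S M x) :=
  Base.or D0.base h1 h2

theorem D0.imp {R S : Pr} (h1 : D0 R) (h2 : D0 S) : D0 (fun M _ x => R M x → S M x) :=
  (D0.or h1.not h2).congr fun M _ x => by tauto

theorem D0.iff {R S : Pr} (h1 : D0 R) (h2 : D0 S) : D0 (fun M _ x => (R M x ↔ S M x)) :=
  (D0.and (h1.imp h2) (h2.imp h1)).congr fun M _ x => by tauto

/-- bounded universal quantifier with a named variable -/
theorem D0.all {f : ∀ (M : Type) [LA.Structure M], (ℕ → M) → M} (hf : Tm f)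
    (Q : ∀ (M : Type) [LA.Structure M], (ℕ → M) → M → Prop) (K : ℕ)
    (hK : ∀ (M : Type) [LA.Structure M] (x : ℕ → M) (y v : M),
      Q M (Function.update x K v) y ↔ Q M x y)
    (h : D0 (fun M _ x => Q M x (x K))) :
    D0 (fun M _ x => ∀ y : M, rlt y (f M x) → Q M x y) := by
  refine (D0.ball K hf h).congr fun M _ x => forall_congr' fun y => imp_congr Iff.rfl ?_
  rw [Function.update_self, hK]

/-- bounded existential quantifier with a named variable -/
theorem D0.ex {f : ∀ (M : Type) [LA.Structure M], (ℕ → M) → M} (hf : Tm f)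
    (Q : ∀ (M : Type) [LA.Structure M], (ℕ → M) → M → Prop) (K : ℕ)
    (hK : ∀ (M : Type) [LA.Structure M] (x : ℕ → M) (y v : M),
      Q M (Function.update x K v) y ↔ Q M x y)
    (h : D0 (fun M _ x => Q M x (x K))) :
    D0 (fun M _ x => ∃ y : M, rlt y (f M x) ∧ Q M x y) := by
  refine (D0.all hf (fun M _ x y => ¬ Q M x y) K (fun M _ x y v => not_congr (hK M x y v))
    h.not).not.congr fun M _ x => ?_
  push Not
  rfl

/-! ### Relations with the other classes -/

theorem D0.fact (c i j l : ℕ) : D0 (fun M _ x => fact4 x c i j l) := by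
  unfold fact4
  split_ifs with h0 h1 h2 h3 h4
  · exact D0.eq (Tm.add (Tm.var i) (Tm.var j)) (Tm.var l)
  · exact D0.eq (Tm.mul (Tm.var i) (Tm.var j)) (Tm.var l)
  · exact D0.lt (Tm.var i) (Tm.var j)
  · exact D0.eq Tm.zero (Tm.var i)
  · exact D0.eq Tm.one (Tm.var i)
  · exact D0.eq (Tm.var i) (Tm.var j)

theorem D0.const (P : Prop) : D0 (fun M _ x => P) := by
  have h := D0.eq Tm.zero Tm.zero
  by_cases hP : P
  · exact h.congr fun M _ x => by simp [hP]
  · exact h.not.congr fun M _ x => by simp [hP]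

theorem D0.clop {R : Pr} (h : Clop R) : D0 R := by
  classical
  obtain ⟨N, g, hg, rfl⟩ := h
  induction N generalizing g with
  | zero =>
    exact (D0.const (g fun _ => false)).congr fun M _ x => hg _ _ fun i hi => absurd hi (by omega)
  | succ N ih =>
    have hb : D0 (fun M _ x => D x N = true) :=
      (D0.fact (q0 N) (q1 N) (q2 N) (q3 N)).congr fun M _ x => (D_iff x N).symm
    have h1 := fun b : Bool => ih (fun a => g (Function.update a N b)) (fun a a' h => hg _ _ fun i hi => by
      by_cases hi2 : i = N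
      · subst hi2; simp
      · rw [Function.update_of_ne hi2, Function.update_of_ne hi2]; exact h i (by omega))
    refine (D0.or (hb.and (h1 true)) (hb.not.and (h1 false))).congr fun M _ x => ?_
    have h2 : g (D x) ↔ g (Function.update (D x) N (D x N)) := by rw [Function.update_eq_self]
    show _ ↔ g (D x)
    rw [h2]
    cases D x N <;> simp

theorem hier_clop_D0 {n : ℕ} {R : Pr} (h : Hier Clop n R) : Hier D0 n R :=
  Hier.base_mono (fun _ => D0.clop) h

theorem Tm.term {f : ∀ (M : Type) [LA.Structure M], (ℕ → M) → M} (h : Tm f) :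
    ∃ t : LA.Term ℕ, ∀ (M : Type) [LA.Structure M] (x : ℕ → M), t.realize x = f M x := by
  induction h with
  | var i => exact ⟨Term.var i, fun M _ x => rfl⟩
  | zero => exact ⟨t0, fun M _ x => ea_t0 x⟩
  | one => exact ⟨t1, fun M _ x => ea_t1 x⟩
  | add _ _ h1 h2 =>
    obtain ⟨s, hs⟩ := h1
    obtain ⟨t, ht⟩ := h2
    exact ⟨tadd s t, fun M _ x => by rw [ea_tadd, hs, ht]; rfl⟩
  | mul _ _ h1 h2 =>
    obtain ⟨s, hs⟩ := h1
    obtain ⟨t, ht⟩ := h2
    exact ⟨tmul s t, fun M _ x => by rw [ea_tmul, hs, ht]; rfl⟩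

theorem D0.hierU {R : Pr} (h : D0 R) : HierU Clop R := by
  induction h with
  | eq hf hg =>
    obtain ⟨s, hs⟩ := hf.term
    obtain ⟨t, ht⟩ := hg.term
    refine (formula_hier (Term.equal s t)).congr fun M _ x => ?_
    rw [Formula.realize_equal, hs, ht]
  | lt hf hg =>
    obtain ⟨s, hs⟩ := hf.term
    obtain ⟨t, ht⟩ := hg.term
    refine (formula_hier (Relations.formula₂ (L := LA) AR.lt s t)).congr fun M _ x => ?_
    rw [← hs M x, ← ht M x]
    exact Formula.realize_rel₂ (L := LA) (R := AR.lt) (t₁ := s) (t₂ := t)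
  | not _ h1 => exact h1.not Clop.base
  | and _ _ h1 h2 => exact h1.and Clop.base h2
  | @ball f R k hf hR h1 =>
    obtain ⟨s, hs⟩ := hf.supp
    obtain ⟨t, ht⟩ := hR.supp
    obtain ⟨tt, htt⟩ := hf.term
    -- a fresh variable
    let K := s + t + k + 1
    have h2 : HierU Clop (fun M _ x => ∃ y : M, rlt y (f M x) ∧ ¬ R M (Function.update x k y)) := by
      refine HierU.ex Clop.base (fun M _ x y => rlt y (f M x) ∧ ¬ R M (Function.update x k y)) K ?_ ?_
      · intro M _ x y v
        rw [hs M (Function.update x K v) x fun i hi => Function.update_of_ne (by omega) _ _]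
        refine and_congr Iff.rfl (not_congr (ht M _ _ fun i hi => ?_))
        by_cases hk : i = k
        · subst hk; simp
        · rw [Function.update_of_ne hk, Function.update_of_ne hk, Function.update_of_ne (by omega)]
      · refine HierU.and Clop.base ?_ (HierU.not Clop.base ?_)
        · refine (formula_hier (Relations.formula₂ (L := LA) AR.lt (Term.var K) tt)).congr
            fun M _ x => ?_
          rw [← htt M x]
          exact Formula.realize_rel₂ (L := LA) (R := AR.lt) (t₁ := Term.var K) (t₂ := tt)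
        · refine (h1.ren Clop.base (fun i => if i = k then K else i)).congr fun M _ x => ?_
          refine ht M _ _ fun i hi => ?_
          by_cases hk : i = k
          · subst hk; simp
          · rw [Function.update_of_ne hk]; simp [hk]
    refine (h2.not Clop.base).congr fun M _ x => ?_
    push Not
    rfl

theorem hier_D0_hierU {n : ℕ} {R : Pr} (h : Hier D0 n R) : HierU Clop R := by
  induction n generalizing R with
  | zero => exact D0.hierU h
  | succ n ih =>
    obtain ⟨Q, k, hQ, rfl⟩ := h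
    obtain ⟨N, hN⟩ := ih hQ
    exact ⟨N + 1, Q, k, hN, rfl⟩

end Pool.Agent.H646R2.SV
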