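import Pool.Agent.H646R2.SV.EffK

/-!
Every sequence of bits avoiding the forbidden patterns gives a model of Peano arithmetic;
effective completeness.
-/

set_option autoImplicit false
set_option linter.unusedVariables false

open FirstOrder FirstOrder.Language Pool.Agent.Helper227.EN Encodable

namespace Pool.Agent.H646R2.SV

section
variable {L : List (ℕ × ℕ)} {B : ℕ → Bool} (hB : Avoids (Vall L) B)
include hB

theorem av_s {v : List (Bool × ℕ)} (hv : Vs v) : ∃ q ∈ v, B q.2 ≠ q.1 := hB v (Or.inl hv)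

theorem b_refl (i : ℕ) : B (eqp i i) = true := by
  simpa using av_s hB ⟨((i, 0), (0, 0)), Or.inl rfl⟩

theorem b_symm {i j : ℕ} (h : B (eqp i j) = true) : B (eqp j i) = true := by
  simpa [h] using av_s hB ⟨((i, j), (0, 0)), Or.inr (Or.inl rfl)⟩

theorem b_trans {i j k : ℕ} (h : B (eqp i j) = true) (h' : B (eqp j k) = true) :
    B (eqp i k) = true := by
  simpa [h, h'] using av_s hB ⟨((i, j), (k, 0)), Or.inr (Or.inr (Or.inl rfl))⟩

theorem b_add (i j l : ℕ) : B (ep (fc 0 i j l)) = B (eqp (sm i j) l) := by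
  have h1 := av_s hB ⟨((i, j), (l, 0)), Or.inr (Or.inr (Or.inr (Or.inl rfl)))⟩
  have h2 := av_s hB ⟨((i, j), (l, 0)), Or.inr (Or.inr (Or.inr (Or.inr (Or.inl rfl))))⟩
  simp only [List.mem_cons, List.not_mem_nil, or_false, exists_eq_or_imp, exists_eq_left] at h1 h2
  revert h1 h2
  cases B (ep (fc 0 i j l)) <;> cases B (eqp (sm i j) l) <;> simp

theorem b_addc {i j i' j' : ℕ} (h : B (eqp i i') = true) (h' : B (eqp j j') = true) :
    B (eqp (sm i j) (sm i' j')) = true := by
  simpa [h, h'] using av_s hB ⟨((i, j), (i', j')), Or.inr (Or.inr (Or.inr (Or.inr (Or.inr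
    (Or.inl rfl)))))⟩

theorem b_mul (i j l : ℕ) : B (ep (fc 1 i j l)) = B (eqp (ml i j) l) := by
  have h1 := av_s hB ⟨((i, j), (l, 0)), Or.inr (Or.inr (Or.inr (Or.inr (Or.inr (Or.inr
    (Or.inl rfl))))))⟩
  have h2 := av_s hB ⟨((i, j), (l, 0)), Or.inr (Or.inr (Or.inr (Or.inr (Or.inr (Or.inr
    (Or.inr (Or.inl rfl)))))))⟩
  simp only [List.mem_cons, List.not_mem_nil, or_false, exists_eq_or_imp, exists_eq_left] at h1 h2
  revert h1 h2
  cases B (ep (fc 1 i j l)) <;> cases B (eqp (ml i j) l) <;> simp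

theorem b_mulc {i j i' j' : ℕ} (h : B (eqp i i') = true) (h' : B (eqp j j') = true) :
    B (eqp (ml i j) (ml i' j')) = true := by
  simpa [h, h'] using av_s hB ⟨((i, j), (i', j')), Or.inr (Or.inr (Or.inr (Or.inr (Or.inr (Or.inr
    (Or.inr (Or.inr (Or.inl rfl))))))))⟩

theorem b_zero (i : ℕ) : B (ep (fc 3 i 0 0)) = B (eqp (nu 0) i) := by
  have h1 := av_s hB ⟨((i, 0), (0, 0)), Or.inr (Or.inr (Or.inr (Or.inr (Or.inr (Or.inr
    (Or.inr (Or.inr (Or.inr (Or.inl rfl)))))))))⟩
  have h2 := av_s hB ⟨((i, 0), (0, 0)), Or.inr (Or.inr (Or.inr (Or.inr (Or.inr (Or.inr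
    (Or.inr (Or.inr (Or.inr (Or.inr (Or.inl rfl))))))))))⟩
  simp only [List.mem_cons, List.not_mem_nil, or_false, exists_eq_or_imp, exists_eq_left] at h1 h2
  revert h1 h2
  cases B (ep (fc 3 i 0 0)) <;> cases B (eqp (nu 0) i) <;> simp

theorem b_one (i : ℕ) : B (ep (fc 4 i 0 0)) = B (eqp (nu 1) i) := by
  have h1 := av_s hB ⟨((i, 0), (0, 0)), Or.inr (Or.inr (Or.inr (Or.inr (Or.inr (Or.inr
    (Or.inr (Or.inr (Or.inr (Or.inr (Or.inr (Or.inl rfl)))))))))))⟩
  have h2 := av_s hB ⟨((i, 0), (0, 0)), Or.inr (Or.inr (Or.inr (Or.inr (Or.inr (Or.inr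
    (Or.inr (Or.inr (Or.inr (Or.inr (Or.inr (Or.inr (Or.inl rfl))))))))))))⟩
  simp only [List.mem_cons, List.not_mem_nil, or_false, exists_eq_or_imp, exists_eq_left] at h1 h2
  revert h1 h2
  cases B (ep (fc 4 i 0 0)) <;> cases B (eqp (nu 1) i) <;> simp

theorem b_lt {i j i' j' : ℕ} (h : B (eqp i i') = true) (h' : B (eqp j j') = true)
    (h'' : B (ep (fc 2 i j 0)) = true) : B (ep (fc 2 i' j' 0)) = true := by
  simpa [h, h', h''] using av_s hB ⟨((i, j), (i', j')), Or.inr (Or.inr (Or.inr (Or.inr (Or.inr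
    (Or.inr (Or.inr (Or.inr (Or.inr (Or.inr (Or.inr (Or.inr (Or.inr (Or.inl rfl)))))))))))))⟩

theorem b_num (r : ℕ) : B (eqp (sm (nu r) (nu 1)) (nu (r + 1))) = true := by
  simpa using av_s hB ⟨((r, 0), (0, 0)), Or.inr (Or.inr (Or.inr (Or.inr (Or.inr
    (Or.inr (Or.inr (Or.inr (Or.inr (Or.inr (Or.inr (Or.inr (Or.inr (Or.inr rfl)))))))))))))⟩

theorem b_eqv {p p' : ℕ} (h : Eqv p p') : B (ep p) = B (ep p') := by
  have h' : Eqv p' p := by
    rcases h with ⟨a, b, c, d⟩ | ⟨a, b, c⟩ | ⟨a, b, c⟩ | ⟨a, b, c, d⟩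
    · exact Or.inl ⟨b, a, c.symm, d.symm⟩
    · exact Or.inr (Or.inl ⟨b, a, c.symm⟩)
    · exact Or.inr (Or.inr (Or.inl ⟨b, a, c.symm⟩))
    · exact Or.inr (Or.inr (Or.inr ⟨b, a, c.symm, d.symm⟩))
  have h1 := hB _ (Or.inr (Or.inl ⟨(p, p'), h, rfl⟩))
  have h2 := hB _ (Or.inr (Or.inl ⟨(p', p), h', rfl⟩))
  simp only [List.mem_cons, List.not_mem_nil, or_false, exists_eq_or_imp, exists_eq_left] at h1 h2
  revert h1 h2
  cases B (ep p) <;> cases B (ep p') <;> simp

/-- the equivalence relation on names -/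
def bSetoid : Setoid ℕ where
  r i j := B (eqp i j) = true
  iseqv := ⟨b_refl hB, b_symm hB, b_trans hB⟩

/-- the universe of the model -/
def BM : Type := Quotient (bSetoid hB)

/-- the element with the given name -/
def el (i : ℕ) : BM hB := Quotient.mk (bSetoid hB) i

theorem el_eq {i j : ℕ} : el hB i = el hB j ↔ B (eqp i j) = true :=
  Quotient.eq (r := bSetoid hB)

theorem el_surj (q : BM hB) : ∃ i, el hB i = q := Quotient.exists_rep q

/-- addition -/
def bAdd : BM hB → BM hB → BM hB :=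
  Quotient.lift₂ (fun i j => el hB (sm i j)) fun i j i' j' h h' => (el_eq hB).2 (b_addc hB h h')

/-- multiplication -/
def bMul : BM hB → BM hB → BM hB :=
  Quotient.lift₂ (fun i j => el hB (ml i j)) fun i j i' j' h h' => (el_eq hB).2 (b_mulc hB h h')

/-- order -/
def bLt : BM hB → BM hB → Prop :=
  Quotient.lift₂ (fun i j => B (ep (fc 2 i j 0)) = true) fun i j i' j' h h' =>
    propext ⟨b_lt hB h h', b_lt hB (b_symm hB h) (b_symm hB h')⟩

/-- the model -/
instance bStr : LA.Structure (BM hB) where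
  funMap := fun {n} f => match n, f with
    | _, AF.zero => fun _ => el hB (nu 0)
    | _, AF.one => fun _ => el hB (nu 1)
    | _, AF.add => fun v => bAdd hB (v 0) (v 1)
    | _, AF.mul => fun v => bMul hB (v 0) (v 1)
  RelMap := fun {n} r => match n, r with
    | _, AR.lt => fun v => bLt hB (v 0) (v 1)

theorem b_fact (f : ℕ → ℕ) (c i j l : ℕ) :
    fact4 (fun i => el hB (f i)) c i j l ↔ B (ep (fc c (f i) (f j) (f l))) = true := by
  unfold fact4
  split_ifs with h0 h1 h2 h3 h4
  · subst h0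
    rw [b_add hB, ← el_eq hB]; rfl
  · subst h1
    rw [b_mul hB, ← el_eq hB]; rfl
  · subst h2
    rw [b_eqv hB (p' := fc 2 (f i) (f j) 0) (Or.inl (by simp))]
    exact Iff.rfl
  · subst h3
    rw [b_eqv hB (p' := fc 3 (f i) 0 0) (Or.inr (Or.inl (by simp))), b_zero hB, ← el_eq hB]; rfl
  · subst h4
    rw [b_eqv hB (p' := fc 4 (f i) 0 0) (Or.inr (Or.inr (Or.inl (by simp)))), b_one hB,
      ← el_eq hB]; rfl
  · rw [b_eqv hB (p' := fc 5 (f i) (f j) 0) (Or.inr (Or.inr (Or.inr (by simp; omega))))]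
    exact el_eq hB

theorem b_truth (n u : ℕ) (a : List ℕ) :
    Ev n u (BM hB) (fun i => el hB (a.getD i 0)) ↔ B (hp n u a) = true := by
  induction n generalizing u a with
  | zero =>
    obtain ⟨s, -, hs⟩ := rp_exists u (D fun i => el hB (a.getD i 0))
    have he : Ev0 u (rpbit s) ↔ Ev0 u (D fun i => el hB (a.getD i 0)) := Ev0_congr hs
    show Ev0 u (D fun i => el hB (a.getD i 0)) ↔ _
    rw [← he]
    -- the pattern
    have key : ∀ b : Bool, ((b = true ∧ ¬ Ev0 u (rpbit s)) ∨ (b = false ∧ Ev0 u (rpbit s))) →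
        B (hp 0 u a) ≠ b := by
      intro b hb hc
      let v : List (Bool × ℕ) := (List.range u).map (fun p => (rpbit s p,
        ep (fc (q0 p) (a.getD (q1 p) 0) (a.getD (q2 p) 0) (a.getD (q3 p) 0)))) ++ [(b, hp 0 u a)]
      have hv : Vc v := by
        refine ⟨((u, s), (a, b)), hb, by simp [v], fun p hp => ?_, ?_⟩
        · simp only at hp
          simp only [v]
          rw [List.getElem?_append_left (by simpa using hp)]
          simp [hp]
        · simp only [v]
          rw [List.getElem?_append_right (by simp)]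
          simp
      obtain ⟨q, hq, hq2⟩ := hB v (Or.inr (Or.inr (Or.inl hv)))
      simp only [v, List.mem_append, List.mem_map, List.mem_range, List.mem_singleton] at hq
      rcases hq with ⟨p, hp, rfl⟩ | rfl
      · apply hq2
        simp only
        rw [hs p hp, Bool.eq_iff_iff, D_iff]
        exact (b_fact hB (fun i => a.getD i 0) _ _ _ _).symm
      · exact hq2 hc
    by_cases hE : Ev0 u (rpbit s)
    · have := key false (Or.inr ⟨rfl, hE⟩)
      simp only [ne_eq, Bool.not_eq_false] at this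
      simp [hE, this]
    · have := key true (Or.inl ⟨rfl, hE⟩)
      simp [hE, this]
  | succ n ih =>
    constructor
    · rintro ⟨x', h1, h2⟩
      choose y hy using fun i => el_surj hB (x' i)
      let a' : List ℕ := (List.range ((Nat.unpair u).1 + (Nat.unpair u).2)).map
        (fun i => if i < (Nat.unpair u).1 then a.getD i 0 else y i)
      have ha' : ∀ i < (Nat.unpair u).1 + (Nat.unpair u).2,
          a'.getD i 0 = if i < (Nat.unpair u).1 then a.getD i 0 else y i := by
        intro i hi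
        simp [a', List.getD, hi]
      have h3 : ¬ Ev n (Nat.unpair u).2 (BM hB) (fun i => el hB (a'.getD i 0)) := by
        intro hc
        refine h2 ((Ev_supp n (Nat.unpair u).2 _ _ _ fun i hi => ?_).1 hc)
        rw [ha' i (by omega)]
        by_cases hi2 : i < (Nat.unpair u).1
        · rw [if_pos hi2, h1 i hi2]
        · rw [if_neg hi2, hy]
      rw [ih] at h3
      have hv : Vb [(false, hp (n + 1) u a), (false, hp n (Nat.unpair u).2 a')] := by
        refine ⟨((n, u), (a, a')), Or.inr ⟨fun i hi => ?_, rfl⟩⟩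
        simp only at hi ⊢
        rw [ha' i (by omega), if_pos hi]
      obtain ⟨q, hq, hq2⟩ := hB _ (Or.inr (Or.inr (Or.inr (Or.inl hv))))
      simp only [List.mem_cons, List.not_mem_nil, or_false] at hq
      rcases hq with rfl | rfl
      · simpa using hq2
      · simp only [ne_eq, Bool.not_eq_false] at hq2
        exact absurd hq2 h3
    · intro h
      let a' : List ℕ := (List.range ((Nat.unpair u).1 + (Nat.unpair u).2)).map
        (fun i => if i < (Nat.unpair u).1 then a.getD i 0 else bw n u a i)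
      have ha' : ∀ i < (Nat.unpair u).1 + (Nat.unpair u).2,
          a'.getD i 0 = if i < (Nat.unpair u).1 then a.getD i 0 else bw n u a i := by
        intro i hi
        simp [a', List.getD, hi]
      have hv : Vb [(true, hp (n + 1) u a), (true, hp n (Nat.unpair u).2 a')] := by
        refine ⟨((n, u), (a, a')), Or.inl ⟨⟨fun i hi => ?_, fun i hi hi2 => ?_⟩, rfl⟩⟩
        · simp only at hi ⊢
          rw [ha' i (by omega), if_pos hi]
        · simp only at hi hi2 ⊢
          rw [ha' i (by omega), if_neg (by omega)]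
      obtain ⟨q, hq, hq2⟩ := hB _ (Or.inr (Or.inr (Or.inr (Or.inl hv))))
      simp only [List.mem_cons, List.not_mem_nil, or_false] at hq
      rcases hq with rfl | rfl
      · exact absurd h hq2
      · simp only at hq2
        rw [ne_eq, ← ih] at hq2
        refine ⟨_, fun i hi => ?_, hq2⟩
        show el hB (a'.getD i 0) = el hB (a.getD i 0)
        rw [ha' i (by omega), if_pos hi]

theorem b_nm (r : ℕ) : el hB (nu r) = nm (BM hB) r := by
  induction r with
  | zero => rfl
  | succ r ih =>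
    show _ = bAdd hB (nm (BM hB) r) (el hB (nu 1))
    rw [← ih]
    exact ((el_eq hB).2 (b_num hB r)).symm

theorem b_pac (hL : IsAx L) : PAc (BM hB) := by
  refine ⟨(hL (BM hB) (fun i => el hB (([] : List ℕ).getD i 0))).1 fun q hq => ?_, fun n u x => ?_⟩
  · rw [b_truth]
    obtain ⟨q', hq', hq2⟩ := hB _ (Or.inr (Or.inr (Or.inr (Or.inr (Or.inr ⟨q, hq, rfl⟩)))))
    simp only [List.mem_cons, List.not_mem_nil, or_false] at hq'
    subst hq'
    simpa using hq2
  · choose y hy using fun i => el_surj hB (x i)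
    let a : List ℕ := (List.range u).map fun i => y (i + 1)
    have ha : ∀ i < u, a.getD i 0 = y (i + 1) := by
      intro i hi
      simp [a, List.getD, hi]
    have key : ∀ z : ℕ, Ev n u (BM hB) (Function.update x 0 (el hB z)) ↔
        B (hp n u (z :: a)) = true := by
      intro z
      rw [← b_truth]
      refine Ev_supp n u _ _ _ fun i hi => ?_
      cases i with
      | zero => simp
      | succ i =>
        rw [Function.update_of_ne (Nat.succ_ne_zero i)]
        show x (i + 1) = el hB (a.getD i 0)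
        rw [ha i (by omega), hy]
    rintro ⟨z, hz⟩
    obtain ⟨z, rfl⟩ := el_surj hB z
    rw [key] at hz
    refine ⟨el hB (lw n u a), ?_, fun w hw hc => ?_⟩
    · rw [key]
      obtain ⟨q, hq, hq2⟩ := hB _ (Or.inr (Or.inr (Or.inr (Or.inr (Or.inl
        ⟨((n, u), (z, a)), Or.inl rfl⟩)))))
      simp only [List.mem_cons, List.not_mem_nil, or_false] at hq
      rcases hq with rfl | rfl
      · exact absurd hz hq2
      · simpa using hq2
    · obtain ⟨w, rfl⟩ := el_surj hB w
      rw [key] at hc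
      obtain ⟨q, hq, hq2⟩ := hB _ (Or.inr (Or.inr (Or.inr (Or.inr (Or.inl
        ⟨((n, u), (w, a)), Or.inr rfl⟩)))))
      simp only [List.mem_cons, List.not_mem_nil, or_false] at hq
      rcases hq with rfl | rfl
      · exact absurd hc hq2
      · exact hq2 hw

end

/-- the sequence whose first entry is a numeral, the others being `0` -/
def cs (K : Type) [LA.Structure K] (r : ℕ) : ℕ → K := fun i => if i = 0 then nm K r else nm K 0

theorem getD_nu {K : Type} [LA.Structure K] {h : ℕ → K} (h1 : ∀ r, h (nu r) = nm K r) (r : ℕ) :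
    (fun i => h ([nu r].getD i 0)) = cs K r := by
  funext i
  cases i with
  | zero => simp [cs, h1]
  | succ i =>
    show h (nu 0) = if i + 1 = 0 then nm K r else nm K 0
    rw [h1]
    simp

/-- clauses of basic facts -/
def clauseMap (q : Bool × ((ℕ × ℕ) × ℕ)) : Bool × ℕ := (q.1, hp q.2.1.1 q.2.1.2 [nu q.2.2])

theorem clauseMap_prim : Primrec clauseMap := by
  unfold clauseMap hp nu
  refine Primrec.pair Primrec.fst (Primrec.succ.comp (Primrec.nat_mul.comp (Primrec.const 2) ?_))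
  refine Primrec₂.natPair.comp (Primrec.fst.comp (Primrec.fst.comp Primrec.snd)) ?_
  refine Primrec₂.natPair.comp (Primrec.snd.comp (Primrec.fst.comp Primrec.snd)) ?_
  refine Primrec.encode.comp (Primrec.list_cons.comp ?_ (Primrec.const []))
  exact Primrec₂.natPair.comp (Primrec.const 0) (Primrec.snd.comp Primrec.snd)

theorem ec {L : List (ℕ × ℕ)} (hL : IsAx L) (c : List (Bool × ((ℕ × ℕ) × ℕ))) :
    (∀ (K : Type) [LA.Structure K] [Nonempty K], PAc K →
      ∃ q ∈ c, (Ev q.2.1.1 q.2.1.2 K (cs K q.2.2) ↔ q.1 = true)) ↔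
    ∀ B, Avoids (Vall L) B → ∃ q ∈ c.map clauseMap, B q.2 = q.1 := by
  constructor
  · intro h B hB
    have : Nonempty (BM hB) := ⟨el hB 0⟩
    obtain ⟨q, hq, hq2⟩ := h (BM hB) (b_pac hB hL)
    refine ⟨clauseMap q, List.mem_map.2 ⟨q, hq, rfl⟩, ?_⟩
    rw [← getD_nu (b_nm hB), b_truth] at hq2
    show B (hp q.2.1.1 q.2.1.2 [nu q.2.2]) = q.1
    rw [Bool.eq_iff_iff]
    exact hq2
  · intro h K _ _ hK
    obtain ⟨f, h1, h2, h3, h4, h5⟩ := exists_naming K
    obtain ⟨q, hq, hq2⟩ := h (BK f) (BK_avoids hK hL h1 h2 h3 h4 h5)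
    obtain ⟨q', hq', rfl⟩ := List.mem_map.1 hq
    refine ⟨q', hq', ?_⟩
    have h6 : BK f (hp q'.2.1.1 q'.2.1.2 [nu q'.2.2]) = q'.1 := hq2
    rw [← getD_nu h1, ← BK_hp, h6]

/-- **Effective completeness.** -/
theorem ec_re {L : List (ℕ × ℕ)} (hL : IsAx L) :
    REPred fun c : List (Bool × ((ℕ × ℕ) × ℕ)) =>
      ∀ (K : Type) [LA.Structure K] [Nonempty K], PAc K →
        ∃ q ∈ c, (Ev q.2.1.1 q.2.1.2 K (cs K q.2.2) ↔ q.1 = true) := by
  have h : Computable fun c : List (Bool × ((ℕ × ℕ) × ℕ)) => c.map clauseMap :=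
    (Primrec.list_map Primrec.id (clauseMap_prim.comp Primrec.snd).to₂).to_comp
  exact (Pool.Agent.Helper578.JD.RE.comp (ec0 (Vall_re L)) h).of_eq fun c => (ec hL c).symm

/-- there are finitely many codes for `PA⁻` -/
theorem exists_ax : ∃ L : List (ℕ × ℕ), IsAx L := by
  have hfin : (PAminus : Set LA.Sentence).Finite := by
    unfold PAminus
    exact Set.toFinite _
  have h1 : ∀ φ : LA.Sentence, ∃ q : ℕ × ℕ, ∀ (M : Type) [LA.Structure M] (x : ℕ → M),
      Ev q.1 q.2 M x ↔ M ⊨ φ := by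
    intro φ
    obtain ⟨n, hn⟩ := sentence_hier φ
    obtain ⟨u, hu⟩ := hier_iff.1 hn
    exact ⟨(n, u), fun M _ x => by rw [← hu]⟩
  choose f hf using h1
  refine ⟨hfin.toFinset.toList.map f, fun M _ x => ?_⟩
  rw [Theory.model_iff]
  constructor
  · intro h φ hφ
    rw [← hf φ M x]
    refine h _ (List.mem_map.2 ⟨φ, ?_, rfl⟩)
    rw [Finset.mem_toList, Set.Finite.mem_toFinset]
    exact hφ
  · intro h q hq
    obtain ⟨φ, hφ, rfl⟩ := List.mem_map.1 hq
    rw [hf]
    rw [Finset.mem_toList, Set.Finite.mem_toFinset] at hφ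
    exact h φ hφ

end Pool.Agent.H646R2.SV
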