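import Pool.Agent.H646R2.SV.Pat

/-!
Every model of Peano arithmetic gives a sequence of bits avoiding the forbidden patterns.
-/

set_option autoImplicit false
set_option linter.unusedVariables false

open FirstOrder FirstOrder.Language Pool.Agent.Helper227.EN Encodable

namespace Pool.Agent.H646R2.SV

theorem exists_rec {K : Type} (F : ℕ → (ℕ → K) → K)
    (hF : ∀ t f g, (∀ s < t, f s = g s) → F t f = F t g) (d : K) : ∃ h : ℕ → K, ∀ t, h t = F t h := by
  let h : ℕ → K := WellFounded.fix (C := fun _ => K) Nat.lt_wfRel.wf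
    (fun t ih => F t fun s => if hs : s < t then ih s hs else d)
  refine ⟨h, fun t => ?_⟩
  have h1 : h t = F t fun s => if hs : s < t then h s else d := by
    show WellFounded.fix _ _ _ = _
    rw [WellFounded.fix_eq]
  rw [h1]
  refine hF t _ _ fun s hs => ?_
  simp [hs]

theorem mem_lt_encode (z : ℕ) (zs : List ℕ) (h : z ∈ zs) : z < encode zs := by
  induction zs with
  | nil => simp at h
  | cons a l ih =>
    rw [Encodable.encode_list_cons]
    simp only [encode_nat]
    rcases List.mem_cons.1 h with rfl | h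
    · have := Nat.left_le_pair z (encode l)
      omega
    · have := Nat.right_le_pair a (encode l)
      have := ih h
      omega

theorem getD_le_encode (a : List ℕ) (i : ℕ) : a.getD i 0 ≤ encode a := by
  rw [List.getD_eq_getElem?_getD]
  cases h : a[i]? with
  | none => simp
  | some z =>
    have := mem_lt_encode z a (List.mem_of_getElem? h)
    simpa using this.le

theorem lt_pair_succ (c d : ℕ) : d < Nat.pair (c + 1) d := by
  have h1 : Nat.pair 0 d < Nat.pair (c + 1) d := Nat.pair_lt_pair_left d (Nat.succ_pos c)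
  have h2 := Nat.right_le_pair 0 d
  omega

section
variable {K : Type} [LA.Structure K]

/-- value of a numeral -/
def nm (K : Type) [LA.Structure K] : ℕ → K
  | 0 => Structure.funMap (L := LA) AF.zero ![]
  | r + 1 => Structure.funMap (L := LA) AF.add ![nm K r, Structure.funMap (L := LA) AF.one (![] : Fin 0 → _)]

open Classical in
/-- a witness for a block of quantifiers -/
noncomputable def bwit (n u : ℕ) (x : ℕ → K) : ℕ → K :=
  if h : ∃ x' : ℕ → K, (∀ i < (Nat.unpair u).1, x' i = x i) ∧ ¬ Ev n (Nat.unpair u).2 K x' then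
    h.choose else x

/-- adding an element in front -/
def cns (y : K) (x : ℕ → K) : ℕ → K := fun i => if i = 0 then y else x (i - 1)

open Classical in
/-- a least witness -/
noncomputable def lwit (n u : ℕ) (x : ℕ → K) : K :=
  if h : ∃ y : K, Ev n u K (cns y x) ∧ ∀ z, Structure.RelMap (L := LA) AR.lt ![z, y] →
    ¬ Ev n u K (cns z x) then h.choose else x 0

/-- list of names -/
def lst (e : ℕ) : List ℕ := Denumerable.ofNat (List ℕ) e

@[simp] theorem lst_encode (a : List ℕ) : lst (encode a) = a := by simp [lst]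

theorem lst_getD_le (e i : ℕ) : (lst e).getD i 0 ≤ e := by
  have h := getD_le_encode (lst e) i
  rwa [show encode (lst e) = e from Denumerable.encode_ofNat e] at h

/-- components of names -/
def d1 (t : ℕ) : ℕ := (Nat.unpair (Nat.unpair t).2).1
def d2 (t : ℕ) : ℕ := (Nat.unpair (Nat.unpair t).2).2

theorem d1_le (t : ℕ) : d1 t ≤ (Nat.unpair t).2 := Nat.unpair_left_le _
theorem d2_le (t : ℕ) : d2 t ≤ (Nat.unpair t).2 := Nat.unpair_right_le _

/-- the recursion for the naming function -/
noncomputable def FK (t : ℕ) (f : ℕ → K) : K :=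
  if (Nat.unpair t).1 = 0 then nm K (Nat.unpair t).2
  else if (Nat.unpair t).1 = 1 then Structure.funMap (L := LA) AF.add ![f (d1 t), f (d2 t)]
  else if (Nat.unpair t).1 = 2 then Structure.funMap (L := LA) AF.mul ![f (d1 t), f (d2 t)]
  else if (Nat.unpair t).1 = 3 then
    bwit (Nat.unpair (d1 t)).1 (Nat.unpair (d1 t)).2
      (fun i => f ((lst (Nat.unpair (d2 t)).1).getD i 0)) (Nat.unpair (d2 t)).2
  else lwit (Nat.unpair (d1 t)).1 (Nat.unpair (d1 t)).2 (fun i => f ((lst (d2 t)).getD i 0))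

theorem FK_congr (t : ℕ) (f g : ℕ → K) (h : ∀ s < t, f s = g s) : FK t f = FK t g := by
  unfold FK
  split_ifs with h0 h1 h2 h3
  · rfl
  all_goals
    obtain ⟨c, hc⟩ : ∃ c, (Nat.unpair t).1 = c + 1 := ⟨(Nat.unpair t).1 - 1, by omega⟩
    have h4 : (Nat.unpair t).2 < t := by
      have := lt_pair_succ c (Nat.unpair t).2
      rw [← hc, Nat.pair_unpair] at this
      exact this
    have h5 := d1_le t
    have h6 := d2_le t
  · rw [h _ (by omega), h _ (by omega)]
  · rw [h _ (by omega), h _ (by omega)]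
  · have e : (fun i => f ((lst (Nat.unpair (d2 t)).1).getD i 0)) =
        fun i => g ((lst (Nat.unpair (d2 t)).1).getD i 0) := by
      funext i
      have := lst_getD_le (Nat.unpair (d2 t)).1 i
      have := Nat.unpair_left_le (d2 t)
      exact h _ (by omega)
    rw [e]
  · have e : (fun i => f ((lst (d2 t)).getD i 0)) = fun i => g ((lst (d2 t)).getD i 0) := by
      funext i
      have := lst_getD_le (d2 t) i
      exact h _ (by omega)
    rw [e]

theorem exists_naming (K : Type) [LA.Structure K] [Nonempty K] : ∃ h : ℕ → K,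
    (∀ r, h (nu r) = nm K r) ∧
    (∀ i j, h (sm i j) = Structure.funMap (L := LA) AF.add ![h i, h j]) ∧
    (∀ i j, h (ml i j) = Structure.funMap (L := LA) AF.mul ![h i, h j]) ∧
    (∀ n u a i, h (bw n u a i) = bwit n u (fun i => h (a.getD i 0)) i) ∧
    (∀ n u a, h (lw n u a) = lwit n u (fun i => h (a.getD i 0))) := by
  obtain ⟨h, hh⟩ := exists_rec (K := K) FK FK_congr (Classical.arbitrary K)
  refine ⟨h, fun r => ?_, fun i j => ?_, fun i j => ?_, fun n u a i => ?_, fun n u a => ?_⟩
  · rw [hh]; simp [FK, nu]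
  · rw [hh]; simp [FK, sm, d1, d2]
  · rw [hh]; simp [FK, ml, d1, d2]
  · rw [hh]; simp [FK, bw, d1, d2]
  · rw [hh]; simp [FK, lw, d1, d2]

open Classical in
/-- the bits given by a model and a naming function -/
noncomputable def BK (h : ℕ → K) (z : ℕ) : Bool :=
  if z % 2 = 0 then D h (z / 2) else
    decide (Ev (Nat.unpair (z / 2)).1 (Nat.unpair (Nat.unpair (z / 2)).2).1 K
      (fun i => h ((lst (Nat.unpair (Nat.unpair (z / 2)).2).2).getD i 0)))

theorem BK_ep (h : ℕ → K) (p : ℕ) : BK h (ep p) = D h p := by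
  unfold BK ep
  rw [if_pos (by omega), show 2 * p / 2 = p by omega]

theorem BK_hp (h : ℕ → K) (n u : ℕ) (a : List ℕ) :
    BK h (hp n u a) = true ↔ Ev n u K (fun i => h (a.getD i 0)) := by
  unfold BK hp
  rw [if_neg (by omega)]
  have e : (2 * Nat.pair n (Nat.pair u (encode a)) + 1) / 2 = Nat.pair n (Nat.pair u (encode a)) := by
    omega
  rw [e]
  simp

theorem BK_hp' (h : ℕ → K) (n u : ℕ) (a : List ℕ) :
    BK h (hp n u a) = false ↔ ¬ Ev n u K (fun i => h (a.getD i 0)) := by
  rw [← BK_hp]; simp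

theorem BK_fc (h : ℕ → K) (c i j l : ℕ) : BK h (ep (fc c i j l)) = true ↔ fact4 h c i j l := by
  rw [BK_ep, D_fc]

theorem BK_fc' (h : ℕ → K) (c i j l : ℕ) : BK h (ep (fc c i j l)) = false ↔ ¬ fact4 h c i j l := by
  rw [← BK_fc]; simp

theorem BK_eqp (h : ℕ → K) (i j : ℕ) : BK h (eqp i j) = true ↔ h i = h j := by
  rw [eqp, BK_fc]; simp [fact4]

theorem BK_eqp' (h : ℕ → K) (i j : ℕ) : BK h (eqp i j) = false ↔ ¬ h i = h j := by
  rw [← BK_eqp]; simp

omit [LA.Structure K] in
theorem getD_cons_cns (h : ℕ → K) (y : ℕ) (a : List ℕ) :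
    (fun i => h ((y :: a).getD i 0)) = cns (h y) (fun i => h (a.getD i 0)) := by
  funext i
  cases i with
  | zero => rfl
  | succ i => rfl

/-- codes of finitely many axioms -/
def IsAx (L : List (ℕ × ℕ)) : Prop := ∀ (M : Type) [LA.Structure M] (x : ℕ → M),
  (∀ q ∈ L, Ev q.1 q.2 M x) ↔ M ⊨ PAminus

/-- avoidance follows from a contradiction -/
theorem avoid_of {v : List (Bool × ℕ)} {B : ℕ → Bool} (h : (∀ q ∈ v, B q.2 = q.1) → False) :
    ∃ q ∈ v, B q.2 ≠ q.1 := by
  by_contra hc
  push Not at hc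
  exact h hc

theorem fact0 {M : Type} [LA.Structure M] (x : ℕ → M) (i j l : ℕ) :
    fact4 x 0 i j l ↔ Structure.funMap (L := LA) AF.add ![x i, x j] = x l := by simp [fact4]
theorem fact1 {M : Type} [LA.Structure M] (x : ℕ → M) (i j l : ℕ) :
    fact4 x 1 i j l ↔ Structure.funMap (L := LA) AF.mul ![x i, x j] = x l := by simp [fact4]
theorem fact2 {M : Type} [LA.Structure M] (x : ℕ → M) (i j l : ℕ) :
    fact4 x 2 i j l ↔ Structure.RelMap (L := LA) AR.lt ![x i, x j] := by simp [fact4]
theorem fact3 {M : Type} [LA.Structure M] (x : ℕ → M) (i j l : ℕ) :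
    fact4 x 3 i j l ↔ Structure.funMap (L := LA) AF.zero ![] = x i := by simp [fact4]
theorem fact4' {M : Type} [LA.Structure M] (x : ℕ → M) (i j l : ℕ) :
    fact4 x 4 i j l ↔ Structure.funMap (L := LA) AF.one ![] = x i := by simp [fact4]
theorem fact5 {M : Type} [LA.Structure M] (x : ℕ → M) (c i j l : ℕ) (hc : 4 < c) :
    fact4 x c i j l ↔ x i = x j := by
  unfold fact4
  simp [show c ≠ 0 by omega, show c ≠ 1 by omega, show c ≠ 2 by omega, show c ≠ 3 by omega,
    show c ≠ 4 by omega]

theorem BK_avoids [Nonempty K] (hK : PAc K) {L : List (ℕ × ℕ)} (hL : IsAx L) {h : ℕ → K}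
    (h1 : ∀ r, h (nu r) = nm K r)
    (h2 : ∀ i j, h (sm i j) = Structure.funMap (L := LA) AF.add ![h i, h j])
    (h3 : ∀ i j, h (ml i j) = Structure.funMap (L := LA) AF.mul ![h i, h j])
    (h4 : ∀ n u a i, h (bw n u a i) = bwit n u (fun i => h (a.getD i 0)) i)
    (h5 : ∀ n u a, h (lw n u a) = lwit n u (fun i => h (a.getD i 0))) :
    Avoids (Vall L) (BK h) := by
  have hone : nm K 1 = Structure.funMap (L := LA) AF.one ![] := by
    obtain ⟨i1, i2, i3, i4, hc⟩ := exists_alg K hK.1
    show Structure.funMap (L := LA) AF.add ![Structure.funMap (L := LA) AF.zero ![],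
      Structure.funMap (L := LA) AF.one (![] : Fin 0 → _)] = _
    rw [hc.add, hc.zero, zero_add]
  intro v hv
  refine avoid_of fun hA => ?_
  rcases hv with hv | hv | hv | hv | hv | hv
  · obtain ⟨x, hx⟩ := hv
    rcases hx with hx | hx | hx | hx | hx | hx | hx | hx | hx | hx | hx | hx | hx | hx | hx <;>
    subst hx <;>
    simp only [List.mem_cons, List.not_mem_nil, or_false, forall_eq_or_imp, forall_eq,
      BK_eqp, BK_eqp', BK_fc, BK_fc', h2, h3, fact0, fact1, fact2, fact3, fact4', h1] at hA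
    · exact hA trivial
    · exact hA.2 hA.1.symm
    · exact hA.2.2 (hA.1.trans hA.2.1)
    · exact hA.2 hA.1
    · exact hA.1 hA.2
    · exact hA.2.2 (by rw [hA.1, hA.2.1])
    · exact hA.2 hA.1
    · exact hA.1 hA.2
    · exact hA.2.2 (by rw [hA.1, hA.2.1])
    · exact hA.2 hA.1
    · exact hA.1 hA.2
    · exact hA.2 (hone.trans hA.1)
    · exact hA.1 (hone.symm.trans hA.2)
    · exact hA.2.2.2 (by rw [← hA.1, ← hA.2.1]; exact hA.2.2.1)
    · exact hA (by rw [hone]; rfl)
  · obtain ⟨⟨p, p'⟩, he, rfl⟩ := hv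
    simp only [List.mem_cons, List.not_mem_nil, or_false, forall_eq_or_imp, forall_eq, BK_ep] at hA
    obtain ⟨hA1, hA2⟩ := hA
    have hA2' : ¬ D h p' = true := by simp [hA2]
    rw [D_iff] at hA1 hA2'
    apply hA2'
    rcases he with ⟨e0, e0', e1, e2⟩ | ⟨e0, e0', e1⟩ | ⟨e0, e0', e1⟩ | ⟨e0, e0', e1, e2⟩
    · simp only at e0 e0' e1 e2
      rw [e0, fact2] at hA1
      rw [e0', fact2, ← e1, ← e2]; exact hA1
    · simp only at e0 e0' e1
      rw [e0, fact3] at hA1
      rw [e0', fact3, ← e1]; exact hA1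
    · simp only at e0 e0' e1
      rw [e0, fact4'] at hA1
      rw [e0', fact4', ← e1]; exact hA1
    · simp only at e0 e0' e1 e2
      rw [fact5 _ _ _ _ _ e0] at hA1
      rw [fact5 _ _ _ _ _ e0', ← e1, ← e2]; exact hA1
  · obtain ⟨⟨⟨u, s⟩, ⟨a, b⟩⟩, hx, hlen, hp1, hp2⟩ := hv
    simp only at hx hlen hp1 hp2
    have hb : BK h (hp 0 u a) = b := hA _ (List.mem_of_getElem? hp2)
    have hbits : ∀ p < u, rpbit s p = D (fun i => h (a.getD i 0)) p := by
      intro p hp
      have := hA _ (List.mem_of_getElem? (hp1 p hp))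
      simp only at this
      rw [← this, BK_ep, D_ren h (fun i => a.getD i 0) p]
      rfl
    have he : Ev0 u (rpbit s) ↔ Ev0 u (D fun i => h (a.getD i 0)) := Ev0_congr hbits
    have hev : BK h (hp 0 u a) = true ↔ Ev0 u (D fun i => h (a.getD i 0)) := BK_hp h 0 u a
    rw [← he, hb] at hev
    rcases hx with ⟨h6, h7⟩ | ⟨h6, h7⟩
    · exact h7 (hev.1 h6)
    · rw [h6] at hev
      exact absurd (hev.2 h7) (by simp)
  · obtain ⟨⟨⟨n, u⟩, ⟨a, a'⟩⟩, hx⟩ := hv
    rcases hx with ⟨hw, hx⟩ | ⟨hw, hx⟩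
    · simp only at hw hx
      subst hx
      simp only [List.mem_cons, List.not_mem_nil, or_false, forall_eq_or_imp, forall_eq] at hA
      obtain ⟨hA1, hA2⟩ := hA
      rw [BK_hp] at hA1 hA2
      have hex : ∃ x' : ℕ → K, (∀ i < (Nat.unpair u).1, x' i = h (a.getD i 0)) ∧
        ¬ Ev n (Nat.unpair u).2 K x' := hA1
      have hbw : bwit n u (fun i => h (a.getD i 0)) = hex.choose := by
        unfold bwit; rw [dif_pos hex]
      have hch := hex.choose_spec
      refine hch.2 ?_
      refine (Ev_supp n (Nat.unpair u).2 K _ _ fun i hi => ?_).1 hA2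
      by_cases hi2 : i < (Nat.unpair u).1
      · rw [hch.1 i hi2, hw.1 i hi2]
      · rw [hw.2 i hi (by omega), h4, hbw]
    · simp only at hw hx
      subst hx
      simp only [List.mem_cons, List.not_mem_nil, or_false, forall_eq_or_imp, forall_eq] at hA
      obtain ⟨hA1, hA2⟩ := hA
      rw [BK_hp'] at hA1 hA2
      refine hA1 ⟨fun i => h (a'.getD i 0), fun i hi => ?_, hA2⟩
      show h (a'.getD i 0) = h (a.getD i 0)
      rw [hw i hi]
  · obtain ⟨⟨⟨n, u⟩, ⟨y, a⟩⟩, hx⟩ := hv
    have hl := hK.2 n u (cns (h y) fun i => h (a.getD i 0))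
    have hupd : ∀ z : K, Function.update (cns (h y) fun i => h (a.getD i 0)) 0 z =
        cns z fun i => h (a.getD i 0) := by
      intro z
      funext i
      by_cases hi : i = 0
      · subst hi; simp [cns]
      · rw [Function.update_of_ne hi]; simp [cns, hi]
    unfold lnpP at hl
    simp only [hupd] at hl
    have hkey : Ev n u K (cns (h y) fun i => h (a.getD i 0)) →
        Ev n u K (cns (h (lw n u a)) fun i => h (a.getD i 0)) ∧
        ¬ Structure.RelMap (L := LA) AR.lt ![h y, h (lw n u a)] := by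
      intro hy
      have hex := hl ⟨_, hy⟩
      have hlw : h (lw n u a) = hex.choose := by
        rw [h5]; unfold lwit; rw [dif_pos hex]
      have hch := hex.choose_spec
      rw [hlw]
      exact ⟨hch.1, fun hc => hch.2 _ hc hy⟩
    rcases hx with hx | hx
    · simp only at hx
      subst hx
      simp only [List.mem_cons, List.not_mem_nil, or_false, forall_eq_or_imp, forall_eq] at hA
      obtain ⟨hA1, hA2⟩ := hA
      rw [BK_hp, getD_cons_cns] at hA1
      rw [BK_hp', getD_cons_cns] at hA2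
      exact hA2 (hkey hA1).1
    · simp only at hx
      subst hx
      simp only [List.mem_cons, List.not_mem_nil, or_false, forall_eq_or_imp, forall_eq] at hA
      obtain ⟨hA1, hA2⟩ := hA
      rw [BK_hp, getD_cons_cns] at hA1
      rw [BK_fc, fact2] at hA2
      exact (hkey hA1).2 hA2
  · obtain ⟨q, hq, rfl⟩ := hv
    simp only [List.mem_cons, List.not_mem_nil, or_false, forall_eq] at hA
    rw [BK_hp'] at hA
    exact hA ((hL K _).2 hK.1 q hq)

end

end Pool.Agent.H646R2.SV
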