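import Pool.Agent.H646R2.SV.Trans
import Pool.Agent.H646R2.SV.Chain

/-!
Sentences of the arithmetical hierarchy; injectivity of Gödel numbers; Peano arithmetic.
-/

set_option autoImplicit false
set_option linter.unusedVariables false
set_option linter.unusedSimpArgs false
set_option linter.unusedSectionVars false

open FirstOrder FirstOrder.Language Pool.Agent.Helper227.EN Pool.Agent.H646R2.SV.Defs

namespace Pool.Agent.H646R2.SV

theorem hier_rep {n : ℕ} {R : Pr} (h : Hier D0 n R) (N : ℕ) (g : ℕ → LS.Term (Empty ⊕ Fin N)) :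
    (∃ φ : LS.BoundedFormula Empty N, IsLevel true n φ ∧
      ∀ (M : Type) [LA.Structure M] [Nonempty M], M ⊨ PAminus → ∀ v : Fin N → M,
        (rl M φ v ↔ R M (fun i => tl M (g i) v))) ∧
    (∃ φ : LS.BoundedFormula Empty N, IsLevel false n φ ∧
      ∀ (M : Type) [LA.Structure M] [Nonempty M], M ⊨ PAminus → ∀ v : Fin N → M,
        (rl M φ v ↔ ¬ R M (fun i => tl M (g i) v))) := by
  induction n generalizing R N with
  | zero =>
    obtain ⟨φ, h1, h2⟩ := d0_rep h N g
    refine ⟨⟨φ, IsLevel.zero _ h1, h2⟩, φ.imp BoundedFormula.falsum,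
      IsLevel.zero _ (h1.imp IsBounded.falsum), fun M _ _ hM v => ?_⟩
    rw [rl_imp, h2 M hM]; exact Iff.rfl
  | succ n ih =>
    obtain ⟨Q, k, hQ, rfl⟩ := h
    obtain ⟨s, hs⟩ := Hier.supp D0.base hQ
    let g' : ℕ → LS.Term (Empty ⊕ Fin (N + s)) := fun i =>
      if i < k then liftN s (g i) else
        if h : i < s then Term.var (Sum.inr (Fin.natAdd N ⟨i, h⟩)) else
          Term.func (L := LS) AFun.zero ![]
    obtain ⟨⟨φ, hφ, hφ2⟩, ψ, hψ, hψ2⟩ := ih hQ (N + s) g'
    have key : ∀ (M : Type) [LA.Structure M] [Nonempty M] (v : Fin N → M),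
        (∃ x' : ℕ → M, (∀ i < k, x' i = tl M (g i) v) ∧ ¬ Q M x') ↔
        ∃ v' : Fin (N + s) → M, (∀ i : Fin N, v' (Fin.castAdd s i) = v i) ∧
          ¬ Q M (fun i => tl M (g' i) v') := by
      intro M _ _ v
      constructor
      · rintro ⟨x', h1, h2⟩
        refine ⟨Fin.append v (fun j : Fin s => x' j), fun i => Fin.append_left _ _ _, ?_⟩
        intro hc
        refine h2 ((hs M _ _ fun i hi => ?_).1 hc)
        show tl M (g' i) _ = x' i
        by_cases hk : i < k
        · simp only [g', hk, if_true]
          rw [tl_liftN, h1 i hk]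
          congr 1
          funext j
          exact Fin.append_left _ _ _
        · simp only [g', hk, if_false, hi, dif_pos]
          exact Fin.append_right v (fun j : Fin s => x' j) ⟨i, hi⟩
      · rintro ⟨v', h1, h2⟩
        refine ⟨fun i => tl M (g' i) v', fun i hi => ?_, h2⟩
        simp only [g', hi, if_true]
        rw [tl_liftN]
        congr 1
        funext j
        exact h1 j
    refine ⟨⟨exsF s ψ, exsF_level s ψ (IsLevel.flip (b := true) hψ), fun M _ _ hM v => ?_⟩,
      allsF s φ, allsF_level s φ (IsLevel.flip (b := false) hφ), fun M _ _ hM v => ?_⟩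
    · show rl M (exsF s ψ) v ↔ ∃ x' : ℕ → M, (∀ i < k, x' i = tl M (g i) v) ∧ ¬ Q M x'
      rw [key, rl_exsF]
      simp only [hψ2 M hM]
    · show rl M (allsF s φ) v ↔ ¬ ∃ x' : ℕ → M, (∀ i < k, x' i = tl M (g i) v) ∧ ¬ Q M x'
      rw [key, rl_allsF]
      simp only [hφ2 M hM]
      push Not
      rfl

/-- sentences of level `n` -/
theorem sent_rep {n : ℕ} {X : Sn} (h : Hier D0 n (fun M _ _ => X M)) :
    ∃ σ : LS.Sentence, IsLevel true n σ ∧ ∀ (M : Type) [LA.Structure M] [Nonempty M],
      M ⊨ PAminus → (@Sentence.Realize LS M (red M) σ ↔ X M) := by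
  obtain ⟨φ, h1, h2⟩ := (hier_rep h 0 (fun _ => Term.func (L := LS) AFun.zero ![])).1
  refine ⟨φ, h1, fun M _ _ hM => ?_⟩
  rw [← h2 M hM default]
  exact Iff.rfl

theorem vnum_inj (n : ℕ) : Function.Injective (vnum n) := by
  rintro (a | i) (b | j) h
  · exact a.elim
  · exact a.elim
  · exact b.elim
  · have : (i : ℕ) = j := h
    rw [Fin.ext this]

theorem fnum_inj : ∀ {n : ℕ} (φ ψ : LS.BoundedFormula Empty n), fnum φ = fnum ψ → φ = ψ := by
  intro n φ
  induction φ with
  | falsum =>
    intro ψ h
    cases ψ with
    | falsum => rfl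
    | equal s t => simp only [fnum] at h; omega
    | rel R ts => exact Empty.elim R
    | imp a b => simp only [fnum] at h; omega
    | all a => simp only [fnum] at h; omega
  | equal s t =>
    intro ψ h
    cases ψ with
    | falsum => simp only [fnum] at h; omega
    | equal s' t' =>
      simp only [fnum] at h
      have h1 := Nat.pair_eq_pair.1 (by omega : Nat.pair (tnum (vnum _) s) (tnum (vnum _) t) =
        Nat.pair (tnum (vnum _) s') (tnum (vnum _) t'))
      rw [tnum_inj (vnum_inj _) _ _ h1.1, tnum_inj (vnum_inj _) _ _ h1.2]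
    | rel R ts => exact Empty.elim R
    | imp a b => simp only [fnum] at h; omega
    | all a => simp only [fnum] at h; omega
  | rel R ts => exact Empty.elim R
  | imp a b iha ihb =>
    intro ψ h
    cases ψ with
    | falsum => simp only [fnum] at h; omega
    | equal s t => simp only [fnum] at h; omega
    | rel R ts => exact Empty.elim R
    | imp a' b' =>
      simp only [fnum] at h
      have h1 := Nat.pair_eq_pair.1 (by omega : Nat.pair (fnum a) (fnum b) =
        Nat.pair (fnum a') (fnum b'))
      rw [iha _ h1.1, ihb _ h1.2]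
    | all a => simp only [fnum] at h; omega
  | all a iha =>
    intro ψ h
    cases ψ with
    | falsum => simp only [fnum] at h; omega
    | equal s t => simp only [fnum] at h; omega
    | rel R ts => exact Empty.elim R
    | imp a b => simp only [fnum] at h; omega
    | all a' =>
      simp only [fnum] at h
      rw [iha a' (by omega)]

/-! ### Peano arithmetic -/

/-- translation of terms -/
def trT {α : Type} : LS.Term α → LA.Term α
  | .var a => .var a
  | .func AFun.zero _ => t0
  | .func AFun.succ ts => tadd (trT (ts 0)) t1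
  | .func AFun.add ts => tadd (trT (ts 0)) (trT (ts 1))
  | .func AFun.mul ts => tmul (trT (ts 0)) (trT (ts 1))

/-- translation of formulas -/
def trF {α : Type} : ∀ {n : ℕ}, LS.BoundedFormula α n → LA.BoundedFormula α n
  | _, .falsum => .falsum
  | _, .equal s t => .equal (trT s) (trT t)
  | _, .rel R _ => Empty.elim R
  | _, .imp φ ψ => .imp (trF φ) (trF ψ)
  | _, .all φ => .all (trF φ)

theorem trT_realize {M α : Type} [LA.Structure M] (t : LS.Term α) (v : α → M) :
    (trT t).realize v = @Term.realize LS M (red M) α v t := by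
  induction t with
  | var a => rfl
  | @func l F ts ih =>
    cases F with
    | zero => exact ea_t0 v
    | succ =>
      show (tadd (trT (ts 0)) t1).realize v = Structure.funMap (L := LA) AF.add
        ![@Term.realize LS M (red M) α v (ts 0), Structure.funMap (L := LA) AF.one (![] : Fin 0 → M)]
      rw [ea_tadd, ih 0, ea_t1]
    | add =>
      show (tadd (trT (ts 0)) (trT (ts 1))).realize v = Structure.funMap (L := LA) AF.add
        ![@Term.realize LS M (red M) α v (ts 0), @Term.realize LS M (red M) α v (ts 1)]
      rw [ea_tadd, ih 0, ih 1]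
    | mul =>
      show (tmul (trT (ts 0)) (trT (ts 1))).realize v = Structure.funMap (L := LA) AF.mul
        ![@Term.realize LS M (red M) α v (ts 0), @Term.realize LS M (red M) α v (ts 1)]
      rw [ea_tmul, ih 0, ih 1]

theorem trF_realize {M α : Type} [LA.Structure M] {n : ℕ} (φ : LS.BoundedFormula α n) (v : α → M)
    (xs : Fin n → M) :
    (trF φ).Realize v xs ↔ @BoundedFormula.Realize LS M (red M) α n φ v xs := by
  induction φ with
  | falsum => exact Iff.rfl
  | equal s t =>
    show (trT s).realize _ = (trT t).realize _ ↔ _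
    rw [trT_realize, trT_realize]
    exact Iff.rfl
  | rel R ts => exact Empty.elim R
  | imp a b iha ihb =>
    show ((trF a).Realize v xs → (trF b).Realize v xs) ↔ _
    rw [iha, ihb]
    exact Iff.rfl
  | all a ih =>
    show (∀ y, (trF a).Realize v (Fin.snoc xs y)) ↔ _
    simp only [ih]
    exact Iff.rfl

/-- a structure whose elements are coded by natural numbers is a model of Peano arithmetic in the
language `{0, S, +, ·}` -/
theorem isPA_gen (M : Type) [LA.Structure M] [Nonempty M] (e : M → ℕ) (he : Function.Injective e)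
    (h : PAc M) : @IsPA M (red M) := by
  obtain ⟨i1, i2, i3, i4, hc⟩ := exists_alg M h.1
  let _ : LS.Structure M := red M
  have hz : zeroS M = 0 := hc.zero
  have hs : ∀ x : M, succS x = x + 1 := fun x => sc_eq hc x
  have ha : ∀ x y : M, addS x y = x + y := fun x y => hc.add x y
  have hm : ∀ x y : M, mulS x y = x * y := fun x y => hc.mul x y
  refine ⟨?_, ?_, ?_, ?_, ?_, ?_, ?_⟩
  · intro x
    rw [hs, hz]
    exact ne_of_gt (lt_of_lt_of_le one_pos le_add_self)
  · intro x y hxy
    rw [hs, hs] at hxy
    exact add_right_cancel hxy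
  · intro x
    rw [ha, hz, add_zero]
  · intro x y
    rw [hs, ha, hs, ha, add_assoc]
  · intro x
    rw [hm, hz, mul_zero]
  · intro x y
    rw [hs, hm, ha, hm, mul_add, mul_one]
  · intro P hP h0 hS
    obtain ⟨φ, hφ⟩ := Set.definable_iff_exists_formula_sum.1 hP
    have hφ' : ∀ y : M, y ∈ P ↔ (trF φ).Realize (Sum.elim Subtype.val (fun _ => y)) default := by
      intro y
      rw [trF_realize]
      have h1 : (fun _ : Fin 1 => y) ∈ {x : Fin 1 → M | x 0 ∈ P} ↔
        (fun _ : Fin 1 => y) ∈ {v | φ.Realize (Sum.elim (↑) v)} := by rw [hφ]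
      exact h1
    let f : ((Set.univ : Set M) : Type) ⊕ Fin 1 → ℕ := Sum.elim (fun a => 2 * (e a + 1)) (fun _ => 0)
    have hf : Function.Injective f := by
      rintro (a | a) (b | b) hab
      · have h2 : 2 * (e a + 1) = 2 * (e b + 1) := hab
        have h3 : (a : M) = b := he (by omega)
        rw [Subtype.ext h3]
      · have h2 : 2 * (e a + 1) = 0 := hab
        omega
      · have h2 : 0 = 2 * (e b + 1) := hab
        omega
      · rw [Subsingleton.elim a b]
    have hfr : Fresh f := by
      intro N
      refine ⟨2 * N + 1, by omega, ?_⟩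
      rintro (a | a)
      · show 2 * (e a + 1) ≠ 2 * N + 1
        omega
      · show 0 ≠ 2 * N + 1
        omega
    have hR : HierU Clop (fun M _ x => ¬ (trF φ).Realize (fun a => x (f a))
        (fun i => x (Fin.elim0 i))) := (fml_hier (trF φ) f hfr Fin.elim0).not Clop.base
    let x0 : ℕ → M := Function.extend f (Sum.elim Subtype.val (fun _ => Classical.arbitrary M))
      (fun _ => Classical.arbitrary M)
    have hx0 : ∀ y : M, (fun a => Function.update x0 0 y (f a)) =
        Sum.elim Subtype.val (fun _ => y) := by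
      intro y
      funext a
      rcases a with a | a
      · have h2 : f (Sum.inl a) ≠ 0 := by show 2 * (e a + 1) ≠ 0; omega
        rw [Function.update_of_ne h2]
        exact hf.extend_apply _ _ _
      · have h2 : f (Sum.inr a) = 0 := rfl
        rw [h2, Function.update_self]
        rfl
    have hl := h.lnp hR x0
    unfold lnpP at hl
    simp only [hx0] at hl
    have e0 : ∀ z : ℕ → M, (fun i : Fin 0 => z (Fin.elim0 i)) = default := fun z =>
      Subsingleton.elim _ _
    simp only [e0, ← hφ'] at hl
    by_contra hcon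
    push Not at hcon
    obtain ⟨y, hy, hmin⟩ := hl hcon
    have hy1 : 1 ≤ y := by
      by_contra h'
      have h4 := hc.disc y (not_le.mp h')
      rw [h4, ← hz] at hy
      exact hy h0
    obtain ⟨z, hz'⟩ := exists_add_of_le hy1
    have hzy : z < y := by
      rw [hz']; exact lt_add_of_pos_left _ one_pos
    have h5 : z ∈ P := by
      by_contra hzP
      exact hmin z ((hc.lt z y).2 hzy) hzP
    have h6 := hS z h5
    rw [hs, add_comm, ← hz'] at h6
    exact hy h6

/-- the structure is a model of Peano arithmetic in the language `{0, S, +, ·}` -/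
theorem isPA_red (A : LA.Structure ℕ) (h : @PAc ℕ A) : @IsPA ℕ (@red ℕ A) :=
  @isPA_gen ℕ A _ id Function.injective_id h

end Pool.Agent.H646R2.SV
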