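import Pool.Agent.H646R2.SV.Main1
import Pool.Agent.H646R2.SV.Trans2

/-!
The starting condition, and the final theorem.
-/

set_option autoImplicit false
set_option linter.unusedVariables false
set_option linter.unusedSimpArgs false
set_option linter.unusedSectionVars false

open FirstOrder FirstOrder.Language Pool.Agent.Helper227.EN Pool.Agent.H646R2.SV.Defs

namespace Pool.Agent.H646R2.SV

theorem is_nm_hier (j i : ℕ) : Hier Clop 1 (fun M _ x => x i = nm M j) := by
  induction j generalizing i with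
  | zero =>
    have h0 : Hier Clop 0 (fun M _ x => fact4 x 3 i 0 0) :=
      ⟨fc 3 i 0 0 + 1, fun a => a (fc 3 i 0 0) = true, fun a b h => by
        show a (fc 3 i 0 0) = true ↔ b (fc 3 i 0 0) = true
        rw [h _ (Nat.lt_succ_self _)], pr_ext fun M _ x => (D_fc x 3 i 0 0).symm⟩
    refine (Hier.lift Clop.base h0).congr fun M _ x => ?_
    simp only [fact4]
    exact eq_comm
  | succ j ih =>
    have h1 : ∀ K, Hier Clop 1 (fun M _ x => fact4 x 4 K 0 0) := by
      intro K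
      have h0 : Hier Clop 0 (fun M _ x => fact4 x 4 K 0 0) :=
        ⟨fc 4 K 0 0 + 1, fun a => a (fc 4 K 0 0) = true, fun a b h => by
          show a (fc 4 K 0 0) = true ↔ b (fc 4 K 0 0) = true
          rw [h _ (Nat.lt_succ_self _)], pr_ext fun M _ x => (D_fc x 4 K 0 0).symm⟩
      exact Hier.lift Clop.base h0
    have h2 : ∀ K K' K'', Hier Clop 1 (fun M _ x => fact4 x 0 K K' K'') := by
      intro K K' K''
      have h0 : Hier Clop 0 (fun M _ x => fact4 x 0 K K' K'') :=
        ⟨fc 0 K K' K'' + 1, fun a => a (fc 0 K K' K'') = true, fun a b h => by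
          show a (fc 0 K K' K'') = true ↔ b (fc 0 K K' K'') = true
          rw [h _ (Nat.lt_succ_self _)], pr_ext fun M _ x => (D_fc x 0 K K' K'').symm⟩
      exact Hier.lift Clop.base h0
    have h3 : Hier Clop 1 (fun M _ x => ∃ y, ∃ o, y = nm M j ∧
        (Structure.funMap (L := LA) AF.one (![] : Fin 0 → M) = o ∧
          Structure.funMap (L := LA) AF.add ![y, o] = x i)) := by
      refine Hier.ex Clop.base (fun M _ x y => ∃ o, y = nm M j ∧
        (Structure.funMap (L := LA) AF.one (![] : Fin 0 → M) = o ∧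
          Structure.funMap (L := LA) AF.add ![y, o] = x i)) (i + 1) ?_ ?_
      · intro M _ x y v
        rw [Function.update_of_ne (by omega)]
      refine Hier.ex Clop.base (fun M _ x o => x (i + 1) = nm M j ∧
        (Structure.funMap (L := LA) AF.one (![] : Fin 0 → M) = o ∧
          Structure.funMap (L := LA) AF.add ![x (i + 1), o] = x i)) (i + 2) ?_ ?_
      · intro M _ x y v
        rw [Function.update_of_ne (by omega), Function.update_of_ne (by omega)]
      refine Hier.and Clop.base (ih (i + 1)) (Hier.and Clop.base ?_ ?_)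
      · exact (h1 (i + 2)).congr fun M _ x => by simp [fact4]
      · exact (h2 (i + 1) (i + 2) i).congr fun M _ x => by simp [fact4]
    refine h3.congr fun M _ x => ?_
    constructor
    · rintro ⟨y, o, rfl, rfl, h⟩
      exact h.symm
    · intro h
      exact ⟨_, _, rfl, rfl, h.symm⟩

/-- the standard model -/
theorem std_ax : @Theory.Model LA ℕ stdStr PAminus := by
  let _ : LA.Structure ℕ := stdStr
  have e0 : (Structure.funMap (L := LA) AF.zero (![] : Fin 0 → ℕ)) = 0 := rfl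
  have e1 : (Structure.funMap (L := LA) AF.one (![] : Fin 0 → ℕ)) = 1 := rfl
  have e2 : ∀ x y : ℕ, Structure.funMap (L := LA) AF.add ![x, y] = x + y := fun _ _ => rfl
  have e3 : ∀ x y : ℕ, Structure.funMap (L := LA) AF.mul ![x, y] = x * y := fun _ _ => rfl
  have e4 : ∀ x y : ℕ, Structure.RelMap (L := LA) AR.lt ![x, y] ↔ x < y := fun _ _ => Iff.rfl
  simp only [PAminus, axAddAssoc, axAddComm, axMulAssoc, axMulComm, axDistrib, axAddZero, axMulZero,
    axMulOne, axLtTrans, axLtIrrefl, axLtTotal, axAddLt, axMulLt, axDiff, axZeroLtOne, axDiscrete,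
    axNonneg, Theory.model_iff, Set.mem_insert_iff, Set.mem_singleton_iff,
    forall_eq_or_imp, forall_eq, Sentence.Realize, Formula.Realize, BoundedFormula.realize_all,
    BoundedFormula.realize_bdEqual, BoundedFormula.realize_imp, BoundedFormula.realize_not,
    BoundedFormula.realize_sup, BoundedFormula.realize_ex, ea_t0, ea_t1, ea_tadd, ea_tmul, ea_flt,
    Term.realize_var, Sum.elim_inr, e0, e1, e2, e3, e4]
  refine ⟨?_, ?_, ?_, ?_, ?_, ?_, ?_, ?_, ?_, ?_, ?_, ?_, ?_, ?_, ?_, ?_, ?_⟩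
  · exact Nat.add_assoc
  · exact Nat.add_comm
  · exact Nat.mul_assoc
  · exact Nat.mul_comm
  · exact Nat.mul_add
  · exact Nat.add_zero
  · exact Nat.mul_zero
  · exact Nat.mul_one
  · exact fun x y z h h' => Nat.lt_trans h h'
  · exact Nat.lt_irrefl
  · exact Nat.lt_trichotomy
  · exact fun x y z h => Nat.add_lt_add_right h z
  · exact fun x y z h h' => Nat.mul_lt_mul_of_pos_right h' h
  · exact fun x y h => ⟨y - x, Nat.add_sub_cancel' (le_of_lt h)⟩
  · exact Nat.one_pos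
  · intro x h
    have h' : 0 < x := h
    show 1 < x ∨ 1 = x
    omega
  · intro x
    show 0 < x ∨ 0 = x
    omega

theorem std_pac : @PAc ℕ stdStr := by
  let _ : LA.Structure ℕ := stdStr
  refine ⟨std_ax, fun n u x => ?_⟩
  intro h
  classical
  refine ⟨Nat.find h, Nat.find_spec h, fun z hz => Nat.find_min h hz⟩

theorem start : ∃ p0 : Cd, p0.k = 1 ∧ ∀ j, ¬ (p0.b 0 = nm p0.M j) := by
  let _ : LA.Structure ℕ := stdStr
  have hN : ∀ t : ℕ, PAc ((fun _ => ℕ : ℕ → Type) t) := fun t => std_pac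
  refine ⟨⟨UPr (fun _ => ℕ), PAc.up hN, ups (K := fun _ => ℕ) (fun t _ => t), 1, ?_⟩, rfl, ?_⟩
  · intro i hi j hj _
    omega
  · intro j hj
    have h1 := up_hier (is_nm_hier j 0) (K := fun _ => ℕ) (fun t _ => t)
    have h2 := h1.1 hj
    have hnm : ∀ r, nm ℕ r = r := by
      intro r
      induction r with
      | zero => rfl
      | succ r ih => show nm ℕ r + 1 = r + 1; rw [ih]
    obtain ⟨t, ht, ht2⟩ := (h2.and (uf_ge (j + 1))).exists
    have ht' : t = j := ht.trans (hnm j)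
    omega

/-- the class of formal statements -/
def Sg (k : ℕ) (X : Sn) (g : ℕ) : Prop := ∃ σ : LS.Sentence, IsLevel true k σ ∧ fnum σ = g ∧
  ∀ (M : Type) [LA.Structure M] [Nonempty M], M ⊨ PAminus →
    (@Sentence.Realize LS M (red M) σ ↔ X M)

theorem chainHyp : ChainHyp Sg := by
  intro p n
  obtain ⟨m, hm, X0, X1, h0, h1, h⟩ := chain p n
  obtain ⟨σ0, hs0, hr0⟩ := sent_rep h0
  obtain ⟨σ1, hs1, hr1⟩ := sent_rep h1
  exact ⟨m, hm, X0, X1, fnum σ0, fnum σ1, hier_D0_hierU h0, hier_D0_hierU h1,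
    ⟨σ0, hs0, rfl, hr0⟩, ⟨σ1, hs1, rfl, hr1⟩, h⟩

theorem phi_fun {X : Set ℕ} {e x y z : ℕ} (h : Phi X e x y) (h' : Phi X e x z) : y = z := by
  obtain ⟨c, hc, hy⟩ := h
  obtain ⟨d, hd, hz⟩ := h'
  rw [← num_inj c d (hc.trans hd.symm)] at hz
  exact Part.mem_unique hy hz

theorem phi_index_mem {X Y : Set ℕ} {e g : ℕ} (h : IsIndex X e Y) (hg : g ∈ Y) : Phi X e g 1 := by
  obtain ⟨c, hc, he⟩ := h
  refine ⟨c, hc, ?_⟩
  rw [he]
  simp [chi, hg]

theorem phi_index_not {X Y : Set ℕ} {e g : ℕ} (h : IsIndex X e Y) (hg : g ∉ Y) : Phi X e g 0 := by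
  obtain ⟨c, hc, he⟩ := h
  refine ⟨c, hc, ?_⟩
  rw [he]
  simp [chi, hg]

theorem exists_change {t : ℕ → ℕ} {a b : ℕ} (hab : a ≤ b) (h : t a ≠ t b) :
    ∃ i, a ≤ i ∧ i < b ∧ t (i + 1) ≠ t i := by
  induction b, hab using Nat.le_induction with
  | base => exact absurd rfl h
  | succ b hab ih =>
    by_cases hb : t a = t b
    · exact ⟨b, hab, Nat.lt_succ_self _, fun hc => h (hb.trans hc.symm)⟩
    · obtain ⟨i, h1, h2, h3⟩ := ih hb
      exact ⟨i, h1, by omega, h3⟩

theorem sg_mem {A : LA.Structure ℕ} (hA : @PAc ℕ A) {k : ℕ} {X : Sn} {g : ℕ} (h : Sg k X g) :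
    g ∈ Th (@red ℕ A) ∩ SigmaN k ↔ @X ℕ A := by
  obtain ⟨σ, h1, h2, h3⟩ := h
  rw [← @h3 ℕ A _ hA.1]
  constructor
  · rintro ⟨⟨σ', h4, h5⟩, -⟩
    rw [fnum_inj σ' σ (h5.trans h2.symm)] at h4
    exact h4
  · intro h
    exact ⟨⟨σ, h, h2⟩, σ, h1, h2⟩

theorem final : ∃ A : LS.Structure ℕ, @IsPA ℕ A ∧ @Nonstandard ℕ A ∧
    ¬ ∃ t : ℕ → ℕ → ℕ, IsSolovayFamily (Th A) (Defs.diag A) t ∧ ∀ n ≥ 1, ChangesOnce (t n) := by
  obtain ⟨p0, hk, hns⟩ := start
  obtain ⟨A, hA, hpres, hmain⟩ := main_structure chainHyp p0 1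
  refine ⟨@red ℕ A, isPA_red A hA, ⟨0, fun n hn => ?_⟩, ?_⟩
  · -- nonstandard
    have h1 := hpres (fun M _ x => x 0 = nm M n) (is_nm_hier n 0)
      (by rw [hk]; exact fun M _ x y h => by show x 0 = _ ↔ y 0 = _; rw [h 0 Nat.one_pos])
    refine hns n (h1.1 ?_)
    show (0 : ℕ) = @nm ℕ A n
    rw [hn]
    clear hn h1
    induction n with
    | zero => rfl
    | succ n ih =>
      rw [Function.iterate_succ_apply', ih]
      rfl
  · rintro ⟨t, ht, hch⟩
    obtain ⟨e, he⟩ := ht.computable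
    obtain ⟨m, X0, X1, g0, g1, hs0, hs1, hcases⟩ := hmain e
    rw [← SA_eq A] at ht he
    have hn : m + 1 ≥ 1 := by omega
    obtain ⟨l, hl, hidx⟩ := ht.limit (m + 1) hn
    obtain ⟨N, hN⟩ := Filter.eventually_atTop.1 hl
    have he' : ∀ s, Phi (Defs.jumps (SA (@D ℕ A id)) m) e (Nat.pair (m + 1) s) (t (m + 1) s) :=
      fun s => he (m + 1) hn s
    rw [← sg_mem hA hs0, ← sg_mem hA hs1] at hcases
    rcases hcases with ⟨h0, h1⟩ | ⟨h0, h1, h2, h3⟩ | ⟨h0, h1⟩
    · refine h1 ⟨N, l, ?_, phi_index_not hidx h0⟩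
      have := he' N
      rwa [hN N le_rfl] at this
    · obtain ⟨s, c, hc, hc0⟩ := h2
      refine h3 ⟨s, c, max N (s + 1), l, ⟨by omega, hc, hc0⟩, ?_, phi_index_mem hidx h0,
        phi_index_not hidx h1⟩
      have := he' (max N (s + 1))
      rwa [hN _ (le_max_left _ _)] at this
    · obtain ⟨s, c, s', c', ⟨hss, hc, hc0⟩, hc', hc'0, hc'1⟩ := h1
      have e1 : c = t (m + 1) s := phi_fun hc (he' s)
      have e2 : c' = t (m + 1) s' := phi_fun hc' (he' s')
      have e3 : t (m + 1) s ≠ t (m + 1) s' := by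
        rw [← e1, ← e2]
        rintro rfl
        exact absurd (phi_fun hc0 hc'0) (by omega)
      have e4 : t (m + 1) s' ≠ t (m + 1) (max N s') := by
        rw [hN _ (le_max_left _ _), ← e2]
        rintro rfl
        exact absurd (phi_fun hc'1 (phi_index_mem hidx h0)) (by omega)
      obtain ⟨i, hi1, hi2, hi3⟩ := exists_change hss.le e3
      obtain ⟨j, hj1, hj2, hj3⟩ := exists_change (le_max_right _ _) e4
      have := hch (m + 1) hn i j hi3 hj3
      omega

end Pool.Agent.H646R2.SV
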