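import Pool.Agent.H646R2.SV.Clop

/-!
Every first-order formula belongs to some level of the hierarchy over the clopen predicates.
-/

set_option autoImplicit false
set_option linter.unusedVariables false

open FirstOrder FirstOrder.Language Pool.Agent.Helper227.EN

namespace Pool.Agent.H646R2.SV

theorem fact_hier (c i j l : ℕ) : HierU Clop (fun M _ x => fact4 x c i j l) := by
  refine ⟨0, fc c i j l + 1, fun a => a (fc c i j l) = true, fun a b h => ?_, ?_⟩
  · show a (fc c i j l) = true ↔ b (fc c i j l) = true
    rw [h _ (Nat.lt_succ_self _)]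
  · exact pr_ext fun M _ x => (D_fc x c i j l).symm

/-- infinitely many variables are not in the range of `f` -/
def Fresh {β : Type} (f : β → ℕ) : Prop := ∀ N, ∃ K, N ≤ K ∧ ∀ b, f b ≠ K

theorem Fresh.sum {β : Type} {n : ℕ} {f : β → ℕ} (hf : Fresh f) (g : Fin n → ℕ) :
    Fresh (Sum.elim f g) := by
  intro N
  obtain ⟨K, hK, hK2⟩ := hf (N + ∑ i, (g i + 1))
  refine ⟨K, by omega, ?_⟩
  rintro (b | i)
  · exact hK2 b
  · simp only [Sum.elim_inr]
    have := Finset.single_le_sum (f := fun i => g i + 1) (fun _ _ => Nat.zero_le _)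
      (Finset.mem_univ i)
    omega

theorem upd_comp {M β : Type} (x : ℕ → M) (f : β → ℕ) (K : ℕ) (hK : ∀ b, f b ≠ K) (v : M) :
    (fun b => Function.update x K v (f b)) = fun b => x (f b) := by
  funext b
  rw [Function.update_of_ne (hK b)]

/-- two fresh existential quantifiers -/
theorem ex_two {β : Type} {f : β → ℕ} (hf : Fresh f) (K : ℕ)
    (T1 T2 : ∀ (M : Type) [LA.Structure M], (β → M) → M)
    (h1 : ∀ K, HierU Clop (fun M _ x => T1 M (fun b => x (f b)) = x K))
    (h2 : ∀ K, HierU Clop (fun M _ x => T2 M (fun b => x (f b)) = x K))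
    (R : ∀ (M : Type) [LA.Structure M], M → M → M → Prop)
    (hR : ∀ K1 K2, HierU Clop (fun M _ x => R M (x K1) (x K2) (x K))) :
    HierU Clop (fun M _ x => R M (T1 M (fun b => x (f b))) (T2 M (fun b => x (f b))) (x K)) := by
  obtain ⟨K1, hK1, hK1'⟩ := hf (K + 1)
  obtain ⟨K2, hK2, hK2'⟩ := hf (K1 + 1)
  have e : HierU Clop (fun M _ x => ∃ y1 y2, T1 M (fun b => x (f b)) = y1 ∧
      (T2 M (fun b => x (f b)) = y2 ∧ R M y1 y2 (x K))) := by
    refine HierU.ex Clop.base (fun M _ x y1 => ∃ y2, T1 M (fun b => x (f b)) = y1 ∧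
      (T2 M (fun b => x (f b)) = y2 ∧ R M y1 y2 (x K))) K1 ?_ ?_
    · intro M _ x y v
      rw [upd_comp x f K1 hK1' v, Function.update_of_ne (by omega)]
    · refine HierU.ex Clop.base (fun M _ x y2 => T1 M (fun b => x (f b)) = x K1 ∧
        (T2 M (fun b => x (f b)) = y2 ∧ R M (x K1) y2 (x K))) K2 ?_ ?_
      · intro M _ x y v
        rw [upd_comp x f K2 hK2' v, Function.update_of_ne (by omega),
          Function.update_of_ne (by omega)]
      · exact (h1 K1).and Clop.base ((h2 K2).and Clop.base (hR K1 K2))
  refine e.congr fun M _ x => ?_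
  constructor
  · rintro ⟨y1, y2, h1, h2, h3⟩
    rw [h1, h2]; exact h3
  · intro h
    exact ⟨_, _, rfl, rfl, h⟩

theorem term_hier {β : Type} (t : LA.Term β) (f : β → ℕ) (hf : Fresh f) (K : ℕ) :
    HierU Clop (fun M _ x => t.realize (fun b => x (f b)) = x K) := by
  induction t generalizing K with
  | var b =>
    refine (fact_hier 5 (f b) K 0).congr fun M _ x => ?_
    simp [fact4]
  | @func l F ts ih =>
    cases F with
    | zero =>
      refine (fact_hier 3 K 0 0).congr fun M _ x => ?_
      show fact4 x 3 K 0 0 ↔ Structure.funMap (L := LA) AF.zero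
        (fun i => (ts i).realize fun b => x (f b)) = x K
      rw [Subsingleton.elim (fun i => (ts i).realize fun b => x (f b)) (![] : Fin 0 → M)]
      simp [fact4]
    | one =>
      refine (fact_hier 4 K 0 0).congr fun M _ x => ?_
      show fact4 x 4 K 0 0 ↔ Structure.funMap (L := LA) AF.one
        (fun i => (ts i).realize fun b => x (f b)) = x K
      rw [Subsingleton.elim (fun i => (ts i).realize fun b => x (f b)) (![] : Fin 0 → M)]
      simp [fact4]
    | add =>
      refine (ex_two hf K (fun M _ v => (ts 0).realize v) (fun M _ v => (ts 1).realize v)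
        (ih 0) (ih 1) (fun M _ a b c => Structure.funMap (L := LA) AF.add ![a, b] = c)
        (fun K1 K2 => (fact_hier 0 K1 K2 K).congr fun M _ x => by simp [fact4])).congr
        fun M _ x => ?_
      show _ ↔ Structure.funMap (L := LA) AF.add
        (fun i => (ts i).realize fun b => x (f b)) = x K
      rw [show (fun i => (ts i).realize fun b => x (f b)) =
        ![(ts 0).realize fun b => x (f b), (ts 1).realize fun b => x (f b)] by
          funext i; fin_cases i <;> rfl]
    | mul =>
      refine (ex_two hf K (fun M _ v => (ts 0).realize v) (fun M _ v => (ts 1).realize v)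
        (ih 0) (ih 1) (fun M _ a b c => Structure.funMap (L := LA) AF.mul ![a, b] = c)
        (fun K1 K2 => (fact_hier 1 K1 K2 K).congr fun M _ x => by simp [fact4])).congr
        fun M _ x => ?_
      show _ ↔ Structure.funMap (L := LA) AF.mul
        (fun i => (ts i).realize fun b => x (f b)) = x K
      rw [show (fun i => (ts i).realize fun b => x (f b)) =
        ![(ts 0).realize fun b => x (f b), (ts 1).realize fun b => x (f b)] by
          funext i; fin_cases i <;> rfl]

theorem elim_comp {M α : Type} {n : ℕ} (x : ℕ → M) (f : α → ℕ) (g : Fin n → ℕ) :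
    (Sum.elim (fun a => x (f a)) (fun i => x (g i)) : α ⊕ Fin n → M) =
      fun b => x (Sum.elim f g b) := by
  funext b
  cases b <;> rfl

theorem fml_hier {α : Type} {n : ℕ} (φ : LA.BoundedFormula α n) (f : α → ℕ) (hf : Fresh f)
    (g : Fin n → ℕ) :
    HierU Clop (fun M _ x => φ.Realize (fun a => x (f a)) (fun i => x (g i))) := by
  induction φ with
  | falsum =>
    refine ((fact_hier 5 0 0 0).not Clop.base).congr fun M _ x => ?_
    simp [fact4, BoundedFormula.Realize]
  | equal t1 t2 =>
    have hfg := hf.sum g
    refine (ex_two hfg 0 (fun M _ v => t1.realize v) (fun M _ v => t2.realize v)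
      (term_hier t1 _ hfg) (term_hier t2 _ hfg) (fun _ _ a b _ => a = b)
      (fun K1 K2 => (fact_hier 5 K1 K2 0).congr fun M _ x => by simp [fact4])).congr
      fun M _ x => ?_
    simp only [BoundedFormula.Realize, elim_comp]
  | rel R ts =>
    have hfg := hf.sum g
    cases R with
    | lt =>
      refine (ex_two hfg 0 (fun M _ v => (ts 0).realize v) (fun M _ v => (ts 1).realize v)
        (term_hier (ts 0) _ hfg) (term_hier (ts 1) _ hfg)
        (fun M _ a b c => Structure.RelMap (L := LA) AR.lt ![a, b])
        (fun K1 K2 => (fact_hier 2 K1 K2 0).congr fun M _ x => by simp [fact4])).congr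
        fun M _ x => ?_
      simp only [BoundedFormula.Realize, elim_comp]
      rw [show (fun i => (ts i).realize fun b => x (Sum.elim f g b)) =
        ![(ts 0).realize fun b => x (Sum.elim f g b), (ts 1).realize fun b => x (Sum.elim f g b)] by
          funext i; fin_cases i <;> rfl]
  | imp φ ψ ih1 ih2 =>
    refine (((ih1 g).not Clop.base).or Clop.base (ih2 g)).congr fun M _ x => ?_
    simp only [BoundedFormula.realize_imp]
    tauto
  | all φ ih =>
    obtain ⟨K, -, hK⟩ := hf.sum g 0
    have hKf : ∀ a, f a ≠ K := fun a => hK (Sum.inl a)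
    have hKg : ∀ i, g i ≠ K := fun i => hK (Sum.inr i)
    have h1 := ((((ih (Fin.snoc g K)).not Clop.base).exv Clop.base K).not Clop.base)
    refine h1.congr fun M _ x => ?_
    simp only [BoundedFormula.realize_all, not_exists, not_not]
    refine forall_congr' fun y => ?_
    rw [upd_comp x f K hKf y]
    have e : (fun i => Function.update x K y (Fin.snoc (α := fun _ => ℕ) g K i)) =
        (Fin.snoc (fun i => x (g i)) y : Fin (_ + 1) → M) := by
      funext i
      refine Fin.lastCases ?_ (fun i => ?_) i
      · simp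
      · simp only [Fin.snoc_castSucc]
        rw [Function.update_of_ne (hKg i)]
    rw [e]

/-- every formula with free variables in `ℕ` -/
theorem formula_hier (φ : LA.Formula ℕ) : HierU Clop (fun M _ x => φ.Realize x) := by
  have h := fml_hier φ (fun i => 2 * i)
    (fun N => ⟨2 * N + 1, by omega, fun b => by show 2 * b ≠ _; omega⟩)
    Fin.elim0
  refine (h.ren Clop.base (fun i => i / 2)).congr fun M _ x => ?_
  have e1 : (fun a : ℕ => x (2 * a / 2)) = x := by
    funext a
    congr 1
    omega
  rw [e1]
  rw [Formula.Realize, Subsingleton.elim (fun i : Fin 0 => x (Fin.elim0 i / 2)) default]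

theorem bounded_hier {n : ℕ} (φ : LA.BoundedFormula Empty n) (g : Fin n → ℕ) :
    HierU Clop (fun M _ x => φ.Realize default (fun i => x (g i))) := by
  refine (fml_hier φ (fun e => e.elim) (fun N => ⟨N, le_refl _, fun b => b.elim⟩) g).congr
    fun M _ x => ?_
  rw [Subsingleton.elim (fun a : Empty => x a.elim) default]

theorem sentence_hier (φ : LA.Sentence) : HierU Clop (fun M _ _ => M ⊨ φ) := by
  refine (bounded_hier φ Fin.elim0).congr fun M _ x => ?_
  rw [Sentence.Realize, Formula.Realize, Subsingleton.elim (fun i : Fin 0 => x (Fin.elim0 i)) default]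

end Pool.Agent.H646R2.SV
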