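import Pool.Agent.H646R2.SV.PAc

/-!
Forcing with enumerations of models.
-/

set_option autoImplicit false
set_option linter.unusedVariables false

open FirstOrder FirstOrder.Language Pool.Agent.Helper227.EN

namespace Pool.Agent.H646R2.SV

/-! ### Agreement and amalgamation -/

/-- Agreement at level `n` about the first `k` entries. -/
def Ag (n k : ℕ) {M M' : Type} [LA.Structure M] [LA.Structure M'] (x : ℕ → M) (x' : ℕ → M') : Prop :=
  ∀ R : Pr, Hier Clop n R → Supp k R → (R M x ↔ R M' x')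

/-- Agreement at all levels about the first `k` entries. -/
def AgU (k : ℕ) {M M' : Type} [LA.Structure M] [LA.Structure M'] (x : ℕ → M) (x' : ℕ → M') : Prop :=
  ∀ n, Ag n k x x'

section
variable {M M' M'' : Type} [LA.Structure M] [LA.Structure M'] [LA.Structure M'']

theorem Ag.mono {n m k l : ℕ} {x : ℕ → M} {x' : ℕ → M'} (h : Ag n k x x') (hm : m ≤ n)
    (hl : l ≤ k) : Ag m l x x' :=
  fun R hR hs => h R (Hier.mono Clop.base hR hm) (hs.mono hl)

theorem Ag.trans {n k : ℕ} {x : ℕ → M} {x' : ℕ → M'} {x'' : ℕ → M''} (h : Ag n k x x')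
    (h' : Ag n k x' x'') : Ag n k x x'' :=
  fun R hR hs => (h R hR hs).trans (h' R hR hs)

theorem Ag.symm {n k : ℕ} {x : ℕ → M} {x' : ℕ → M'} (h : Ag n k x x') : Ag n k x' x :=
  fun R hR hs => (h R hR hs).symm

theorem Ag.refl (n k : ℕ) (x : ℕ → M) : Ag n k x x := fun R hR hs => Iff.rfl

theorem AgU.trans {k : ℕ} {x : ℕ → M} {x' : ℕ → M'} {x'' : ℕ → M''} (h : AgU k x x')
    (h' : AgU k x' x'') : AgU k x x'' := fun n => (h n).trans (h' n)

theorem AgU.symm {k : ℕ} {x : ℕ → M} {x' : ℕ → M'} (h : AgU k x x') : AgU k x' x :=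
  fun n => (h n).symm

theorem AgU.mono {k l : ℕ} {x : ℕ → M} {x' : ℕ → M'} (h : AgU k x x') (hl : l ≤ k) : AgU l x x' :=
  fun n => (h n).mono le_rfl hl

theorem AgU.of_eq {k : ℕ} {x y : ℕ → M} (h : ∀ i < k, x i = y i) : AgU k x y :=
  fun n R hR hs => hs M x y h

theorem AgU.refl (k : ℕ) (x : ℕ → M) : AgU k x x := fun n => Ag.refl n k x

end

/-- The truth values of the first `t` codes of level `n` are as prescribed. -/
def dia (n : ℕ) (s : ℕ → Prop) (t : ℕ) : Pr := fun M _ x => ∀ u < t, (Ev n u M x ↔ s u)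

theorem dia_hier (n : ℕ) (s : ℕ → Prop) (t : ℕ) : Hier Clop (n + 1) (dia n s t) := by
  induction t with
  | zero =>
    have h : Hier Clop (n + 1) (fun M _ x => Ev n 0 M x ∨ ¬ Ev n 0 M x) :=
      Hier.or Clop.base (Hier.lift Clop.base (Ev_hier n 0)) (Hier.neg Clop.base (Ev_hier n 0))
    refine h.congr fun M _ x => ?_
    simp only [dia, not_lt_zero, IsEmpty.forall_iff, implies_true, iff_true]
    exact em _
  | succ t ih =>
    have h : Hier Clop (n + 1) (fun M _ x => (Ev n t M x ↔ s t)) := by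
      by_cases hs : s t
      · exact (Hier.lift Clop.base (Ev_hier n t)).congr fun M _ x => by simp [hs]
      · exact (Hier.neg Clop.base (Ev_hier n t)).congr fun M _ x => by simp [hs]
    refine (Hier.and Clop.base ih h).congr fun M _ x => ?_
    constructor
    · rintro ⟨h1, h2⟩ u hu
      rcases Nat.lt_succ_iff_lt_or_eq.1 hu with h3 | rfl
      · exact h1 u h3
      · exact h2
    · intro h1
      exact ⟨fun u hu => h1 u (by omega), h1 t (by omega)⟩

/-- amalgamation -/
theorem amalg {n : ℕ} {N : Type} [LA.Structure N] {c : ℕ → N} {K : ℕ → Type}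
    [∀ t, LA.Structure (K t)] {b : ∀ t, ℕ → K t}
    (h : ∀ t, dia n (fun u => Ev n u N c) t (K t) (b t)) {R : Pr} (hR : Hier Clop n R) :
    R (UPr K) (ups b) ↔ R N c := by
  rw [up_hier hR]
  obtain ⟨u, rfl⟩ := hier_iff.1 hR
  have h1 : ∀ᶠ t in (UF : Filter ℕ), (Ev n u (K t) (b t) ↔ Ev n u N c) :=
    (uf_ge (u + 1)).mono fun t ht => h t u (by omega)
  rw [Filter.eventually_congr h1]
  exact Filter.eventually_const

theorem amalg_ag {n : ℕ} {N : Type} [LA.Structure N] {c : ℕ → N} {K : ℕ → Type}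
    [∀ t, LA.Structure (K t)] {b : ∀ t, ℕ → K t}
    (h : ∀ t, dia n (fun u => Ev n u N c) t (K t) (b t)) (k : ℕ) : Ag n k c (ups b) :=
  fun R hR hs => (amalg h hR).symm

/-! ### Conditions -/

/-- A condition: a model of Peano arithmetic with a sequence of elements, the first `k` of which are
distinct. -/
structure Cd where
  M : Type
  [str : LA.Structure M]
  [ne : Nonempty M]
  pa : PAc M
  b : ℕ → M
  k : ℕ
  inj : ∀ i < k, ∀ j < k, b i = b j → i = j

attribute [instance] Cd.str Cd.ne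

/-- extension of conditions -/
def Le (q p : Cd) : Prop := p.k ≤ q.k ∧ AgU p.k p.b q.b

theorem Le.refl (p : Cd) : Le p p := ⟨le_rfl, AgU.refl _ _⟩

theorem Le.trans {r q p : Cd} (h1 : Le r q) (h2 : Le q p) : Le r p :=
  ⟨h2.1.trans h1.1, h2.2.trans (h1.2.mono h2.1)⟩

/-- weak extension: agreement at level `n` only -/
def LeN (n : ℕ) (q p : Cd) : Prop := p.k ≤ q.k ∧ Ag n p.k p.b q.b

theorem Le.leN {q p : Cd} (h : Le q p) (n : ℕ) : LeN n q p := ⟨h.1, h.2 n⟩

theorem LeN.trans {n m : ℕ} {r q p : Cd} (h1 : LeN m r q) (h2 : LeN n q p) (h : n ≤ m) : LeN n r p :=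
  ⟨h2.1.trans h1.1, h2.2.trans (h1.2.mono h h2.1)⟩

theorem LeN.mono {n m : ℕ} {q p : Cd} (h : LeN n q p) (hm : m ≤ n) : LeN m q p :=
  ⟨h.1, h.2.mono hm le_rfl⟩

theorem LeN.refl (n : ℕ) (p : Cd) : LeN n p p := ⟨le_rfl, Ag.refl _ _ _⟩

theorem supp_eq (i j : ℕ) {k : ℕ} (hi : i < k) (hj : j < k) :
    Supp k (fun M _ x => x i = x j) := by
  intro M _ x y h
  show x i = x j ↔ y i = y j
  rw [h i hi, h j hj]

theorem hier_eq (i j : ℕ) : Hier Clop 0 (fun M _ x => x i = x j) := by
  refine ⟨fc 5 i j 0 + 1, fun a => a (fc 5 i j 0) = true, fun a b h => ?_, ?_⟩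
  · show a (fc 5 i j 0) = true ↔ b (fc 5 i j 0) = true
    rw [h _ (Nat.lt_succ_self _)]
  · refine pr_ext fun M _ x => ?_
    show x i = x j ↔ D x (fc 5 i j 0) = true
    rw [D_fc]
    simp [fact4]

theorem inj_of_ag {n k l : ℕ} (hkl : k ≤ l) {M M' : Type} [LA.Structure M] [LA.Structure M']
    {x : ℕ → M} {x' : ℕ → M'} (h : Ag n l x x') (hx : ∀ i < k, ∀ j < k, x i = x j → i = j) :
    ∀ i < k, ∀ j < k, x' i = x' j → i = j := by
  intro i hi j hj hij
  refine hx i hi j hj ?_
  exact (h _ (Hier.mono Clop.base (hier_eq i j) (Nat.zero_le n))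
    (supp_eq i j (by omega) (by omega))).2 hij

/-- From agreement at level `n + 1` to extensions agreeing at level `n`. -/
theorem exists_ext {n : ℕ} {p q' : Cd} (h : LeN (n + 1) q' p) :
    ∃ q : Cd, Le q p ∧ q.k = q'.k ∧ Ag n q'.k q'.b q.b := by
  let s : ℕ → Prop := fun u => Ev n u q'.M q'.b
  have h1 : ∀ t, ∃ x' : ℕ → p.M, (∀ i < p.k, x' i = p.b i) ∧ dia n s t p.M x' := by
    intro t
    have h2 := Hier.blk (dia_hier n s t) p.k
    refine (h.2 _ h2 ?_).2 ⟨q'.b, fun _ _ => rfl, fun u _ => Iff.rfl⟩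
    intro M _ x y hxy
    constructor
    · rintro ⟨x', h3, h4⟩
      exact ⟨x', fun i hi => (h3 i hi).trans (hxy i hi), h4⟩
    · rintro ⟨x', h3, h4⟩
      exact ⟨x', fun i hi => (h3 i hi).trans (hxy i hi).symm, h4⟩
  choose x' hx1 hx2 using h1
  have hag : Ag n q'.k q'.b (ups (K := fun _ => p.M) x') := amalg_ag hx2 _
  refine ⟨⟨UPr (fun _ => p.M), PAc.up (fun _ => p.pa), ups (K := fun _ => p.M) x', q'.k,
    inj_of_ag le_rfl hag q'.inj⟩, ⟨h.1, fun m R hR hs => ?_⟩, rfl, hag⟩
  show R p.M p.b ↔ R (UPr fun _ => p.M) (ups (K := fun _ => p.M) x')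
  rw [up_hier hR]
  have h3 : ∀ t, R p.M (x' t) ↔ R p.M p.b := fun t => hs _ _ _ (hx1 t)
  simp only [h3]
  exact (Filter.eventually_const).symm

/-! ### Statements about sets and forcing -/

/-- Statements about an infinite sequence of bits. -/
inductive St : Type
  | op (W : Set (List Bool)) : St
  | exn (f : ℕ → St) : St

/-- the string is an initial segment of the sequence -/
def Pf (u : List Bool) (a : ℕ → Bool) : Prop := ∀ i < u.length, u[i]? = some (a i)

/-- Truth of statements. -/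
def St.holds (a : ℕ → Bool) : St → Prop
  | .op W => ∃ u ∈ W, Pf u a
  | .exn f => ∃ j, ¬ (f j).holds a

/-- Levels of statements. -/
def St.lev : ℕ → St → Prop
  | 0, _ => False
  | _ + 1, .op _ => True
  | n + 1, .exn f => ∀ j, (f j).lev n

theorem St.lev_succ {n : ℕ} {S : St} (h : S.lev n) : S.lev (n + 1) := by
  induction n generalizing S with
  | zero => exact absurd h id
  | succ n ih =>
    cases S with
    | op W => trivial
    | exn f => exact fun j => ih (h j)

theorem St.lev_mono {n m : ℕ} {S : St} (h : S.lev n) (hnm : n ≤ m) : S.lev m := by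
  induction m, hnm using Nat.le_induction with
  | base => exact h
  | succ m _ ih => exact St.lev_succ ih

/-- Forcing. -/
def Fo : St → Cd → Prop
  | .op W, p => ∃ u ∈ W, u.length ≤ p.k ∧ Pf u (D p.b)
  | .exn f, p => ∃ j, ∀ q, Le q p → ¬ Fo (f j) q

/-- Forcing of the negation. -/
def NF (S : St) (p : Cd) : Prop := ∀ q, Le q p → ¬ Fo S q

theorem supp_D (i : ℕ) {k : ℕ} (hi : i < k) : Supp k (fun M _ x => D x i = true) := by
  intro M _ x y h
  show D x i = true ↔ D y i = true
  rw [D_congr fun j hj => h j (by omega)]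

theorem hier_D (i : ℕ) : Hier Clop 0 (fun M _ x => D x i = true) :=
  ⟨i + 1, fun a => a i = true, fun a b h => by
    show a i = true ↔ b i = true
    rw [h i (Nat.lt_succ_self _)], rfl⟩

theorem D_of_leN {n : ℕ} {q p : Cd} (h : LeN n q p) (i : ℕ) (hi : i < p.k) : D p.b i = D q.b i := by
  rw [Bool.eq_iff_iff]
  exact h.2 _ (Hier.mono Clop.base (hier_D i) (Nat.zero_le n)) (supp_D i hi)

theorem persist (n : ℕ) : (∀ S : St, S.lev n → ∀ p p' : Cd, LeN n p' p → NF S p → NF S p') ∧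
    (∀ S : St, S.lev (n + 1) → ∀ p p' : Cd, LeN n p' p → Fo S p → Fo S p') := by
  have key : ∀ n, (∀ S : St, S.lev n → ∀ p p' : Cd, LeN n p' p → NF S p → NF S p') →
      (∀ S : St, S.lev (n + 1) → ∀ p p' : Cd, LeN n p' p → Fo S p → Fo S p') := by
    intro n hn S hS p p' hpp h
    cases S with
    | op W =>
      obtain ⟨u, hu, h1, h2⟩ := h
      refine ⟨u, hu, h1.trans hpp.1, fun i hi => ?_⟩
      rw [h2 i hi, D_of_leN hpp i (by omega)]
    | exn f =>
      obtain ⟨j, hj⟩ := h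
      exact ⟨j, hn (f j) (hS j) p p' hpp hj⟩
  induction n with
  | zero => exact ⟨fun S hS => absurd hS id, key 0 fun S hS => absurd hS id⟩
  | succ n ih =>
    have h1 : ∀ S : St, S.lev (n + 1) → ∀ p p' : Cd, LeN (n + 1) p' p → NF S p → NF S p' := by
      intro S hS p p' hpp h q' hq' hF
      obtain ⟨q, h2, h3, h4⟩ := exists_ext (p := p) (q' := q') ((hq'.leN (n + 1)).trans hpp le_rfl)
      exact h q h2 (ih.2 S hS q' q ⟨h3.ge, h4⟩ hF)
    exact ⟨h1, key (n + 1) h1⟩

theorem Fo.persist {n : ℕ} {S : St} (hS : S.lev (n + 1)) {p p' : Cd} (h : LeN n p' p)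
    (hF : Fo S p) : Fo S p' := (SV.persist n).2 S hS p p' h hF

theorem NF.persist {n : ℕ} {S : St} (hS : S.lev n) {p p' : Cd} (h : LeN n p' p)
    (hF : NF S p) : NF S p' := (SV.persist n).1 S hS p p' h hF

/-! ### Generic sequences -/

/-- A sequence of conditions with levels of preservation. -/
structure GSeq where
  p : ℕ → Cd
  n : ℕ → ℕ
  hn : ∀ s, n s ≤ n (s + 1)
  hp : ∀ s, LeN (n s) (p (s + 1)) (p s)
  big : ∀ N, ∃ s, N ≤ (p s).k ∧ N ≤ n s

namespace GSeq
variable (G : GSeq)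

theorem n_mono {s t : ℕ} (h : s ≤ t) : G.n s ≤ G.n t := by
  induction t, h using Nat.le_induction with
  | base => exact le_rfl
  | succ t _ ih => exact ih.trans (G.hn t)

theorem leN {s t : ℕ} (h : s ≤ t) : LeN (G.n s) (G.p t) (G.p s) := by
  induction t, h using Nat.le_induction with
  | base => exact LeN.refl _ _
  | succ t ht ih => exact (G.hp t).trans ih (G.n_mono ht)

/-- the limit of the atomic diagrams -/
noncomputable def X (i : ℕ) : Bool := D (G.p (G.big (i + 1)).choose).b i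

theorem X_eq {s i : ℕ} (h : i < (G.p s).k) : G.X i = D (G.p s).b i := by
  have h1 := (G.big (i + 1)).choose_spec
  rw [X]
  rcases le_total (G.big (i + 1)).choose s with h2 | h2
  · exact D_of_leN (G.leN h2) i (by omega)
  · exact (D_of_leN (G.leN h2) i h).symm

/-- The statement is decided. -/
def Dec (S : St) : Prop := ∃ s, S.lev (G.n s) ∧ (Fo S (G.p s) ∨ NF S (G.p s))

/-- The statement and all its substatements are decided. -/
def HDec : St → Prop
  | .op W => G.Dec (.op W)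
  | .exn f => G.Dec (.exn f) ∧ ∀ j, HDec (f j)

theorem fo_mono {S : St} {s t : ℕ} (hst : s ≤ t) (hl : S.lev (G.n s)) (h : Fo S (G.p s)) :
    Fo S (G.p t) := h.persist (St.lev_succ hl) (G.leN hst)

theorem nf_mono {S : St} {s t : ℕ} (hst : s ≤ t) (hl : S.lev (G.n s)) (h : NF S (G.p s)) :
    NF S (G.p t) := h.persist hl (G.leN hst)

theorem lev_mono {S : St} {s t : ℕ} (hst : s ≤ t) (hl : S.lev (G.n s)) : S.lev (G.n t) :=
  St.lev_mono hl (G.n_mono hst)

theorem truth {S : St} (h : G.HDec S) :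
    S.holds G.X ↔ ∃ s, S.lev (G.n s) ∧ Fo S (G.p s) := by
  induction S with
  | op W =>
    constructor
    · rintro ⟨u, hu, h1⟩
      obtain ⟨s, h2, h3⟩ := G.big (u.length + 1)
      refine ⟨s, ?_, u, hu, by omega, fun i hi => ?_⟩
      · obtain ⟨m, hm⟩ : ∃ m, G.n s = m + 1 := ⟨G.n s - 1, by omega⟩
        rw [hm]; trivial
      · rw [h1 i hi, G.X_eq (s := s) (by omega)]
    · rintro ⟨s, h1, u, hu, h2, h3⟩
      refine ⟨u, hu, fun i hi => ?_⟩
      rw [h3 i hi, G.X_eq (s := s) (by omega)]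
  | exn f ih =>
    obtain ⟨⟨s0, hs0, -⟩, hf⟩ := h
    constructor
    · rintro ⟨j, hj⟩
      have hdec : G.Dec (f j) := by
        have := hf j
        cases hfj : f j with
        | op W => rw [hfj] at this; exact this
        | exn g => rw [hfj] at this; exact this.1
      obtain ⟨s, h1, h2 | h2⟩ := hdec
      · exact absurd ((ih j (hf j)).2 ⟨s, h1, h2⟩) hj
      · refine ⟨max s s0, G.lev_mono (le_max_right _ _) hs0, j, ?_⟩
        exact G.nf_mono (le_max_left _ _) h1 h2
    · rintro ⟨s, h1, j, hj⟩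
      refine ⟨j, fun hc => ?_⟩
      obtain ⟨s', h2, h3⟩ := (ih j (hf j)).1 hc
      obtain ⟨m, hm⟩ : ∃ m, G.n s = m + 1 := by
        rcases hns : G.n s with _ | m
        · rw [hns] at h1; exact absurd h1 id
        · exact ⟨m, rfl⟩
      have h4 : (f j).lev (G.n s) := by
        rw [hm] at h1 ⊢
        exact St.lev_succ (h1 j)
      have h5 := G.nf_mono (le_max_left s s') h4 hj
      exact h5 _ (Le.refl _) (G.fo_mono (le_max_right s s') h2 h3)

/-- a negatively forced statement is false -/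
theorem not_holds {S : St} (h : G.HDec S) {s : ℕ} (hl : S.lev (G.n s)) (hN : NF S (G.p s)) :
    ¬ S.holds G.X := by
  intro hc
  obtain ⟨s', h2, h3⟩ := (G.truth h).1 hc
  exact G.nf_mono (le_max_left s s') hl hN _ (Le.refl _) (G.fo_mono (le_max_right s s') h2 h3)

end GSeq

end Pool.Agent.H646R2.SV
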