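import Pool.Agent.H646R2.SV.Force
import Pool.Agent.H646R2.SV.Defs

/-!
Statements about the atomic diagram and its jumps, as statements of bounded level.
-/

set_option autoImplicit false
set_option linter.unusedVariables false

open FirstOrder FirstOrder.Language Pool.Agent.Helper227.EN Encodable Pool.Agent.H646R2.SV.Defs

namespace Pool.Agent.H646R2.SV

/-- The sequence of bits is the atomic diagram of a structure. -/
def Dg1 (a : ℕ → Bool) : Prop := ∃ A : LA.Structure ℕ, a = @D ℕ A id

/-- The predicate is given by a statement of level `n` (for diagrams). -/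
def BS (n : ℕ) (P : (ℕ → Bool) → Prop) : Prop :=
  ∃ S : St, S.lev n ∧ ∀ a, Dg1 a → (S.holds a ↔ P a)

theorem BS.congr {n : ℕ} {P Q : (ℕ → Bool) → Prop} (h : BS n P) (e : ∀ a, Dg1 a → (P a ↔ Q a)) :
    BS n Q := by
  obtain ⟨S, h1, h2⟩ := h
  exact ⟨S, h1, fun a ha => (h2 a ha).trans (e a ha)⟩

theorem BS.lift {n : ℕ} {P : (ℕ → Bool) → Prop} (h : BS n P) : BS (n + 1) P := by
  obtain ⟨S, h1, h2⟩ := h
  exact ⟨S, St.lev_succ h1, h2⟩

theorem BS.mono {n m : ℕ} {P : (ℕ → Bool) → Prop} (h : BS n P) (hm : n ≤ m) : BS m P := by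
  obtain ⟨S, h1, h2⟩ := h
  exact ⟨S, St.lev_mono h1 hm, h2⟩

theorem BS.neg {n : ℕ} {P : (ℕ → Bool) → Prop} (h : BS n P) : BS (n + 1) (fun a => ¬ P a) := by
  obtain ⟨S, h1, h2⟩ := h
  refine ⟨.exn fun _ => S, fun _ => h1, fun a ha => ?_⟩
  simp only [St.holds, exists_const]
  exact not_congr (h2 a ha)

theorem BS.op {n : ℕ} (W : Set (List Bool)) : BS (n + 1) (fun a => ∃ u ∈ W, Pf u a) :=
  ⟨.op W, trivial, fun a _ => Iff.rfl⟩

/-- prefix of a sequence -/
def pfx (a : ℕ → Bool) (N : ℕ) : List Bool := (List.range N).map a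

theorem pfx_length (a : ℕ → Bool) (N : ℕ) : (pfx a N).length = N := by simp [pfx]

theorem pfx_get (a : ℕ → Bool) {N i : ℕ} (h : i < N) : (pfx a N)[i]? = some (a i) := by
  simp [pfx, h]

theorem pf_pfx (a : ℕ → Bool) (N : ℕ) : Pf (pfx a N) a := by
  intro i hi
  rw [pfx_length] at hi
  exact pfx_get a hi

theorem Pf.eq {u : List Bool} {a : ℕ → Bool} (h : Pf u a) : u = pfx a u.length := by
  apply List.ext_getElem?
  intro i
  by_cases hi : i < u.length
  · rw [h i hi, pfx_get a hi]
  · rw [List.getElem?_eq_none (by omega), List.getElem?_eq_none (by rw [pfx_length]; omega)]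

theorem BS.bit {n : ℕ} (p : ℕ) (v : Bool) : BS (n + 1) (fun a => a p = v) := by
  refine (BS.op {u | u[p]? = some v}).congr fun a _ => ?_
  constructor
  · rintro ⟨u, hu, h⟩
    rw [Set.mem_ofPred_eq] at hu
    have hp : p < u.length := by
      by_contra hc
      rw [List.getElem?_eq_none (by omega)] at hu
      exact absurd hu (by simp)
    rw [h p hp] at hu
    simpa using hu
  · intro h
    refine ⟨pfx a (p + 1), ?_, pf_pfx a _⟩
    rw [Set.mem_ofPred_eq, pfx_get a (Nat.lt_succ_self p), h]

theorem BS.const {n : ℕ} (p : Prop) : BS (n + 1) (fun _ => p) := by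
  by_cases hp : p
  · refine (BS.op {u | u = []}).congr fun a _ => ?_
    simp only [hp, iff_true]
    exact ⟨[], rfl, fun i hi => absurd hi (by simp)⟩
  · refine (BS.op ∅).congr fun a _ => ?_
    simp [hp]

/-- statements of level at least 2 can be written with a negation inside -/
theorem exnForm {n : ℕ} {S : St} (h : S.lev (n + 2)) :
    ∃ g : ℕ → St, (∀ i, (g i).lev (n + 1)) ∧ ∀ a, (S.holds a ↔ ∃ i, ¬ (g i).holds a) := by
  classical
  cases S with
  | exn f => exact ⟨f, h, fun a => Iff.rfl⟩
  | op W =>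
    let g : ℕ → St := fun i =>
      match (decode i : Option (List Bool)) with
      | none => .op {u | u = []}
      | some u => if u ∈ W then .op {v | v.length = u.length ∧ v ≠ u} else .op {u | u = []}
    have htriv : ∀ a, (St.op {u | u = []}).holds a := fun a =>
      ⟨[], rfl, fun i hi => absurd hi (by simp)⟩
    refine ⟨g, fun i => ?_, fun a => ?_⟩
    · simp only [g]
      cases (decode i : Option (List Bool)) with
      | none => trivial
      | some u => by_cases h : u ∈ W <;> simp [h, St.lev]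
    · constructor
      · rintro ⟨u, hu, hp⟩
        refine ⟨encode u, ?_⟩
        simp only [g, encodek, hu, if_true]
        rintro ⟨v, ⟨h1, h2⟩, h3⟩
        rw [h3.eq, h1, ← hp.eq] at h2
        exact h2 rfl
      · rintro ⟨i, hi⟩
        simp only [g] at hi
        cases hd : (decode i : Option (List Bool)) with
        | none => rw [hd] at hi; exact absurd (htriv a) hi
        | some u =>
          rw [hd] at hi
          by_cases hu : u ∈ W
          · simp only [hu, if_true] at hi
            refine ⟨u, hu, ?_⟩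
            by_contra hc
            refine hi ⟨pfx a u.length, ⟨pfx_length _ _, fun he => hc ?_⟩, pf_pfx a _⟩
            rw [← he]; exact pf_pfx a _
          · simp only [hu, if_false] at hi
            exact absurd (htriv a) hi

theorem lev_one {S : St} (h : S.lev 1) : ∃ W, S = .op W := by
  cases S with
  | op W => exact ⟨W, rfl⟩
  | exn f => exact absurd (h 0) id

theorem BS.ex {n : ℕ} {P : ℕ → (ℕ → Bool) → Prop} (h : ∀ j, BS (n + 1) (P j)) :
    BS (n + 1) (fun a => ∃ j, P j a) := by
  choose S h1 h2 using h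
  cases n with
  | zero =>
    choose W hW using fun j => lev_one (h1 j)
    refine ⟨.op (⋃ j, W j), trivial, fun a ha => ?_⟩
    constructor
    · rintro ⟨u, hu, h3⟩
      obtain ⟨j, hj⟩ := Set.mem_iUnion.1 hu
      refine ⟨j, (h2 j a ha).1 ?_⟩
      rw [hW]
      exact ⟨u, hj, h3⟩
    · rintro ⟨j, hj⟩
      have h3 := (h2 j a ha).2 hj
      rw [hW] at h3
      obtain ⟨u, hu, h4⟩ := h3
      exact ⟨u, Set.mem_iUnion.2 ⟨j, hu⟩, h4⟩
  | succ n =>
    choose g hg1 hg2 using fun j => exnForm (h1 j)
    refine ⟨.exn fun p => g (Nat.unpair p).1 (Nat.unpair p).2, fun p => hg1 _ _, fun a ha => ?_⟩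
    constructor
    · rintro ⟨p, hp⟩
      exact ⟨_, (h2 _ a ha).1 ((hg2 _ a).2 ⟨_, hp⟩)⟩
    · rintro ⟨j, hj⟩
      obtain ⟨i, hi⟩ := (hg2 j a).1 ((h2 j a ha).2 hj)
      refine ⟨Nat.pair j i, ?_⟩
      simpa using hi

theorem BS.exists {α : Type} [Encodable α] {n : ℕ} {P : α → (ℕ → Bool) → Prop}
    (h : ∀ j, BS (n + 1) (P j)) : BS (n + 1) (fun a => ∃ j, P j a) := by
  refine (BS.ex (P := fun i a => ∃ j, (decode i : Option α) = some j ∧ P j a) fun i => ?_).congr
    fun a _ => ?_
  · cases hd : (decode i : Option α) with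
    | none => exact (BS.const False).congr fun a _ => by simp
    | some j => exact (h j).congr fun a _ => by simp
  · constructor
    · rintro ⟨i, j, h1, h2⟩; exact ⟨j, h2⟩
    · rintro ⟨j, hj⟩; exact ⟨encode j, j, encodek j, hj⟩

theorem BS.or {n : ℕ} {P Q : (ℕ → Bool) → Prop} (h1 : BS (n + 1) P) (h2 : BS (n + 1) Q) :
    BS (n + 1) (fun a => P a ∨ Q a) := by
  refine (BS.exists (P := fun b a => if b = true then P a else Q a) fun b => ?_).congr fun a _ => ?_
  · cases b
    · simpa using h2
    · simpa using h1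
  · simp [or_comm]

theorem BS.and {n : ℕ} {P Q : (ℕ → Bool) → Prop} (h1 : BS (n + 1) P) (h2 : BS (n + 1) Q) :
    BS (n + 1) (fun a => P a ∧ Q a) := by
  obtain ⟨S, h3, h4⟩ := h1
  obtain ⟨S', h5, h6⟩ := h2
  cases n with
  | zero =>
    obtain ⟨W, rfl⟩ := lev_one h3
    obtain ⟨W', rfl⟩ := lev_one h5
    refine ⟨.op {u | ∃ N ≤ u.length, ∃ N' ≤ u.length, u.take N ∈ W ∧ u.take N' ∈ W'}, trivial,
      fun a ha => ?_⟩
    have key : ∀ N N', N ≤ N' → (pfx a N').take N = pfx a N := by
      intro N N' h
      simp only [pfx, ← List.map_take, List.take_range, min_eq_left h]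
    show _ ↔ P a ∧ Q a
    rw [← h4 a ha, ← h6 a ha]
    constructor
    · rintro ⟨u, ⟨N, hN, N', hN', hu, hu'⟩, h⟩
      rw [h.eq, key _ _ hN] at hu
      rw [h.eq, key _ _ hN'] at hu'
      exact ⟨⟨_, hu, pf_pfx a _⟩, ⟨_, hu', pf_pfx a _⟩⟩
    · rintro ⟨⟨u, hu, h⟩, ⟨u', hu', h'⟩⟩
      refine ⟨pfx a (max u.length u'.length), ⟨u.length, ?_, u'.length, ?_, ?_, ?_⟩, pf_pfx a _⟩
      · rw [pfx_length]; exact le_max_left _ _
      · rw [pfx_length]; exact le_max_right _ _
      · rw [key _ _ (le_max_left _ _), ← h.eq]; exact hu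
      · rw [key _ _ (le_max_right _ _), ← h'.eq]; exact hu'
  | succ n =>
    obtain ⟨g, hg1, hg2⟩ := exnForm h3
    obtain ⟨g', hg1', hg2'⟩ := exnForm h5
    have h7 : ∀ p : ℕ, BS (n + 2) (fun a => ¬ ((g (Nat.unpair p).1).holds a ∨
        (g' (Nat.unpair p).2).holds a)) := fun p =>
      BS.neg (BS.or ⟨_, hg1 _, fun _ _ => Iff.rfl⟩ ⟨_, hg1' _, fun _ _ => Iff.rfl⟩)
    refine (BS.ex h7).congr fun a ha => ?_
    show _ ↔ P a ∧ Q a
    rw [← h4 a ha, ← h6 a ha, hg2, hg2']
    constructor
    · rintro ⟨p, hp⟩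
      rw [not_or] at hp
      exact ⟨⟨_, hp.1⟩, ⟨_, hp.2⟩⟩
    · rintro ⟨⟨i, hi⟩, ⟨j, hj⟩⟩
      refine ⟨Nat.pair i j, ?_⟩
      rw [Nat.unpair_pair, not_or]
      exact ⟨hi, hj⟩

theorem BS.all_list {α : Type} {n : ℕ} {P : α → (ℕ → Bool) → Prop} (l : List α)
    (h : ∀ j, BS (n + 1) (P j)) : BS (n + 1) (fun a => ∀ j ∈ l, P j a) := by
  induction l with
  | nil => exact (BS.const True).congr fun a _ => by simp
  | cons x l ih => exact ((h x).and ih).congr fun a _ => by simp

/-! ### The diagram in the language `{0, S, +, ·}` and its jumps -/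

/-- value of a term, in terms of the bits `a` -/
def TV (a : ℕ → Bool) : LS.Term ℕ → ℕ → Prop
  | .var i, v => v = i
  | .func AFun.zero _, v => a (fc 3 v 0 0) = true
  | .func AFun.succ ts, v => ∃ w o, TV a (ts 0) w ∧ (a (fc 4 o 0 0) = true ∧ a (fc 0 w o v) = true)
  | .func AFun.add ts, v => ∃ w w', TV a (ts 0) w ∧ (TV a (ts 1) w' ∧ a (fc 0 w w' v) = true)
  | .func AFun.mul ts, v => ∃ w w', TV a (ts 0) w ∧ (TV a (ts 1) w' ∧ a (fc 1 w w' v) = true)

theorem BS.tv (t : LS.Term ℕ) (v : ℕ) : BS 1 (fun a => TV a t v) := by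
  induction t generalizing v with
  | var i => exact BS.const _
  | @func l F ts ih =>
    cases F with
    | zero => exact BS.bit _ _
    | succ => exact BS.ex fun w => BS.ex fun o => BS.and (ih 0 w) (BS.and (BS.bit _ _) (BS.bit _ _))
    | add => exact BS.ex fun w => BS.ex fun w' => BS.and (ih 0 w) (BS.and (ih 1 w') (BS.bit _ _))
    | mul => exact BS.ex fun w => BS.ex fun w' => BS.and (ih 0 w) (BS.and (ih 1 w') (BS.bit _ _))

/-- the reduct of a structure of the language `{0, 1, +, ·, <}` to the language `{0, S, +, ·}` -/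
@[reducible] def red (M : Type) [LA.Structure M] : LS.Structure M where
  funMap := fun {n} f => match n, f with
    | _, AFun.zero => fun _ => Structure.funMap (L := LA) AF.zero ![]
    | _, AFun.succ => fun v => Structure.funMap (L := LA) AF.add
        ![v 0, Structure.funMap (L := LA) AF.one (![] : Fin 0 → M)]
    | _, AFun.add => fun v => Structure.funMap (L := LA) AF.add ![v 0, v 1]
    | _, AFun.mul => fun v => Structure.funMap (L := LA) AF.mul ![v 0, v 1]
  RelMap := fun {n} r _ => Empty.elim r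

theorem tv_iff (A : LA.Structure ℕ) (t : LS.Term ℕ) (v : ℕ) :
    TV (@D ℕ A id) t v ↔ @Term.realize LS ℕ (@red ℕ A) ℕ id t = v := by
  let _ := A
  let _ : LS.Structure ℕ := red ℕ
  induction t generalizing v with
  | var i => exact eq_comm
  | @func l F ts ih =>
    cases F with
    | zero =>
      show D (M := ℕ) id (fc 3 v 0 0) = true ↔ _
      rw [D_fc]
      simp only [fact4]
      exact Iff.rfl
    | succ =>
      show (∃ w o, TV (D id) (ts 0) w ∧ (D (M := ℕ) id (fc 4 o 0 0) = true ∧
        D (M := ℕ) id (fc 0 w o v) = true)) ↔ _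
      simp only [D_fc, ih]
      simp only [fact4]
      simp
      exact Iff.rfl
    | add =>
      show (∃ w w', TV (D id) (ts 0) w ∧ (TV (D id) (ts 1) w' ∧
        D (M := ℕ) id (fc 0 w w' v) = true)) ↔ _
      simp only [D_fc, ih]
      simp only [fact4]
      simp
      exact Iff.rfl
    | mul =>
      show (∃ w w', TV (D id) (ts 0) w ∧ (TV (D id) (ts 1) w' ∧
        D (M := ℕ) id (fc 1 w w' v) = true)) ↔ _
      simp only [D_fc, ih]
      simp only [fact4]
      simp
      exact Iff.rfl

theorem tnum_inj {α : Type} {v : α → ℕ} (hv : Function.Injective v) :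
    ∀ s t : LS.Term α, tnum v s = tnum v t → s = t := by
  intro s
  induction s with
  | var a =>
    intro t h
    cases t with
    | var b =>
      simp only [tnum] at h
      rw [hv (by omega : v a = v b)]
    | @func l G us =>
      cases G <;> simp only [tnum] at h <;> omega
  | @func l F ts ih =>
    intro t h
    cases t with
    | var b => cases F <;> simp only [tnum] at h <;> omega
    | @func l' G us =>
      cases F with
      | zero =>
        cases G <;> simp only [tnum] at h <;> first | omega | skip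
        rw [Subsingleton.elim ts us]
      | succ =>
        cases G <;> simp only [tnum] at h <;> first | omega | skip
        have h0 := ih 0 _ (by omega : tnum v (ts 0) = tnum v (us 0))
        have : ts = us := by
          funext i
          rw [Fin.eq_zero i]; exact h0
        rw [this]
      | add =>
        cases G <;> simp only [tnum] at h <;> first | omega | skip
        have h1 : Nat.pair (tnum v (ts 0)) (tnum v (ts 1)) = Nat.pair (tnum v (us 0)) (tnum v (us 1)) := by
          omega
        rw [Nat.pair_eq_pair] at h1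
        have e0 := ih 0 _ h1.1
        have e1 := ih 1 _ h1.2
        have : ts = us := by
          funext i
          fin_cases i
          · exact e0
          · exact e1
        rw [this]
      | mul =>
        cases G <;> simp only [tnum] at h <;> first | omega | skip
        have h1 : Nat.pair (tnum v (ts 0)) (tnum v (ts 1)) = Nat.pair (tnum v (us 0)) (tnum v (us 1)) := by
          omega
        rw [Nat.pair_eq_pair] at h1
        have e0 := ih 0 _ h1.1
        have e1 := ih 1 _ h1.2
        have : ts = us := by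
          funext i
          fin_cases i
          · exact e0
          · exact e1
        rw [this]

/-- The atomic diagram (language `{0, S, +, ·}`) in terms of the bits `a`. -/
def SA (a : ℕ → Bool) : Set ℕ :=
  {g | ∃ s t : LS.Term ℕ, (∃ v, TV a s v ∧ TV a t v) ∧ Nat.pair (tnum id s) (tnum id t) = g}

theorem SA_eq (A : LA.Structure ℕ) : SA (@D ℕ A id) = Defs.diag (@red ℕ A) := by
  ext g
  unfold SA Defs.diag
  simp only [Set.mem_ofPred_eq, tv_iff]
  refine exists_congr fun s => exists_congr fun t => and_congr ?_ Iff.rfl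
  constructor
  · rintro ⟨v, h1, h2⟩; rw [h1, h2]
  · intro h; exact ⟨_, rfl, h.symm⟩

theorem BS.mem_SA (z : ℕ) : BS 1 (fun a => z ∈ SA a) := by
  by_cases hz : ∃ s t : LS.Term ℕ, Nat.pair (tnum id s) (tnum id t) = z
  · obtain ⟨s, t, hst⟩ := hz
    refine (BS.ex fun v => BS.and (BS.tv s v) (BS.tv t v)).congr fun a _ => ?_
    constructor
    · intro h; exact ⟨s, t, h, hst⟩
    · rintro ⟨s', t', h, hst'⟩
      rw [← hst, Nat.pair_eq_pair] at hst'
      rw [tnum_inj Function.injective_id _ _ hst'.1, tnum_inj Function.injective_id _ _ hst'.2] at h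
      exact h
  · refine (BS.const False).congr fun a _ => ?_
    refine ⟨False.elim, fun ⟨s, t, _, h⟩ => hz ⟨s, t, h⟩⟩

theorem BS.not_mem_SA (z : ℕ) : BS 1 (fun a => z ∉ SA a) := by
  by_cases hz : ∃ s t : LS.Term ℕ, Nat.pair (tnum id s) (tnum id t) = z
  · obtain ⟨s, t, hst⟩ := hz
    refine (BS.ex fun v => BS.ex fun w => BS.and (BS.const (v ≠ w))
      (BS.and (BS.tv s v) (BS.tv t w))).congr fun a ha => ?_
    obtain ⟨A, rfl⟩ := ha
    constructor
    · rintro ⟨v, w, hvw, h1, h2⟩ ⟨s', t', ⟨u, h3, h4⟩, hst'⟩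
      rw [← hst, Nat.pair_eq_pair] at hst'
      rw [tnum_inj Function.injective_id _ _ hst'.1, tv_iff] at h3
      rw [tnum_inj Function.injective_id _ _ hst'.2, tv_iff] at h4
      rw [tv_iff] at h1 h2
      exact hvw (h1.symm.trans (h3.trans (h4.symm.trans h2)))
    · intro h
      refine ⟨_, _, fun he => h ⟨s, t, ⟨_, (tv_iff A s _).2 rfl, (tv_iff A t _).2 he.symm⟩, hst⟩,
        (tv_iff A s _).2 rfl, (tv_iff A t _).2 rfl⟩
  · refine (BS.const True).congr fun a _ => ?_
    refine ⟨fun _ ⟨s, t, _, h⟩ => hz ⟨s, t, h⟩, fun _ => trivial⟩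

theorem num_inj : ∀ c d : OCode, c.num = d.num → c = d := by
  intro c
  induction c with
  | pair a b iha ihb =>
    intro d h
    cases d with
    | pair a' b' =>
      simp only [OCode.num] at h
      have h1 := Nat.pair_eq_pair.1 (by omega : Nat.pair a.num b.num = Nat.pair a'.num b'.num)
      rw [iha _ h1.1, ihb _ h1.2]
    | _ => simp only [OCode.num] at h; omega
  | comp a b iha ihb =>
    intro d h
    cases d with
    | comp a' b' =>
      simp only [OCode.num] at h
      have h1 := Nat.pair_eq_pair.1 (by omega : Nat.pair a.num b.num = Nat.pair a'.num b'.num)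
      rw [iha _ h1.1, ihb _ h1.2]
    | _ => simp only [OCode.num] at h; omega
  | prec a b iha ihb =>
    intro d h
    cases d with
    | prec a' b' =>
      simp only [OCode.num] at h
      have h1 := Nat.pair_eq_pair.1 (by omega : Nat.pair a.num b.num = Nat.pair a'.num b'.num)
      rw [iha _ h1.1, ihb _ h1.2]
    | _ => simp only [OCode.num] at h; omega
  | rfind a iha =>
    intro d h
    cases d with
    | rfind a' =>
      simp only [OCode.num] at h
      rw [iha a' (by omega)]
    | _ => simp only [OCode.num] at h; omega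
  | zero => intro d h; cases d <;> simp only [OCode.num] at h <;> first | omega | rfl
  | succ => intro d h; cases d <;> simp only [OCode.num] at h <;> first | omega | rfl
  | left => intro d h; cases d <;> simp only [OCode.num] at h <;> first | omega | rfl
  | right => intro d h; cases d <;> simp only [OCode.num] at h <;> first | omega | rfl
  | oracle => intro d h; cases d <;> simp only [OCode.num] at h <;> first | omega | rfl

theorem BS.eval {n : ℕ} {A : (ℕ → Bool) → Set ℕ} (h1 : ∀ z, BS (n + 1) (fun a => z ∈ A a))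
    (h2 : ∀ z, BS (n + 1) (fun a => z ∉ A a)) (c : OCode) (x y : ℕ) :
    BS (n + 1) (fun a => y ∈ c.eval (chi (A a)) x) := by
  induction c generalizing x y with
  | zero => exact (BS.const (y = 0)).congr fun a _ => by simp [OCode.eval]
  | succ => exact (BS.const (y = x + 1)).congr fun a _ => by simp [OCode.eval]
  | left => exact (BS.const (y = (Nat.unpair x).1)).congr fun a _ => by simp [OCode.eval]
  | right => exact (BS.const (y = (Nat.unpair x).2)).congr fun a _ => by simp [OCode.eval]
  | oracle =>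
    refine (BS.or (BS.and (h1 x) (BS.const (y = 1))) (BS.and (h2 x) (BS.const (y = 0)))).congr
      fun a _ => ?_
    simp only [OCode.eval, chi, Part.mem_some_iff]
    by_cases h : x ∈ A a <;> simp [h]
  | pair c d ihc ihd =>
    refine (BS.ex fun u => BS.ex fun v => BS.and (ihc x u) (BS.and (ihd x v)
      (BS.const (Nat.pair u v = y)))).congr fun a _ => ?_
    simp only [OCode.eval, Seq.seq, Part.mem_bind_iff, Part.map_eq_map, Part.mem_map_iff]
    constructor
    · rintro ⟨u, v, hu, hv, h⟩
      exact ⟨_, ⟨u, hu, rfl⟩, v, hv, h⟩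
    · rintro ⟨f, ⟨u, hu, rfl⟩, v, hv, h⟩
      exact ⟨u, v, hu, hv, h⟩
  | comp c d ihc ihd =>
    refine (BS.ex fun u => BS.and (ihd x u) (ihc u y)).congr fun a _ => ?_
    simp only [OCode.eval, Part.mem_bind_iff]
  | prec c d ihc ihd =>
    simp only [OCode.eval]
    generalize (Nat.unpair x).2 = k
    generalize (Nat.unpair x).1 = z
    induction k generalizing y with
    | zero => exact ihc z y
    | succ k ih =>
      refine (BS.ex fun i => BS.and (ih i) (ihd (Nat.pair z (Nat.pair k i)) y)).congr fun a _ => ?_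
      simp only [Part.mem_bind_iff]
  | rfind c ih =>
    refine (BS.and (ih (Nat.pair x y) 0) (BS.all_list (List.range y) fun k =>
      BS.ex fun i => BS.and (BS.const (i ≠ 0)) (ih (Nat.pair x k) i))).congr fun a _ => ?_
    simp only [OCode.eval, List.mem_range]
    refine Iff.trans (and_congr ?_ ?_) Nat.mem_rfind.symm
    · rw [Part.mem_map_iff]
      constructor
      · intro h; exact ⟨0, h, by simp⟩
      · rintro ⟨v, hv, h⟩
        simp only [decide_eq_true_eq] at h
        subst h; exact hv
    · refine forall_congr' fun k => imp_congr Iff.rfl ?_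
      rw [Part.mem_map_iff]
      constructor
      · rintro ⟨i, hi, h⟩; exact ⟨i, h, by simp [hi]⟩
      · rintro ⟨i, hi, h⟩; exact ⟨i, by simpa using h, hi⟩

theorem BS.phiA {n : ℕ} {A : (ℕ → Bool) → Set ℕ} (h1 : ∀ z, BS (n + 1) (fun a => z ∈ A a))
    (h2 : ∀ z, BS (n + 1) (fun a => z ∉ A a)) (e x y : ℕ) :
    BS (n + 1) (fun a => Phi (A a) e x y) := by
  by_cases he : ∃ c : OCode, c.num = e
  · obtain ⟨c, hc⟩ := he
    refine (BS.eval h1 h2 c x y).congr fun a _ => ?_
    constructor
    · intro h; exact ⟨c, hc, h⟩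
    · rintro ⟨d, hd, h⟩
      rwa [← num_inj c d (hc.trans hd.symm)] at h
  · exact (BS.const False).congr fun a _ => ⟨False.elim, fun ⟨c, hc, _⟩ => he ⟨c, hc⟩⟩

theorem BS.jumps (m : ℕ) : (∀ z, BS (m + 1) (fun a => z ∈ Defs.jumps (SA a) m)) ∧
    (∀ z, BS (m + 1) (fun a => z ∉ Defs.jumps (SA a) m)) := by
  induction m with
  | zero => exact ⟨BS.mem_SA, BS.not_mem_SA⟩
  | succ m ih =>
    have h : ∀ z, BS (m + 1) (fun a => z ∈ Defs.jumps (SA a) (m + 1)) := fun z =>
      BS.ex fun y => BS.phiA ih.1 ih.2 z z y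
    exact ⟨fun z => (h z).lift, fun z => (h z).neg⟩

theorem BS.phi (m e x y : ℕ) : BS (m + 1) (fun a => Phi (Defs.jumps (SA a) m) e x y) :=
  BS.phiA (BS.jumps m).1 (BS.jumps m).2 e x y

theorem BS.phi0 (m e x y : ℕ) : BS (m + 1) (fun a => Phi (SA a) e x y) :=
  (BS.phi 0 e x y).mono (by omega)

end Pool.Agent.H646R2.SV
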