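import Pool.Agent.H646R2.SV.Steps
import Pool.Agent.H646R2.SV.Stmt
import Pool.Agent.Helper227.ENJ.P_inj_extend

/-!
Construction of the generic sequence.
-/

set_option autoImplicit false
set_option linter.unusedVariables false

open FirstOrder FirstOrder.Language Pool.Agent.Helper227.EN

namespace Pool.Agent.H646R2.SV

/-- A requirement: property of a condition and a level. -/
abbrev Rq : Type 1 := Cd → ℕ → Prop

/-- A requirement can be met. -/
def Dense (r : Rq) : Prop := ∀ p n, ∃ p' n', n ≤ n' ∧ LeN n p' p ∧ r p' n'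

/-! #### decision of statements -/

theorem dense_dec (S : St) (N : ℕ) : Dense fun p n => N ≤ n ∧ (Fo S p ∨ NF S p) := by
  intro p n
  by_cases h : NF S p
  · exact ⟨p, max n N, le_max_left _ _, LeN.refl _ _, le_max_right _ _, Or.inr h⟩
  · unfold NF at h
    push Not at h
    obtain ⟨q, hq, hF⟩ := h
    exact ⟨q, max n N, le_max_left _ _, hq.leN n, le_max_right _ _, Or.inl hF⟩

/-! #### longer tuples -/

theorem exists_longer (p : Cd) (N : ℕ) : ∃ q : Cd, Le q p ∧ N ≤ q.k := by
  have := p.pa.infinite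
  obtain ⟨g, hg, hgp⟩ := inj_extend p.b p.k p.inj
  exact ⟨⟨p.M, p.pa, g, max p.k N, fun i _ j _ h => hg h⟩, ⟨le_max_left _ _,
    AgU.of_eq fun i hi => (hgp i hi).symm⟩, le_max_right _ _⟩

theorem dense_big (N : ℕ) : Dense fun p n => N ≤ p.k ∧ N ≤ n := by
  intro p n
  obtain ⟨q, hq, hN⟩ := exists_longer p N
  exact ⟨q, max n N, le_max_left _ _, hq.leN n, hN, le_max_right _ _⟩

/-! #### witnesses -/

/-- the predicate with one variable quantified -/
def exP (R : Pr) (f : ℕ → ℕ) (k : ℕ) : Pr := fun M _ x =>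
  ∃ y : M, R M (Function.update (fun i => x (f i)) k y)

/-- the predicate with one variable renamed -/
def reP (R : Pr) (f : ℕ → ℕ) (k j : ℕ) : Pr := fun M _ x =>
  R M (fun i => x (Function.update f k j i))

theorem exP_hier {R : Pr} {N : ℕ} (hR : Hier Clop N R) (f : ℕ → ℕ) (k : ℕ) :
    Hier Clop (N + 1) (exP R f k) :=
  Hier.ren Clop.base (Hier.exv Clop.base (Hier.lift Clop.base hR) k) f

theorem reP_hier {R : Pr} {N : ℕ} (hR : Hier Clop N R) (f : ℕ → ℕ) (k j : ℕ) :
    Hier Clop N (reP R f k j) :=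
  Hier.ren Clop.base hR _

theorem exP_supp {R : Pr} {s : ℕ} (hR : Supp s R) {f : ℕ → ℕ} {k K : ℕ} (hf : ∀ i < s, f i < K) :
    Supp K (exP R f k) := by
  intro M _ x y h
  refine exists_congr fun z => hR M _ _ fun i hi => ?_
  by_cases hk : i = k
  · subst hk; simp
  · rw [Function.update_of_ne hk, Function.update_of_ne hk]
    exact h _ (hf i hi)

theorem reP_supp {R : Pr} {s : ℕ} (hR : Supp s R) {f : ℕ → ℕ} {k j K : ℕ} (hf : ∀ i < s, f i < K)
    (hj : j < K) : Supp K (reP R f k j) := by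
  intro M _ x y h
  refine hR M _ _ fun i hi => h _ ?_
  by_cases hk : i = k
  · subst hk; simpa using hj
  · rw [Function.update_of_ne hk]; exact hf i hi

/-- the requirement of having a witness -/
def witR (R : Pr) (N s : ℕ) (f : ℕ → ℕ) (k : ℕ) : Rq := fun p n =>
  N < n ∧ (∀ i < s, f i < p.k) ∧ (¬ exP R f k p.M p.b ∨ ∃ j < p.k, reP R f k j p.M p.b)

theorem dense_wit {R : Pr} {N s : ℕ} (hR : Supp s R) (f : ℕ → ℕ) (k : ℕ) :
    Dense (witR R N s f k) := by
  classical
  intro p n
  obtain ⟨q, hq, hqk⟩ := exists_longer p (∑ i ∈ Finset.range s, (f i + 1))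
  have hf : ∀ i < s, f i < q.k := by
    intro i hi
    have := Finset.single_le_sum (f := fun i => f i + 1) (fun _ _ => Nat.zero_le _)
      (Finset.mem_range.2 hi)
    omega
  by_cases h : exP R f k q.M q.b
  · obtain ⟨y, hy⟩ := h
    by_cases hy2 : ∃ j < q.k, q.b j = y
    · obtain ⟨j, hj, rfl⟩ := hy2
      refine ⟨q, max n (N + 1), le_max_left _ _, hq.leN n, ?_, hf, Or.inr ⟨j, hj, ?_⟩⟩
      · exact lt_of_lt_of_le (Nat.lt_succ_self N) (le_max_right _ _)
      · refine (hR q.M _ _ fun i hi => ?_).1 hy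
        by_cases hk : i = k
        · subst hk; simp
        · rw [Function.update_of_ne hk, Function.update_of_ne hk]
    · push Not at hy2
      let q' : Cd := ⟨q.M, q.pa, Function.update q.b q.k y, q.k + 1, by
        intro i hi j hj hij
        by_cases h1 : i = q.k
        · by_cases h2 : j = q.k
          · omega
          · rw [h1, Function.update_self, Function.update_of_ne h2] at hij
            exact absurd hij.symm (hy2 j (by omega))
        · by_cases h2 : j = q.k
          · rw [h2, Function.update_self, Function.update_of_ne h1] at hij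
            exact absurd hij (hy2 i (by omega))
          · rw [Function.update_of_ne h1, Function.update_of_ne h2] at hij
            exact q.inj i (by omega) j (by omega) hij⟩
      have hq' : Le q' q := ⟨Nat.le_succ _, AgU.of_eq fun i hi => by
        show q.b i = Function.update q.b q.k y i
        rw [Function.update_of_ne (by omega)]⟩
      refine ⟨q', max n (N + 1), le_max_left _ _, (hq'.trans hq).leN n, ?_, fun i hi => ?_,
        Or.inr ⟨q.k, Nat.lt_succ_self _, ?_⟩⟩
      · exact lt_of_lt_of_le (Nat.lt_succ_self N) (le_max_right _ _)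
      · exact (hf i hi).trans (Nat.lt_succ_self _)
      · refine (hR q.M _ _ fun i hi => ?_).1 hy
        show _ = Function.update q.b q.k y (Function.update f k q.k i)
        by_cases hk : i = k
        · subst hk; simp
        · rw [Function.update_of_ne hk, Function.update_of_ne hk, Function.update_of_ne]
          have := hf i hi
          omega
  · refine ⟨q, max n (N + 1), le_max_left _ _, hq.leN n, ?_, hf, Or.inl h⟩
    exact lt_of_lt_of_le (Nat.lt_succ_self N) (le_max_right _ _)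

/-! #### the sequence -/

/-- pairs of a condition and a level -/
abbrev CN : Type 1 := Cd × ℕ

/-- the sequence meeting the requirements -/
noncomputable def sq (r : ℕ → Rq) (hr : ∀ i, Dense (r i)) (p0 : Cd) (n0 : ℕ) : ℕ → CN
  | 0 => (p0, n0)
  | i + 1 =>
    ((hr i (sq r hr p0 n0 i).1 (sq r hr p0 n0 i).2).choose,
      (hr i (sq r hr p0 n0 i).1 (sq r hr p0 n0 i).2).choose_spec.choose)

theorem sq_spec (r : ℕ → Rq) (hr : ∀ i, Dense (r i)) (p0 : Cd) (n0 : ℕ) (i : ℕ) :
    (sq r hr p0 n0 i).2 ≤ (sq r hr p0 n0 (i + 1)).2 ∧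
    LeN (sq r hr p0 n0 i).2 (sq r hr p0 n0 (i + 1)).1 (sq r hr p0 n0 i).1 ∧
    r i (sq r hr p0 n0 (i + 1)).1 (sq r hr p0 n0 (i + 1)).2 :=
  (hr i (sq r hr p0 n0 i).1 (sq r hr p0 n0 i).2).choose_spec.choose_spec

/-- A generic sequence meeting countably many requirements. -/
theorem exists_gseq {ι : Type} [Encodable ι] [Nonempty ι] (r : ι → Rq) (hr : ∀ i, Dense (r i)) (p0 : Cd)
    (n0 : ℕ) : ∃ G : GSeq, G.p 0 = p0 ∧ G.n 0 = n0 ∧ ∀ i, ∃ s, r i (G.p s) (G.n s) := by
  let r' : ℕ → Rq := fun j =>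
    match (Encodable.decode j : Option (ι ⊕ ℕ)) with
    | none => fun _ _ => True
    | some (Sum.inl i) => r i
    | some (Sum.inr N) => fun p n => N ≤ p.k ∧ N ≤ n
  have hr' : ∀ j, Dense (r' j) := by
    intro j
    simp only [r']
    cases (Encodable.decode j : Option (ι ⊕ ℕ)) with
    | none => exact fun p n => ⟨p, n, le_rfl, LeN.refl _ _, trivial⟩
    | some x =>
      cases x with
      | inl i => exact hr i
      | inr N => exact dense_big N
  have h1 : ∀ x : ι ⊕ ℕ, r' (Encodable.encode x) = match x with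
      | Sum.inl i => r i
      | Sum.inr N => fun p n => N ≤ p.k ∧ N ≤ n := by
    intro x
    simp only [r', Encodable.encodek]
    cases x <;> rfl
  have hsp := sq_spec r' hr' p0 n0
  refine ⟨⟨fun i => (sq r' hr' p0 n0 i).1, fun i => (sq r' hr' p0 n0 i).2, fun i => (hsp i).1,
    fun i => (hsp i).2.1, fun N => ?_⟩, rfl, rfl, fun i => ?_⟩
  · refine ⟨Encodable.encode (Sum.inr N : ι ⊕ ℕ) + 1, ?_⟩
    have := (hsp (Encodable.encode (Sum.inr N : ι ⊕ ℕ))).2.2
    rw [h1] at this
    exact this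
  · refine ⟨Encodable.encode (Sum.inl i : ι ⊕ ℕ) + 1, ?_⟩
    have := (hsp (Encodable.encode (Sum.inl i : ι ⊕ ℕ))).2.2
    rw [h1] at this
    exact this

/-! #### the limit -/

/-- index type of the basic requirements: all `(N, u)`, lists and variables -/
abbrev WI : Type := (ℕ × ℕ) × (List ℕ × ℕ)

/-- basic requirement with given index -/
def wr (i : WI) : Rq := witR (Ev i.1.1 i.1.2) i.1.1 i.1.2 (fun j => i.2.1.getD j 0) i.2.2

theorem wr_dense (i : WI) : Dense (wr i) := dense_wit (Ev_supp _ _) _ _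

theorem GSeq.henkin (G : GSeq) (h : ∀ i : WI, ∃ s, wr i (G.p s) (G.n s)) :
    Henkin (K := fun t => (G.p t).M) fun t => (G.p t).b := by
  rintro R ⟨N, hR⟩ f k
  obtain ⟨u, rfl⟩ := hier_iff.1 hR
  have hs := Ev_supp N u
  -- replace `f` by a list
  let l : List ℕ := (List.range u).map f
  have hl : ∀ i < u, l.getD i 0 = f i := by
    intro i hi
    simp [l, List.getD, hi]
  have e1 : ∀ (M : Type) [LA.Structure M] (x : ℕ → M) (y : M),
      (Ev N u M (Function.update (fun i => x (f i)) k y) ↔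
      Ev N u M (Function.update (fun i => x (l.getD i 0)) k y)) := by
    intro M _ x y
    refine hs M _ _ fun i hi => ?_
    by_cases hk : i = k
    · subst hk; simp
    · rw [Function.update_of_ne hk, Function.update_of_ne hk, hl i hi]
  obtain ⟨s, h1, h2, h3⟩ := h ((N, u), (l, k))
  dsimp only at h1 h2 h3
  rcases h3 with h3 | ⟨j, hj, h3⟩
  · refine Or.inl ⟨s, fun t ht hc => h3 ?_⟩
    have h4 := (G.leN ht).2 (exP (Ev N u) (fun j => l.getD j 0) k)
      (Hier.mono Clop.base (exP_hier (Ev_hier N u) _ _) h1) (exP_supp hs h2)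
    rw [h4]
    obtain ⟨y, hy⟩ := hc
    exact ⟨y, (e1 _ _ _).1 hy⟩
  · refine Or.inr ⟨j, s, fun t ht => ?_⟩
    have h4 := (G.leN ht).2 (reP (Ev N u) (fun j => l.getD j 0) k j)
      (Hier.mono Clop.base (reP_hier (Ev_hier N u) _ _ _) (by omega)) (reP_supp hs h2 hj)
    have h5 := h4.1 h3
    rw [e1]
    refine (hs _ _ _ fun i hi => ?_).1 h5
    by_cases hk : i = k
    · subst hk; simp
    · rw [Function.update_of_ne hk, Function.update_of_ne hk]

/-- The limit structure of a generic sequence. -/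
theorem GSeq.limit (G : GSeq) (h : ∀ i : WI, ∃ s, wr i (G.p s) (G.n s)) :
    ∃ A : LA.Structure ℕ, (@D ℕ A id = G.X) ∧
      ∀ R : Pr, HierU Clop R → ∀ f : ℕ → ℕ,
        (@R ℕ A f ↔ ∀ᶠ t in (UF : Filter ℕ), R (G.p t).M (fun i => (G.p t).b (f i))) := by
  obtain ⟨A, hA⟩ := limit_str (G.henkin h) (by
    intro i j hij
    obtain ⟨s, h1, -⟩ := G.big (i + j + 1)
    refine (uf_ge s).mono fun t ht hc => hij ?_
    have h2 := (G.leN ht).1
    exact (G.p t).inj i (by omega) j (by omega) hc)
  refine ⟨A, ?_, hA⟩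
  funext p
  have h1 := hA _ ⟨0, hier_D p⟩ id
  obtain ⟨s, h2, -⟩ := G.big (p + 1)
  have h3 : ∀ᶠ t in (UF : Filter ℕ), (D (fun i => (G.p t).b (id i)) p = true ↔ G.X p = true) :=
    (uf_ge s).mono fun t ht => by
      have h4 := (G.leN ht).1
      rw [G.X_eq (s := t) (by omega)]
      rfl
  rw [Filter.eventually_congr h3, Filter.eventually_const] at h1
  rw [Bool.eq_iff_iff]
  exact h1

/-- truth of first-order properties in the limit -/
theorem limit_FO {G : GSeq} {A : LA.Structure ℕ}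
    (hA : ∀ R : Pr, HierU Clop R → ∀ f : ℕ → ℕ,
        (@R ℕ A f ↔ ∀ᶠ t in (UF : Filter ℕ), R (G.p t).M (fun i => (G.p t).b (f i))))
    {X : Sn} {N s : ℕ} (hX : Hier Clop N (fun M _ _ => X M)) (hs : N ≤ G.n s) :
    @X ℕ A ↔ X (G.p s).M := by
  have h1 := hA _ ⟨N, hX⟩ id
  have h2 : ∀ᶠ t in (UF : Filter ℕ), (X (G.p t).M ↔ X (G.p s).M) :=
    (uf_ge s).mono fun t ht => by
      have h3 := (G.leN ht).2.mono hs (Nat.zero_le _)
      exact (h3 _ hX (fun M _ x y _ => Iff.rfl)).symm
  rw [Filter.eventually_congr h2, Filter.eventually_const] at h1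
  exact h1

theorem limit_model {G : GSeq} {A : LA.Structure ℕ}
    (hA : ∀ R : Pr, HierU Clop R → ∀ f : ℕ → ℕ,
        (@R ℕ A f ↔ ∀ᶠ t in (UF : Filter ℕ), R (G.p t).M (fun i => (G.p t).b (f i)))) :
    @PAc ℕ A := by
  let _ := A
  refine ⟨⟨fun φ hφ => ?_⟩, fun n u x => ?_⟩
  · refine (hA _ (sentence_hier φ) id).2 ?_
    exact Filter.Eventually.of_forall fun t => (G.p t).pa.1.realize_of_mem φ hφ
  · refine (hA _ (lnpP_hier ⟨n, Ev_hier n u⟩) x).2 ?_
    exact Filter.Eventually.of_forall fun t => (G.p t).pa.2 n u _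

end Pool.Agent.H646R2.SV
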