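import Pool.Agent.Helper227.EN.Alg

/-!
Uniform predicates of sequences of elements of structures of the language of arithmetic, and
hierarchies built from a base class by blocks of quantifiers.
-/

set_option autoImplicit false
set_option linter.unusedVariables false

open FirstOrder FirstOrder.Language Pool.Agent.Helper227.EN

namespace Pool.Agent.H646R2.SV

/-- Predicates of a sequence of elements, defined for all structures. -/
abbrev Pr : Type 1 := ∀ (M : Type) [LA.Structure M], (ℕ → M) → Prop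

/-- The predicate only depends on the first `s` entries. -/
def Supp (s : ℕ) (R : Pr) : Prop :=
  ∀ (M : Type) [LA.Structure M] (x y : ℕ → M), (∀ i < s, x i = y i) → (R M x ↔ R M y)

theorem Supp.mono {s t : ℕ} {R : Pr} (h : Supp s R) (hst : s ≤ t) : Supp t R :=
  fun M _ x y hxy => h M x y fun i hi => hxy i (by omega)

theorem Supp.not {s : ℕ} {R : Pr} (h : Supp s R) : Supp s (fun M _ x => ¬ R M x) :=
  fun M _ x y hxy => not_congr (h M x y hxy)

theorem pr_ext {R S : Pr} (h : ∀ (M : Type) [LA.Structure M] (x : ℕ → M), R M x ↔ S M x) : R = S := by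
  funext M _ x
  exact propext (h M x)

/-- Closure properties of a base class. -/
structure Base (B : Pr → Prop) : Prop where
  not : ∀ {R}, B R → B (fun M _ x => ¬ R M x)
  and : ∀ {R S}, B R → B S → B (fun M _ x => R M x ∧ S M x)
  ren : ∀ {R} (σ : ℕ → ℕ), B R → B (fun M _ x => R M (fun i => x (σ i)))
  supp : ∀ {R}, B R → ∃ s, Supp s R

/-- The hierarchy: level `n + 1` consists of the block existential quantifications of negations
of predicates of level `n`. -/
def Hier (B : Pr → Prop) : ℕ → Pr → Prop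
  | 0, R => B R
  | n + 1, R => ∃ (Q : Pr) (k : ℕ), Hier B n Q ∧
      R = fun (M : Type) [LA.Structure M] (x : ℕ → M) =>
        ∃ x' : ℕ → M, (∀ i < k, x' i = x i) ∧ ¬ Q M x'

theorem Hier.congr {B : Pr → Prop} {n : ℕ} {R S : Pr} (h : Hier B n R)
    (e : ∀ (M : Type) [LA.Structure M] (x : ℕ → M), R M x ↔ S M x) : Hier B n S := by
  rw [← pr_ext e]; exact h

theorem Hier.mk {B : Pr → Prop} {n : ℕ} {Q R : Pr} (h : Hier B n Q) (k : ℕ)
    (e : ∀ (M : Type) [LA.Structure M] (x : ℕ → M), R M x ↔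
      ∃ x' : ℕ → M, (∀ i < k, x' i = x i) ∧ ¬ Q M x') : Hier B (n + 1) R :=
  ⟨Q, k, h, pr_ext e⟩

section
variable {B : Pr → Prop} (hB : Base B)
include hB

theorem Hier.supp {n : ℕ} {R : Pr} (h : Hier B n R) : ∃ s, Supp s R := by
  cases n with
  | zero => exact hB.supp h
  | succ n =>
    obtain ⟨Q, k, -, rfl⟩ := h
    refine ⟨k, fun M _ x y hxy => ?_⟩
    constructor
    · rintro ⟨x', h1, h2⟩
      exact ⟨x', fun i hi => (h1 i hi).trans (hxy i hi), h2⟩
    · rintro ⟨x', h1, h2⟩
      exact ⟨x', fun i hi => (h1 i hi).trans (hxy i hi).symm, h2⟩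

omit hB in
theorem blk_ren {M : Type} (P : (ℕ → M) → Prop) (k : ℕ) (σ : ℕ → ℕ) (x : ℕ → M) :
    ∃ K, ∀ K' ≥ K, ((∃ x' : ℕ → M, (∀ i < k, x' i = x (σ i)) ∧ P x') ↔
      ∃ y : ℕ → M, (∀ i < K', y i = x i) ∧ P (fun i => y (if i < k then σ i else K' + i))) := by
  refine ⟨∑ i ∈ Finset.range k, (σ i + 1), fun K' hK' => ?_⟩
  have hσ : ∀ i < k, σ i < K' := by
    intro i hi
    have := Finset.single_le_sum (f := fun i => σ i + 1) (fun _ _ => Nat.zero_le _)
      (Finset.mem_range.2 hi)
    omega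
  constructor
  · rintro ⟨x', h1, h2⟩
    refine ⟨fun i => if i < K' then x i else x' (i - K'), fun i hi => by simp [hi], ?_⟩
    convert h2 using 1
    funext i
    by_cases hi : i < k
    · simp only [hi, if_true, hσ i hi]
      exact (h1 i hi).symm
    · simp [hi]
  · rintro ⟨y, h1, h2⟩
    refine ⟨_, fun i hi => ?_, h2⟩
    simp only [hi, if_true]
    exact h1 _ (hσ i hi)

theorem Hier.ren {n : ℕ} {R : Pr} (h : Hier B n R) (σ : ℕ → ℕ) :
    Hier B n (fun M _ x => R M (fun i => x (σ i))) := by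
  induction n generalizing R σ with
  | zero => exact hB.ren σ h
  | succ n ih =>
    obtain ⟨Q, k, hQ, rfl⟩ := h
    let K := ∑ i ∈ Finset.range k, (σ i + 1)
    have hσ : ∀ i < k, σ i < K := by
      intro i hi
      have := Finset.single_le_sum (f := fun i => σ i + 1) (fun _ _ => Nat.zero_le _)
        (Finset.mem_range.2 hi)
      show σ i < ∑ i ∈ Finset.range k, (σ i + 1)
      omega
    refine Hier.mk (ih hQ (fun i => if i < k then σ i else K + i)) K fun M _ x => ?_
    constructor
    · rintro ⟨x', h1, h2⟩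
      refine ⟨fun i => if i < K then x i else x' (i - K), fun i hi => by simp [hi], ?_⟩
      convert h2 using 2
      funext i
      by_cases hi : i < k
      · simp only [hi, if_true, hσ i hi]
        exact (h1 i hi).symm
      · simp [hi]
    · rintro ⟨y, h1, h2⟩
      refine ⟨fun i => y (if i < k then σ i else K + i), fun i hi => ?_, h2⟩
      simp only [hi, if_true]
      exact h1 _ (hσ i hi)

omit hB in
theorem blk_two {M : Type} (P1 P2 : (ℕ → M) → Prop) (k1 k2 : ℕ) (x : ℕ → M) :
    ((∃ x' : ℕ → M, (∀ i < k1, x' i = x i) ∧ P1 x') ∧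
      (∃ x' : ℕ → M, (∀ i < k2, x' i = x i) ∧ P2 x')) ↔
    ∃ y : ℕ → M, (∀ i < max k1 k2, y i = x i) ∧
      P1 (fun i => y (if i < k1 then i else max k1 k2 + 2 * i)) ∧
      P2 (fun i => y (if i < k2 then i else max k1 k2 + (2 * i + 1))) := by
  constructor
  · rintro ⟨⟨x1, h1, h2⟩, x2, h3, h4⟩
    refine ⟨fun i => if i < max k1 k2 then x i else
      if (i - max k1 k2) % 2 = 0 then x1 ((i - max k1 k2) / 2) else x2 ((i - max k1 k2) / 2),
      fun i hi => by simp only [hi, if_true], ?_, ?_⟩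
    · convert h2 using 1
      funext i
      by_cases hi : i < k1
      · have : i < max k1 k2 := lt_max_of_lt_left hi
        simp only [hi, if_true, this]
        exact (h1 i hi).symm
      · have e1 : ¬ (max k1 k2 + 2 * i < max k1 k2) := by omega
        have e2 : (max k1 k2 + 2 * i - max k1 k2) = 2 * i := by omega
        simp only [hi, if_false, e1, e2]
        have e3 : 2 * i % 2 = 0 := by omega
        have e4 : 2 * i / 2 = i := by omega
        simp only [e3, if_true, e4]
    · convert h4 using 1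
      funext i
      by_cases hi : i < k2
      · have : i < max k1 k2 := lt_max_of_lt_right hi
        simp only [hi, if_true, this]
        exact (h3 i hi).symm
      · have e1 : ¬ (max k1 k2 + (2 * i + 1) < max k1 k2) := by omega
        have e2 : (max k1 k2 + (2 * i + 1) - max k1 k2) = 2 * i + 1 := by omega
        simp only [hi, if_false, e1, e2]
        have e3 : ¬ ((2 * i + 1) % 2 = 0) := by omega
        have e4 : (2 * i + 1) / 2 = i := by omega
        simp only [e3, if_false, e4]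
  · rintro ⟨y, h1, h2, h3⟩
    refine ⟨⟨_, fun i hi => ?_, h2⟩, ⟨_, fun i hi => ?_, h3⟩⟩
    · simp only [hi, if_true]
      exact h1 i (lt_max_of_lt_left hi)
    · simp only [hi, if_true]
      exact h1 i (lt_max_of_lt_right hi)

omit hB in
theorem blk_two_or {M : Type} (P1 P2 : (ℕ → M) → Prop) (k1 k2 : ℕ) (x : ℕ → M) :
    ((∃ x' : ℕ → M, (∀ i < k1, x' i = x i) ∧ P1 x') ∨
      (∃ x' : ℕ → M, (∀ i < k2, x' i = x i) ∧ P2 x')) ↔
    ∃ y : ℕ → M, (∀ i < max k1 k2, y i = x i) ∧
      (P1 (fun i => y (if i < k1 then i else max k1 k2 + 2 * i)) ∨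
      P2 (fun i => y (if i < k2 then i else max k1 k2 + (2 * i + 1)))) := by
  constructor
  · rintro (h | h)
    · obtain ⟨y, h1, h2, h3⟩ := (blk_two P1 (fun _ => True) k1 k2 x).1 ⟨h, x, fun _ _ => rfl, trivial⟩
      exact ⟨y, h1, Or.inl h2⟩
    · obtain ⟨y, h1, h2, h3⟩ := (blk_two (fun _ => True) P2 k1 k2 x).1 ⟨⟨x, fun _ _ => rfl, trivial⟩, h⟩
      exact ⟨y, h1, Or.inr h3⟩
  · rintro ⟨y, h1, h2 | h3⟩
    · exact Or.inl ((blk_two P1 (fun _ => True) k1 k2 x).2 ⟨y, h1, h2, trivial⟩).1
    · exact Or.inr ((blk_two (fun _ => True) P2 k1 k2 x).2 ⟨y, h1, trivial, h3⟩).2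

theorem Base.or {R S : Pr} (h1 : B R) (h2 : B S) : B (fun M _ x => R M x ∨ S M x) := by
  have := hB.not (hB.and (hB.not h1) (hB.not h2))
  have e : (fun (M : Type) [LA.Structure M] (x : ℕ → M) => R M x ∨ S M x) =
      fun (M : Type) [LA.Structure M] (x : ℕ → M) => ¬ (¬ R M x ∧ ¬ S M x) :=
    pr_ext fun M _ x => by tauto
  rwa [e]

theorem Hier.andor {n : ℕ} {R S : Pr} (h1 : Hier B n R) (h2 : Hier B n S) :
    Hier B n (fun M _ x => R M x ∧ S M x) ∧ Hier B n (fun M _ x => R M x ∨ S M x) := by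
  induction n generalizing R S with
  | zero => exact ⟨hB.and h1 h2, Base.or hB h1 h2⟩
  | succ n ih =>
    obtain ⟨Q1, k1, hQ1, rfl⟩ := h1
    obtain ⟨Q2, k2, hQ2, rfl⟩ := h2
    have e1 := Hier.ren hB hQ1 (fun i => if i < k1 then i else max k1 k2 + 2 * i)
    have e2 := Hier.ren hB hQ2 (fun i => if i < k2 then i else max k1 k2 + (2 * i + 1))
    obtain ⟨ha, ho⟩ := ih e1 e2
    refine ⟨Hier.mk ho (max k1 k2) fun M _ x => ?_, Hier.mk ha (max k1 k2) fun M _ x => ?_⟩
    · rw [blk_two]
      simp only [not_or]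
    · rw [blk_two_or]
      simp only [not_and_or]

theorem Hier.and {n : ℕ} {R S : Pr} (h1 : Hier B n R) (h2 : Hier B n S) :
    Hier B n (fun M _ x => R M x ∧ S M x) := (Hier.andor hB h1 h2).1

theorem Hier.or {n : ℕ} {R S : Pr} (h1 : Hier B n R) (h2 : Hier B n S) :
    Hier B n (fun M _ x => R M x ∨ S M x) := (Hier.andor hB h1 h2).2

theorem Hier.neg {n : ℕ} {R : Pr} (h : Hier B n R) : Hier B (n + 1) (fun M _ x => ¬ R M x) := by
  obtain ⟨s, hs⟩ := Hier.supp hB h
  refine Hier.mk h s fun M _ x => ?_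
  constructor
  · intro h; exact ⟨x, fun _ _ => rfl, h⟩
  · rintro ⟨x', h1, h2⟩; rwa [hs M x' x h1] at h2

theorem Hier.lift {n : ℕ} {R : Pr} (h : Hier B n R) : Hier B (n + 1) R := by
  induction n generalizing R with
  | zero =>
    have h0 : Hier B 0 (fun M _ x => ¬ R M x) := hB.not h
    exact (Hier.neg hB h0).congr fun M _ x => by tauto
  | succ n ih =>
    obtain ⟨Q, k, hQ, rfl⟩ := h
    exact Hier.mk (ih hQ) k fun M _ x => Iff.rfl

theorem Hier.mono {n m : ℕ} {R : Pr} (h : Hier B n R) (hnm : n ≤ m) : Hier B m R := by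
  induction m, hnm using Nat.le_induction with
  | base => exact h
  | succ m _ ih => exact Hier.lift hB ih

omit hB in
theorem Hier.blk {n : ℕ} {R : Pr} (h : Hier B (n + 1) R) (k : ℕ) :
    Hier B (n + 1) (fun M _ x => ∃ x' : ℕ → M, (∀ i < k, x' i = x i) ∧ R M x') := by
  obtain ⟨Q, k', hQ, rfl⟩ := h
  refine Hier.mk hQ (min k k') fun M _ x => ?_
  constructor
  · rintro ⟨x', h1, x'', h2, h3⟩
    exact ⟨x'', fun i hi => (h2 i (by omega)).trans (h1 i (by omega)), h3⟩
  · rintro ⟨x'', h1, h2⟩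
    refine ⟨fun i => if i < k' then x'' i else x i, fun i hi => ?_, x'', fun i hi => ?_, h2⟩
    · by_cases h : i < k'
      · simp only [h, if_true]; exact h1 i (by omega)
      · simp only [h, if_false]
    · simp only [hi, if_true]

/-- Existential quantification of the variable number `K`. -/
theorem Hier.exv {n : ℕ} {R : Pr} (h : Hier B (n + 1) R) (K : ℕ) :
    Hier B (n + 1) (fun M _ x => ∃ y, R M (Function.update x K y)) := by
  obtain ⟨s, hs⟩ := Hier.supp hB h
  have h1 := Hier.blk (Hier.ren hB h (fun i => if i = K then s + K + 1 else i)) (s + K + 1)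
  refine h1.congr fun M _ x => ?_
  constructor
  · rintro ⟨x', h1, h2⟩
    refine ⟨x' (s + K + 1), (hs M _ _ fun i hi => ?_).1 h2⟩
    by_cases hK : i = K
    · simp [hK]
    · rw [Function.update_of_ne hK]
      simp only [hK, if_false]
      exact h1 i (by omega)
  · rintro ⟨y, h⟩
    refine ⟨fun i => if i < s + K + 1 then x i else y, fun i hi => by simp [hi],
      (hs M _ _ fun i hi => ?_).1 h⟩
    by_cases hK : i = K
    · simp [hK]
    · rw [Function.update_of_ne hK]
      have e : i < s + K + 1 := by omega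
      simp only [hK, if_false, e, if_true]

/-- Existential quantification, the quantified variable having a name. -/
theorem Hier.ex {n : ℕ} (Q : ∀ (M : Type) [LA.Structure M], (ℕ → M) → M → Prop) (K : ℕ)
    (hK : ∀ (M : Type) [LA.Structure M] (x : ℕ → M) (y v : M),
      Q M (Function.update x K v) y ↔ Q M x y)
    (h : Hier B (n + 1) (fun M _ x => Q M x (x K))) :
    Hier B (n + 1) (fun M _ x => ∃ y, Q M x y) := by
  refine (Hier.exv hB h K).congr fun M _ x => exists_congr fun y => ?_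
  rw [Function.update_self, hK]

end

/-- Some level of the hierarchy. -/
def HierU (B : Pr → Prop) (R : Pr) : Prop := ∃ n, Hier B n R

section
variable {B : Pr → Prop} (hB : Base B)
include hB

theorem HierU.not {R : Pr} (h : HierU B R) : HierU B (fun M _ x => ¬ R M x) := by
  obtain ⟨n, h⟩ := h
  exact ⟨n + 1, Hier.neg hB h⟩

theorem HierU.and {R S : Pr} (h1 : HierU B R) (h2 : HierU B S) :
    HierU B (fun M _ x => R M x ∧ S M x) := by
  obtain ⟨n, h1⟩ := h1
  obtain ⟨m, h2⟩ := h2
  exact ⟨max n m, Hier.and hB (Hier.mono hB h1 (le_max_left _ _)) (Hier.mono hB h2 (le_max_right _ _))⟩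

theorem HierU.or {R S : Pr} (h1 : HierU B R) (h2 : HierU B S) :
    HierU B (fun M _ x => R M x ∨ S M x) := by
  obtain ⟨n, h1⟩ := h1
  obtain ⟨m, h2⟩ := h2
  exact ⟨max n m, Hier.or hB (Hier.mono hB h1 (le_max_left _ _)) (Hier.mono hB h2 (le_max_right _ _))⟩

theorem HierU.ren {R : Pr} (h : HierU B R) (σ : ℕ → ℕ) :
    HierU B (fun M _ x => R M (fun i => x (σ i))) := by
  obtain ⟨n, h⟩ := h
  exact ⟨n, Hier.ren hB h σ⟩

theorem HierU.exv {R : Pr} (h : HierU B R) (K : ℕ) :
    HierU B (fun M _ x => ∃ y, R M (Function.update x K y)) := by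
  obtain ⟨n, h⟩ := h
  exact ⟨n + 1, Hier.exv hB (Hier.lift hB h) K⟩

theorem HierU.ex (Q : ∀ (M : Type) [LA.Structure M], (ℕ → M) → M → Prop) (K : ℕ)
    (hK : ∀ (M : Type) [LA.Structure M] (x : ℕ → M) (y v : M),
      Q M (Function.update x K v) y ↔ Q M x y)
    (h : HierU B (fun M _ x => Q M x (x K))) :
    HierU B (fun M _ x => ∃ y, Q M x y) := by
  obtain ⟨n, h⟩ := h
  exact ⟨n + 1, Hier.ex hB Q K hK (Hier.lift hB h)⟩

theorem HierU.supp {R : Pr} (h : HierU B R) : ∃ s, Supp s R := by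
  obtain ⟨n, h⟩ := h
  exact Hier.supp hB h

omit hB in
theorem HierU.congr {R S : Pr} (h : HierU B R)
    (e : ∀ (M : Type) [LA.Structure M] (x : ℕ → M), R M x ↔ S M x) : HierU B S := by
  rw [← pr_ext e]; exact h

end

/-- A level of the hierarchy over a smaller base is contained in the level over a larger base. -/
theorem Hier.base_mono {B B' : Pr → Prop} (hBB : ∀ R, B R → B' R) {n : ℕ} {R : Pr}
    (h : Hier B n R) : Hier B' n R := by
  induction n generalizing R with
  | zero => exact hBB R h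
  | succ n ih =>
    obtain ⟨Q, k, hQ, rfl⟩ := h
    exact ⟨Q, k, ih hQ, rfl⟩

end Pool.Agent.H646R2.SV
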