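import Pool.Agent.H646R2.SV.Ult

/-!
The structure with universe `ℕ` defined as a limit of enumerations of structures.
-/

set_option autoImplicit false
set_option linter.unusedVariables false

open FirstOrder FirstOrder.Language Pool.Agent.Helper227.EN

namespace Pool.Agent.H646R2.SV

section
variable {K : ℕ → Type} [∀ t, LA.Structure (K t)]

/-- Henkin property of a sequence of enumerations -/
def Henkin (β : ∀ t, ℕ → K t) : Prop :=
  ∀ R : Pr, HierU Clop R → ∀ (f : ℕ → ℕ) (k : ℕ),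
    (∃ s, ∀ t ≥ s, ¬ ∃ y : K t, R (K t) (Function.update (fun i => β t (f i)) k y)) ∨
    (∃ j s, ∀ t ≥ s, R (K t) (Function.update (fun i => β t (f i)) k (β t j)))

variable {β : ∀ t, ℕ → K t}

omit [∀ t, LA.Structure (K t)] in
theorem upd_beta (f : ℕ → ℕ) (k j : ℕ) (t : ℕ) :
    Function.update (fun i => β t (f i)) k (β t j) = fun i => β t (Function.update f k j i) := by
  funext i
  by_cases h : i = k
  · subst h; simp
  · rw [Function.update_of_ne h, Function.update_of_ne h]

theorem Henkin.ex (hβ : Henkin β) {R : Pr} (hR : HierU Clop R) (f : ℕ → ℕ) (k : ℕ)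
    (h : ∀ᶠ t in (UF : Filter ℕ), ∃ y : K t, R (K t) (Function.update (fun i => β t (f i)) k y)) :
    ∃ j, ∀ᶠ t in (UF : Filter ℕ), R (K t) (fun i => β t (Function.update f k j i)) := by
  rcases hβ R hR f k with ⟨s, hs⟩ | ⟨j, s, hs⟩
  · exfalso
    obtain ⟨t, h1, h2⟩ := ((uf_ge s).and h).exists
    exact hs t h1 h2
  · refine ⟨j, (uf_ge s).mono fun t ht => ?_⟩
    have := hs t ht
    rwa [upd_beta] at this

theorem exists_val (hβ : Henkin β) (c i j : ℕ)
    (hc : ∀ t, ∃ y : K t, fact4 (fun n => if n = 0 then β t i else if n = 1 then β t j else y) c 0 1 2) :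
    ∃ l, ∀ᶠ t in (UF : Filter ℕ), fact4 (β t) c i j l := by
  obtain ⟨l, hl⟩ := hβ.ex (fact_hier c 0 1 2) (fun n => if n = 0 then i else j) 2
    (Filter.Eventually.of_forall fun t => by
      obtain ⟨y, hy⟩ := hc t
      refine ⟨y, (fact4_congr ?_ ?_ ?_).1 hy⟩ <;> simp)
  refine ⟨l, hl.mono fun t ht => ?_⟩
  unfold fact4 at ht ⊢
  simpa using ht

theorem exists_val1 (hβ : Henkin β) (c : ℕ)
    (hc : ∀ t, ∃ y : K t, fact4 (fun n => y) c 0 0 0) :
    ∃ l, ∀ᶠ t in (UF : Filter ℕ), fact4 (β t) c l l l := by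
  obtain ⟨l, hl⟩ := hβ.ex (fact_hier c 0 0 0) (fun n => 0) 0
    (Filter.Eventually.of_forall fun t => by
      obtain ⟨y, hy⟩ := hc t
      refine ⟨y, (fact4_congr ?_ ?_ ?_).1 hy⟩ <;> simp)
  refine ⟨l, hl.mono fun t ht => ?_⟩
  unfold fact4 at ht ⊢
  simpa using ht

/-- block quantifiers are iterated quantifiers -/
theorem blk_step {M : Type} (P : (ℕ → M) → Prop) (k : ℕ) (x : ℕ → M) :
    (∃ x' : ℕ → M, (∀ i < k, x' i = x i) ∧ P x') ↔
      ∃ y, ∃ x' : ℕ → M, (∀ i < k + 1, x' i = Function.update x k y i) ∧ P x' := by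
  constructor
  · rintro ⟨x', h1, h2⟩
    refine ⟨x' k, x', fun i hi => ?_, h2⟩
    by_cases h : i = k
    · subst h; simp
    · rw [Function.update_of_ne h]; exact h1 i (by omega)
  · rintro ⟨y, x', h1, h2⟩
    refine ⟨x', fun i hi => ?_, h2⟩
    rw [h1 i (by omega), Function.update_of_ne (by omega)]

theorem Henkin.blk (hβ : Henkin β) {Q : Pr} (hQ : HierU Clop Q) (d : ℕ) : ∀ (k : ℕ),
    Supp (k + d) Q → ∀ f : ℕ → ℕ,
    (∀ᶠ t in (UF : Filter ℕ), ∃ x' : ℕ → K t, (∀ i < k, x' i = β t (f i)) ∧ ¬ Q (K t) x') →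
    ∃ f' : ℕ → ℕ, (∀ i < k, f' i = f i) ∧ ∀ᶠ t in (UF : Filter ℕ), ¬ Q (K t) (fun i => β t (f' i)) := by
  induction d with
  | zero =>
    intro k hs f h
    refine ⟨f, fun _ _ => rfl, h.mono fun t ht => ?_⟩
    obtain ⟨x', h1, h2⟩ := ht
    rwa [hs (K t) x' (fun i => β t (f i)) (fun i hi => h1 i (by omega))] at h2
  | succ d ih =>
    intro k hs f h
    have hR : HierU Clop (fun M _ x => ∃ x' : ℕ → M, (∀ i < k + 1, x' i = x i) ∧ ¬ Q M x') := by
      obtain ⟨n, hn⟩ := hQ
      exact ⟨n + 1, Q, k + 1, hn, rfl⟩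
    obtain ⟨j, hj⟩ := hβ.ex hR f k (h.mono fun t ht => (blk_step (fun x => ¬ Q (K t) x) k _).1 ht)
    obtain ⟨f', h1, h2⟩ := ih (k + 1) (by rwa [show k + 1 + d = k + (d + 1) by omega])
      (Function.update f k j) hj
    refine ⟨f', fun i hi => ?_, h2⟩
    rw [h1 i (by omega), Function.update_of_ne (by omega)]

/-- The limit structure. -/
theorem limit_str (hβ : Henkin β) (hinj : ∀ i j, i ≠ j → ∀ᶠ t in (UF : Filter ℕ), β t i ≠ β t j) :
    ∃ A : LA.Structure ℕ, ∀ R : Pr, HierU Clop R → ∀ f : ℕ → ℕ,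
      (@R ℕ A f ↔ ∀ᶠ t in (UF : Filter ℕ), R (K t) (fun i => β t (f i))) := by
  classical
  have huniq : ∀ (P : (t : ℕ) → K t → Prop) (a b : ℕ), (∀ t y z, P t y → P t z → y = z) →
      (∀ᶠ t in (UF : Filter ℕ), P t (β t a)) → (∀ᶠ t in (UF : Filter ℕ), P t (β t b)) → a = b := by
    intro P a b hP h1 h2
    by_contra hab
    obtain ⟨t, h3, h4, h5⟩ := (hinj a b hab |>.and (h1.and h2)).exists
    exact h3 (hP t _ _ h4 h5)
  have hadd : ∀ i j, ∃ l, ∀ᶠ t in (UF : Filter ℕ), fact4 (β t) 0 i j l := fun i j =>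
    exists_val hβ 0 i j fun t => ⟨Structure.funMap (L := LA) AF.add ![β t i, β t j], by simp [fact4]⟩
  have hmul : ∀ i j, ∃ l, ∀ᶠ t in (UF : Filter ℕ), fact4 (β t) 1 i j l := fun i j =>
    exists_val hβ 1 i j fun t => ⟨Structure.funMap (L := LA) AF.mul ![β t i, β t j], by simp [fact4]⟩
  have hzero : ∃ l, ∀ᶠ t in (UF : Filter ℕ), fact4 (β t) 3 l l l :=
    exists_val1 hβ 3 fun t => ⟨Structure.funMap (L := LA) AF.zero ![], by simp [fact4]⟩
  have hone : ∃ l, ∀ᶠ t in (UF : Filter ℕ), fact4 (β t) 4 l l l :=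
    exists_val1 hβ 4 fun t => ⟨Structure.funMap (L := LA) AF.one ![], by simp [fact4]⟩
  choose ad had using hadd
  choose mu hmu using hmul
  obtain ⟨ze, hze⟩ := hzero
  obtain ⟨on, hon⟩ := hone
  let A : LA.Structure ℕ :=
    { funMap := fun {n} f => match n, f with
        | _, AF.zero => fun _ => ze
        | _, AF.one => fun _ => on
        | _, AF.add => fun v => ad (v 0) (v 1)
        | _, AF.mul => fun v => mu (v 0) (v 1)
      RelMap := fun {n} r => match n, r with
        | _, AR.lt => fun v => ∀ᶠ t in (UF : Filter ℕ),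
            Structure.RelMap (L := LA) AR.lt ![β t (v 0), β t (v 1)] }
  have hfact : ∀ (f : ℕ → ℕ) (c i j l : ℕ), @fact4 ℕ A f c i j l ↔
      ∀ᶠ t in (UF : Filter ℕ), fact4 (fun i => β t (f i)) c i j l := by
    intro f c i j l
    unfold fact4
    split_ifs with h0 h1 h2 h3 h4
    · show ad (f i) (f j) = f l ↔ _
      have e := had (f i) (f j)
      simp only [fact4, if_true] at e
      constructor
      · intro h; exact e.mono fun t ht => ht.trans (congrArg (β t) h)
      · intro h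
        exact huniq (fun t y => Structure.funMap (L := LA) AF.add ![β t (f i), β t (f j)] = y) _ _
          (fun t y z h1 h2 => h1.symm.trans h2) e h
    · show mu (f i) (f j) = f l ↔ _
      have e := hmu (f i) (f j)
      simp only [fact4, one_ne_zero, if_false, if_true] at e
      constructor
      · intro h; exact e.mono fun t ht => ht.trans (congrArg (β t) h)
      · intro h
        exact huniq (fun t y => Structure.funMap (L := LA) AF.mul ![β t (f i), β t (f j)] = y) _ _
          (fun t y z h1 h2 => h1.symm.trans h2) e h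
    · exact Iff.rfl
    · show ze = f i ↔ _
      have e : ∀ᶠ t in (UF : Filter ℕ), Structure.funMap (L := LA) AF.zero ![] = β t ze := by
        simpa [fact4] using hze
      constructor
      · intro h; exact e.mono fun t ht => ht.trans (congrArg (β t) h)
      · intro h
        exact huniq (fun t y => Structure.funMap (L := LA) AF.zero ![] = y) _ _
          (fun t y z h1 h2 => h1.symm.trans h2) e h
    · show on = f i ↔ _
      have e : ∀ᶠ t in (UF : Filter ℕ), Structure.funMap (L := LA) AF.one ![] = β t on := by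
        simpa [fact4] using hon
      constructor
      · intro h; exact e.mono fun t ht => ht.trans (congrArg (β t) h)
      · intro h
        exact huniq (fun t y => Structure.funMap (L := LA) AF.one ![] = y) _ _
          (fun t y z h1 h2 => h1.symm.trans h2) e h
    · constructor
      · intro h; exact Filter.Eventually.of_forall fun t => congrArg (β t) h
      · intro h
        by_contra hne
        obtain ⟨t, h1, h2⟩ := ((hinj _ _ hne).and h).exists
        exact h1 h2
  have hD : ∀ (f : ℕ → ℕ) (p : ℕ), @D ℕ A f p = true ↔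
      ∀ᶠ t in (UF : Filter ℕ), D (fun i => β t (f i)) p = true := by
    intro f p
    rw [@D_iff ℕ A]
    simp only [D_iff]
    exact hfact f _ _ _ _
  refine ⟨A, ?_⟩
  rintro R ⟨n, hR⟩ f
  induction n generalizing R f with
  | zero =>
    obtain ⟨N, g, hg, rfl⟩ := hR
    exact uf_clop N g hg _ _ (hD f)
  | succ n ih =>
    obtain ⟨Q, k, hQ, rfl⟩ := hR
    show (∃ x' : ℕ → ℕ, (∀ i < k, x' i = f i) ∧ ¬ @Q ℕ A x') ↔
      ∀ᶠ t in (UF : Filter ℕ), ∃ x' : ℕ → K t, (∀ i < k, x' i = β t (f i)) ∧ ¬ Q (K t) x'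
    constructor
    · rintro ⟨x', h1, h2⟩
      rw [ih Q hQ, uf_not] at h2
      refine h2.mono fun t ht => ⟨_, fun i hi => ?_, ht⟩
      rw [h1 i hi]
    · intro h
      obtain ⟨s, hs⟩ := Hier.supp Clop.base hQ
      obtain ⟨f', h1, h2⟩ := hβ.blk ⟨n, hQ⟩ s k (hs.mono (by omega)) f h
      refine ⟨f', h1, ?_⟩
      rw [ih Q hQ, uf_not]
      exact h2

end

end Pool.Agent.H646R2.SV
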