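import Pool.Agent.H646R2.SV.Gen

/-!
The main construction, assuming the chain lemma.
-/

set_option autoImplicit false
set_option linter.unusedVariables false

open FirstOrder FirstOrder.Language Pool.Agent.Helper227.EN Pool.Agent.H646R2.SV.Defs

namespace Pool.Agent.H646R2.SV

/-- The first statement. -/
def P0 (e m g0 : ℕ) (a : ℕ → Bool) : Prop :=
  ∃ s c, Phi (Defs.jumps (SA a) m) e (Nat.pair (m + 1) s) c ∧ Phi (SA a) c g0 0

/-- The second statement. -/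
def P1 (e m g0 g1 : ℕ) (a : ℕ → Bool) : Prop :=
  ∃ s c s' c', (s < s' ∧ Phi (Defs.jumps (SA a) m) e (Nat.pair (m + 1) s) c ∧ Phi (SA a) c g0 0) ∧
    (Phi (Defs.jumps (SA a) m) e (Nat.pair (m + 1) s') c' ∧ Phi (SA a) c' g0 1 ∧ Phi (SA a) c' g1 0)

theorem P0_BS (e m g0 : ℕ) : BS (m + 1) (P0 e m g0) :=
  BS.ex fun s => BS.ex fun c => BS.and (BS.phi _ _ _ _) (BS.phi0 _ _ _ _)

theorem P1_BS (e m g0 g1 : ℕ) : BS (m + 1) (P1 e m g0 g1) :=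
  BS.ex fun s => BS.ex fun c => BS.ex fun s' => BS.ex fun c' =>
    BS.and (BS.and (BS.const _) (BS.and (BS.phi _ _ _ _) (BS.phi0 _ _ _ _)))
      (BS.and (BS.phi _ _ _ _) (BS.and (BS.phi0 _ _ _ _) (BS.phi0 _ _ _ _)))

/-- the first statement as a formal statement -/
noncomputable def S0 (e m g0 : ℕ) : St := (P0_BS e m g0).choose
/-- the second statement as a formal statement -/
noncomputable def S1 (e m g0 g1 : ℕ) : St := (P1_BS e m g0 g1).choose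

theorem S0_lev (e m g0 : ℕ) : (S0 e m g0).lev (m + 1) := (P0_BS e m g0).choose_spec.1
theorem S1_lev (e m g0 g1 : ℕ) : (S1 e m g0 g1).lev (m + 1) := (P1_BS e m g0 g1).choose_spec.1
theorem S0_iff (e m g0 : ℕ) {a : ℕ → Bool} (ha : Dg1 a) : (S0 e m g0).holds a ↔ P0 e m g0 a :=
  (P0_BS e m g0).choose_spec.2 a ha
theorem S1_iff (e m g0 g1 : ℕ) {a : ℕ → Bool} (ha : Dg1 a) :
    (S1 e m g0 g1).holds a ↔ P1 e m g0 g1 a :=
  (P1_BS e m g0 g1).choose_spec.2 a ha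

/-- substatements -/
def St.sub : St → List ℕ → St
  | S, [] => S
  | .op W, _ :: _ => .op W
  | .exn f, j :: l => (f j).sub l

theorem St.sub_lev {n : ℕ} {S : St} (h : S.lev n) (l : List ℕ) : (S.sub l).lev n := by
  induction l generalizing S n with
  | nil => cases S <;> exact h
  | cons j l ih =>
    cases S with
    | op W => exact h
    | exn f =>
      cases n with
      | zero => exact absurd h id
      | succ n => exact St.lev_succ (ih (h j))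

theorem GSeq.hdec (G : GSeq) {S : St} (h : ∀ l, G.Dec (S.sub l)) : G.HDec S := by
  induction S with
  | op W => exact h []
  | exn f ih =>
    refine ⟨h [], fun j => ih j fun l => h (j :: l)⟩

section
variable (Sgm : ℕ → Sn → ℕ → Prop)

/-- The chain lemma (statement). -/
def ChainHyp : Prop := ∀ (p : Cd) (n : ℕ), ∃ m, n ≤ m ∧ ∃ (X0 X1 : Sn) (g0 g1 : ℕ),
  FO X0 ∧ FO X1 ∧ Sgm (m + 1) X0 g0 ∧ Sgm (m + 1) X1 g1 ∧
    ∀ τ a0 a1, Es (n + 1) τ p.M → ¬ Good n m X0 X1 τ a0 a1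

/-- the three outcomes of the strategy for the index `e` -/
def outR (e : ℕ) : Rq := fun p n => ∃ (m : ℕ) (X0 X1 : Sn) (g0 g1 N : ℕ), m + 1 ≤ n ∧ N ≤ n ∧
  Hier Clop N (fun M _ _ => X0 M) ∧ Hier Clop N (fun M _ _ => X1 M) ∧
  Sgm (m + 1) X0 g0 ∧ Sgm (m + 1) X1 g1 ∧
  ((¬ X0 p.M ∧ NF (S0 e m g0) p) ∨ (X0 p.M ∧ ¬ X1 p.M ∧ Fo (S0 e m g0) p ∧ NF (S1 e m g0 g1) p) ∨
    (X1 p.M ∧ Fo (S1 e m g0 g1) p))

variable {Sgm}

theorem dense_out (hC : ChainHyp Sgm) (e : ℕ) : Dense (outR Sgm e) := by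
  intro p n
  obtain ⟨m, hnm, X0, X1, g0, g1, h0, h1, hs0, hs1, hG⟩ := hC p n
  obtain ⟨N0, hN0⟩ := h0
  obtain ⟨N1, hN1⟩ := h1
  have h0 : FO X0 := ⟨N0, hN0⟩
  have h1 : FO X1 := ⟨N1, hN1⟩
  have hN0' := Hier.mono Clop.base hN0 (le_max_left N0 N1)
  have hN1' := Hier.mono Clop.base hN1 (le_max_right N0 N1)
  have e1 : m + 1 ≤ m + 1 + max N0 N1 := by omega
  have e2 : max N0 N1 ≤ m + 1 + max N0 N1 := by omega
  have e3 : n ≤ m + 1 + max N0 N1 := by omega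
  obtain ⟨q0, hq0, -, hx0, hF0⟩ := step0 h0 p hG
  by_cases hc0 : NF (S0 e m g0) q0
  · exact ⟨q0, _, e3, hq0, m, X0, X1, g0, g1, _, e1, e2, hN0', hN1', hs0, hs1, Or.inl ⟨hx0, hc0⟩⟩
  unfold NF at hc0
  push Not at hc0
  obtain ⟨r0, hr0, hf0⟩ := hc0
  have hF0' : ∀ u ∈ F0 m X0 X1, ¬ Es (m + 1) u r0.M := fun u hu hc =>
    hF0 u hu (((Es_FO (m + 1) u).le hr0).2 hc)
  obtain ⟨q1, hq1, -, hx1, hx1', hF1⟩ := step1 h0 h1 r0 hF0'
  have hf1 : Fo (S0 e m g0) q1 := hf0.persist (S0_lev e m g0) hq1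
  have hq1p : LeN n q1 p := (hq1.mono hnm).trans ((hr0.leN n).trans hq0 le_rfl) le_rfl
  by_cases hc1 : NF (S1 e m g0 g1) q1
  · exact ⟨q1, _, e3, hq1p, m, X0, X1, g0, g1, _, e1, e2, hN0', hN1', hs0, hs1,
      Or.inr (Or.inl ⟨hx1, hx1', hf1, hc1⟩)⟩
  unfold NF at hc1
  push Not at hc1
  obtain ⟨r1, hr1, hf1'⟩ := hc1
  have hF1' : ∀ u ∈ F1 m X1, ¬ Es (m + 1) u r1.M := fun u hu hc =>
    hF1 u hu (((Es_FO (m + 1) u).le hr1).2 hc)
  obtain ⟨q2, hq2, -, hx2⟩ := step2 h1 r1 hF1'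
  have hf2 : Fo (S1 e m g0 g1) q2 := hf1'.persist (S1_lev e m g0 g1) hq2
  have hq2p : LeN n q2 p := (hq2.mono hnm).trans ((hr1.leN n).trans hq1p le_rfl) le_rfl
  exact ⟨q2, _, e3, hq2p, m, X0, X1, g0, g1, _, e1, e2, hN0', hN1', hs0, hs1,
    Or.inr (Or.inr ⟨hx2, hf2⟩)⟩

theorem dg1_D (A : LA.Structure ℕ) : Dg1 (@D ℕ A id) := ⟨A, rfl⟩

/-- The structure obtained from the chain lemma. -/
theorem main_structure (hC : ChainHyp Sgm) (p0 : Cd) (n0 : ℕ) :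
    ∃ A : LA.Structure ℕ, @PAc ℕ A ∧
      (∀ R : Pr, Hier Clop n0 R → Supp p0.k R → (@R ℕ A id ↔ R p0.M p0.b)) ∧
      ∀ e, ∃ (m : ℕ) (X0 X1 : Sn) (g0 g1 : ℕ), Sgm (m + 1) X0 g0 ∧ Sgm (m + 1) X1 g1 ∧
        ((¬ @X0 ℕ A ∧ ¬ P0 e m g0 (@D ℕ A id)) ∨
          (@X0 ℕ A ∧ ¬ @X1 ℕ A ∧ P0 e m g0 (@D ℕ A id) ∧ ¬ P1 e m g0 g1 (@D ℕ A id)) ∨
          (@X1 ℕ A ∧ P1 e m g0 g1 (@D ℕ A id))) := by
  -- the requirements
  let ι : Type := (WI ⊕ ℕ) ⊕ (Bool × ((ℕ × ℕ) × (ℕ × ℕ)) × List ℕ)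
  let st : Bool × ((ℕ × ℕ) × (ℕ × ℕ)) × List ℕ → St := fun x =>
    (if x.1 then S0 x.2.1.1.1 x.2.1.1.2 x.2.1.2.1 else
      S1 x.2.1.1.1 x.2.1.1.2 x.2.1.2.1 x.2.1.2.2).sub x.2.2
  have hst : ∀ x, (st x).lev (x.2.1.1.2 + 1) := by
    intro x
    refine St.sub_lev ?_ _
    split_ifs
    · exact S0_lev _ _ _
    · exact S1_lev _ _ _ _
  let r : ι → Rq := fun i => match i with
    | Sum.inl (Sum.inl w) => wr w
    | Sum.inl (Sum.inr e) => outR Sgm e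
    | Sum.inr x => fun p n => x.2.1.1.2 + 1 ≤ n ∧ (Fo (st x) p ∨ NF (st x) p)
  have hr : ∀ i, Dense (r i) := by
    rintro ((w | e) | x)
    · exact wr_dense w
    · exact dense_out hC e
    · exact dense_dec _ _
  obtain ⟨G, hG0, hGn, hG⟩ := exists_gseq r hr p0 n0
  obtain ⟨A, hAX, hA⟩ := G.limit fun w => hG (Sum.inl (Sum.inl w))
  have hdec : ∀ x, G.Dec (st x) := by
    intro x
    obtain ⟨s, h1, h2⟩ := hG (Sum.inr x)
    exact ⟨s, St.lev_mono (hst x) h1, h2⟩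
  have hd0 : ∀ e m g0, G.HDec (S0 e m g0) := fun e m g0 => G.hdec fun l => by
    have := hdec (true, ((e, m), (g0, 0)), l)
    simpa [st] using this
  have hd1 : ∀ e m g0 g1, G.HDec (S1 e m g0 g1) := fun e m g0 g1 => G.hdec fun l => by
    have := hdec (false, ((e, m), (g0, g1)), l)
    simpa [st] using this
  have hdg : Dg1 G.X := hAX ▸ dg1_D A
  refine ⟨A, limit_model hA, fun R hR hs => ?_, fun e => ?_⟩
  · have h1 := hA R ⟨n0, hR⟩ id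
    have h2 : ∀ᶠ t in (UF : Filter ℕ), (R (G.p t).M (fun i => (G.p t).b (id i)) ↔ R p0.M p0.b) := by
      refine Filter.Eventually.of_forall fun t => ?_
      have h3 := (G.leN (Nat.zero_le t)).2
      rw [hG0, hGn] at h3
      exact (h3 R hR hs).symm
    rw [Filter.eventually_congr h2, Filter.eventually_const] at h1
    exact h1
  · obtain ⟨s, m, X0, X1, g0, g1, N, hm, hN, hN0, hN1, hs0, hs1, h⟩ := hG (Sum.inl (Sum.inr e))
    have e0 : @X0 ℕ A ↔ X0 (G.p s).M := limit_FO hA hN0 hN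
    have e1 : @X1 ℕ A ↔ X1 (G.p s).M := limit_FO hA hN1 hN
    have hl0 := St.lev_mono (S0_lev e m g0) hm
    have hl1 := St.lev_mono (S1_lev e m g0 g1) hm
    refine ⟨m, X0, X1, g0, g1, hs0, hs1, ?_⟩
    rw [hAX, e0, e1, ← S0_iff e m g0 hdg, ← S1_iff e m g0 g1 hdg]
    rcases h with ⟨h1, h2⟩ | ⟨h1, h2, h3, h4⟩ | ⟨h1, h2⟩
    · exact Or.inl ⟨h1, G.not_holds (hd0 e m g0) hl0 h2⟩
    · exact Or.inr (Or.inl ⟨h1, h2, (G.truth (hd0 e m g0)).2 ⟨s, hl0, h3⟩,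
        G.not_holds (hd1 e m g0 g1) hl1 h4⟩)
    · exact Or.inr (Or.inr ⟨h1, (G.truth (hd1 e m g0 g1)).2 ⟨s, hl1, h2⟩⟩)

end

end Pool.Agent.H646R2.SV
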