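import Pool.Agent.H646R2.SV.Limit

/-!
Models of Peano arithmetic: `PA⁻` together with the least number principle for all predicates of
the hierarchy.
-/

set_option autoImplicit false
set_option linter.unusedVariables false

open FirstOrder FirstOrder.Language Pool.Agent.Helper227.EN

namespace Pool.Agent.H646R2.SV

/-- the least number principle for `R` -/
def lnpP (R : Pr) : Pr := fun M _ x => (∃ y : M, R M (Function.update x 0 y)) →
  ∃ y : M, R M (Function.update x 0 y) ∧
    ∀ z : M, Structure.RelMap (L := LA) AR.lt ![z, y] → ¬ R M (Function.update x 0 z)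

/-- `PA⁻` and the least number principle. -/
def PAc (M : Type) [LA.Structure M] : Prop :=
  M ⊨ PAminus ∧ ∀ (n u : ℕ) (x : ℕ → M), lnpP (Ev n u) M x

theorem PAc.lnp {M : Type} [LA.Structure M] (h : PAc M) {R : Pr} (hR : HierU Clop R) (x : ℕ → M) :
    lnpP R M x := by
  obtain ⟨n, hn⟩ := hR
  obtain ⟨u, rfl⟩ := hier_iff.1 hn
  exact h.2 n u x

theorem upd_ren {M : Type} (x : ℕ → M) (K : ℕ) :
    Function.update x 0 (x K) = fun i => x (if i = 0 then K else i) := by
  funext i
  by_cases h : i = 0
  · subst h; simp
  · rw [Function.update_of_ne h]; simp [h]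

theorem lnpP_hier {R : Pr} (hR : HierU Clop R) : HierU Clop (lnpP R) := by
  obtain ⟨s, hs⟩ := HierU.supp Clop.base hR
  have hr : ∀ K, HierU Clop (fun M _ x => R M (Function.update x 0 (x K))) := fun K =>
    (hR.ren Clop.base (fun i => if i = 0 then K else i)).congr fun M _ x => by rw [upd_ren]
  have hupd : ∀ (M : Type) [LA.Structure M] (x : ℕ → M) (y v : M) (K : ℕ), s ≤ K →
      (R M (Function.update (Function.update x K v) 0 y) ↔ R M (Function.update x 0 y)) := by
    intro M _ x y v K hK
    refine hs M _ _ fun i hi => ?_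
    by_cases h : i = 0
    · subst h; simp
    · rw [Function.update_of_ne h, Function.update_of_ne h, Function.update_of_ne (by omega)]
  have h1 : HierU Clop (fun M _ x => ∃ y : M, R M (Function.update x 0 y)) := hR.exv Clop.base 0
  have h2 : HierU Clop (fun M _ x => ∃ y : M, R M (Function.update x 0 y) ∧
      ¬ ∃ z : M, Structure.RelMap (L := LA) AR.lt ![z, y] ∧ R M (Function.update x 0 z)) := by
    refine HierU.ex Clop.base (fun M _ x y => R M (Function.update x 0 y) ∧
      ¬ ∃ z : M, Structure.RelMap (L := LA) AR.lt ![z, y] ∧ R M (Function.update x 0 z)) (s + 1)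
      ?_ ?_
    · intro M _ x y v
      rw [hupd M x y v _ (by omega)]
      simp only [hupd M x _ v (s + 1) (by omega)]
    · refine (hr (s + 1)).and Clop.base (HierU.not Clop.base ?_)
      refine HierU.ex Clop.base (fun M _ x z => Structure.RelMap (L := LA) AR.lt ![z, x (s + 1)] ∧
        R M (Function.update x 0 z)) (s + 2) ?_ ?_
      · intro M _ x y v
        rw [hupd M x y v _ (by omega), Function.update_of_ne (by omega)]
      · exact ((fact_hier 2 (s + 2) (s + 1) 0).congr fun M _ x => by simp [fact4]).and Clop.base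
          (hr (s + 2))
  refine ((h1.not Clop.base).or Clop.base h2).congr fun M _ x => ?_
  unfold lnpP
  rw [imp_iff_not_or]
  refine or_congr Iff.rfl (exists_congr fun y => and_congr Iff.rfl ?_)
  push Not
  rfl

theorem PAc.up {K : ℕ → Type} [∀ t, LA.Structure (K t)] [∀ t, Nonempty (K t)]
    (h : ∀ t, PAc (K t)) : PAc (UPr K) := by
  refine ⟨up_model _ fun t => (h t).1, fun n u x => ?_⟩
  have h3 : ∀ i, ∃ a : ∀ t, K t, (a : UPr K) = x i := fun i => Quotient.exists_rep (x i)
  choose a ha using h3
  have h4 : x = ups (fun t i => a i t) := by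
    funext i; exact (ha i).symm
  rw [h4, up_hierU (lnpP_hier ⟨n, Ev_hier n u⟩)]
  exact Filter.Eventually.of_forall fun t => (h t).2 n u _

theorem PAc.infinite {M : Type} [LA.Structure M] [Nonempty M] (h : PAc M) : Infinite M := by
  obtain ⟨i1, i2, i3, i4, hc⟩ := exists_alg M h.1
  exact Infinite.of_injective (fun m : ℕ => (m : M)) Nat.cast_injective

end Pool.Agent.H646R2.SV
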