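import Pool.Agent.H646R2.SV.PropC
import Pool.Agent.H646R2.SV.PAc

/-!
The forbidden patterns describing Henkin models of Peano arithmetic.
-/

set_option autoImplicit false
set_option linter.unusedVariables false

open Pool.Agent.Helper227.EN Pool.Agent.Helper578.JD Encodable

namespace Pool.Agent.H646R2.SV

/-- position of the bit for the atomic fact with code `p` -/
def ep (p : ℕ) : ℕ := 2 * p
/-- position of the bit for the code `u` of level `n` evaluated at the list of names `a` -/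
def hp (n u : ℕ) (a : List ℕ) : ℕ := 2 * Nat.pair n (Nat.pair u (encode a)) + 1
/-- name of a numeral -/
def nu (r : ℕ) : ℕ := Nat.pair 0 r
/-- name of a sum -/
def sm (i j : ℕ) : ℕ := Nat.pair 1 (Nat.pair i j)
/-- name of a product -/
def ml (i j : ℕ) : ℕ := Nat.pair 2 (Nat.pair i j)
/-- name of an entry of a witness of a block of quantifiers -/
def bw (n u : ℕ) (a : List ℕ) (i : ℕ) : ℕ := Nat.pair 3 (Nat.pair (Nat.pair n u) (Nat.pair (encode a) i))
/-- name of a least witness -/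
def lw (n u : ℕ) (a : List ℕ) : ℕ := Nat.pair 4 (Nat.pair (Nat.pair n u) (encode a))
/-- position of the equality fact -/
def eqp (i j : ℕ) : ℕ := ep (fc 5 i j 0)

section comp
variable {α : Type} [Primcodable α]

@[fun_prop] theorem c_ep {f : α → ℕ} (hf : Computable f) : Computable fun x => ep (f x) := by
  unfold ep; fun_prop
@[fun_prop] theorem c_fc {c i j l : α → ℕ} (hc : Computable c) (hi : Computable i)
    (hj : Computable j) (hl : Computable l) : Computable fun x => fc (c x) (i x) (j x) (l x) := by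
  unfold fc; fun_prop
@[fun_prop] theorem c_hp {n u : α → ℕ} {a : α → List ℕ} (hn : Computable n) (hu : Computable u)
    (ha : Computable a) : Computable fun x => hp (n x) (u x) (a x) := by
  unfold hp; fun_prop
@[fun_prop] theorem c_nu {f : α → ℕ} (hf : Computable f) : Computable fun x => nu (f x) := by
  unfold nu; fun_prop
@[fun_prop] theorem c_sm {i j : α → ℕ} (hi : Computable i) (hj : Computable j) :
    Computable fun x => sm (i x) (j x) := by
  unfold sm; fun_prop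
@[fun_prop] theorem c_ml {i j : α → ℕ} (hi : Computable i) (hj : Computable j) :
    Computable fun x => ml (i x) (j x) := by
  unfold ml; fun_prop
@[fun_prop] theorem c_bw {n u : α → ℕ} {a : α → List ℕ} {i : α → ℕ} (hn : Computable n)
    (hu : Computable u) (ha : Computable a) (hi : Computable i) :
    Computable fun x => bw (n x) (u x) (a x) (i x) := by
  unfold bw; fun_prop
@[fun_prop] theorem c_lw {n u : α → ℕ} {a : α → List ℕ} (hn : Computable n)
    (hu : Computable u) (ha : Computable a) : Computable fun x => lw (n x) (u x) (a x) := by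
  unfold lw; fun_prop
@[fun_prop] theorem c_eqp {i j : α → ℕ} (hi : Computable i) (hj : Computable j) :
    Computable fun x => eqp (i x) (j x) := by
  unfold eqp; fun_prop
@[fun_prop] theorem c_q0 {f : α → ℕ} (hf : Computable f) : Computable fun x => q0 (f x) := by
  unfold q0; fun_prop
@[fun_prop] theorem c_q1 {f : α → ℕ} (hf : Computable f) : Computable fun x => q1 (f x) := by
  unfold q1; fun_prop
@[fun_prop] theorem c_q2 {f : α → ℕ} (hf : Computable f) : Computable fun x => q2 (f x) := by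
  unfold q2; fun_prop
@[fun_prop] theorem c_q3 {f : α → ℕ} (hf : Computable f) : Computable fun x => q3 (f x) := by
  unfold q3; fun_prop
@[fun_prop] theorem c_getD {a : α → List ℕ} {i : α → ℕ} (ha : Computable a) (hi : Computable i) :
    Computable fun x => (a x).getD (i x) 0 :=
  (Primrec.list_getD 0).to_comp.comp ha hi
@[fun_prop] theorem c_rpbit {a i : α → ℕ} (ha : Computable a) (hi : Computable i) :
    Computable fun x => rpbit (a x) (i x) :=
  rpbit_comp.comp (ha.pair hi)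
@[fun_prop] theorem c_beta {a i : α → ℕ} (ha : Computable a) (hi : Computable i) :
    Computable fun x => Nat.beta (a x) (i x) := by
  have h : Primrec₂ Nat.beta := by
    refine Primrec.nat_mod.comp (Primrec.fst.comp (Primrec.unpair.comp Primrec.fst)) ?_
    exact Primrec.nat_add.comp (Primrec.nat_mul.comp (Primrec.nat_add.comp Primrec.snd
      (Primrec.const 1)) (Primrec.snd.comp (Primrec.unpair.comp Primrec.fst))) (Primrec.const 1)
  exact h.to_comp.comp ha hi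

end comp

/-- patterns without side conditions -/
def Vs (v : List (Bool × ℕ)) : Prop := ∃ x : (ℕ × ℕ) × (ℕ × ℕ),
  v = [(false, eqp x.1.1 x.1.1)] ∨
  v = [(true, eqp x.1.1 x.1.2), (false, eqp x.1.2 x.1.1)] ∨
  v = [(true, eqp x.1.1 x.1.2), (true, eqp x.1.2 x.2.1), (false, eqp x.1.1 x.2.1)] ∨
  v = [(true, ep (fc 0 x.1.1 x.1.2 x.2.1)), (false, eqp (sm x.1.1 x.1.2) x.2.1)] ∨
  v = [(false, ep (fc 0 x.1.1 x.1.2 x.2.1)), (true, eqp (sm x.1.1 x.1.2) x.2.1)] ∨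
  v = [(true, eqp x.1.1 x.2.1), (true, eqp x.1.2 x.2.2),
    (false, eqp (sm x.1.1 x.1.2) (sm x.2.1 x.2.2))] ∨
  v = [(true, ep (fc 1 x.1.1 x.1.2 x.2.1)), (false, eqp (ml x.1.1 x.1.2) x.2.1)] ∨
  v = [(false, ep (fc 1 x.1.1 x.1.2 x.2.1)), (true, eqp (ml x.1.1 x.1.2) x.2.1)] ∨
  v = [(true, eqp x.1.1 x.2.1), (true, eqp x.1.2 x.2.2),
    (false, eqp (ml x.1.1 x.1.2) (ml x.2.1 x.2.2))] ∨
  v = [(true, ep (fc 3 x.1.1 0 0)), (false, eqp (nu 0) x.1.1)] ∨
  v = [(false, ep (fc 3 x.1.1 0 0)), (true, eqp (nu 0) x.1.1)] ∨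
  v = [(true, ep (fc 4 x.1.1 0 0)), (false, eqp (nu 1) x.1.1)] ∨
  v = [(false, ep (fc 4 x.1.1 0 0)), (true, eqp (nu 1) x.1.1)] ∨
  v = [(true, eqp x.1.1 x.2.1), (true, eqp x.1.2 x.2.2), (true, ep (fc 2 x.1.1 x.1.2 0)),
    (false, ep (fc 2 x.2.1 x.2.2 0))] ∨
  v = [(false, eqp (sm (nu x.1.1) (nu 1)) (nu (x.1.1 + 1)))]

theorem Vs_re : REPred Vs := by
  refine RE.ex (p := fun (v : List (Bool × ℕ)) (x : (ℕ × ℕ) × (ℕ × ℕ)) => _) ?_
  iterate 14 refine RE.or (RE.eq (by fun_prop) (by fun_prop)) ?_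
  exact RE.eq (by fun_prop) (by fun_prop)

/-- equivalence of codes of facts -/
def Eqv (p p' : ℕ) : Prop :=
  (q0 p = 2 ∧ q0 p' = 2 ∧ q1 p = q1 p' ∧ q2 p = q2 p') ∨
  (q0 p = 3 ∧ q0 p' = 3 ∧ q1 p = q1 p') ∨ (q0 p = 4 ∧ q0 p' = 4 ∧ q1 p = q1 p') ∨
  (4 < q0 p ∧ 4 < q0 p' ∧ q1 p = q1 p' ∧ q2 p = q2 p')

/-- patterns for equivalent codes of facts -/
def Vq (v : List (Bool × ℕ)) : Prop := ∃ x : ℕ × ℕ, Eqv x.1 x.2 ∧ v = [(true, ep x.1), (false, ep x.2)]

theorem Vq_re : REPred Vq := by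
  refine RE.ex (p := fun (v : List (Bool × ℕ)) (x : ℕ × ℕ) => Eqv x.1 x.2 ∧
    v = [(true, ep x.1), (false, ep x.2)]) ?_
  refine RE.and ?_ (RE.eq (by fun_prop) (by fun_prop))
  unfold Eqv
  refine RE.or ?_ (RE.or ?_ (RE.or ?_ ?_))
  · exact RE.and (RE.eq (by fun_prop) (by fun_prop)) (RE.and (RE.eq (by fun_prop) (by fun_prop))
      (RE.and (RE.eq (by fun_prop) (by fun_prop)) (RE.eq (by fun_prop) (by fun_prop))))
  · exact RE.and (RE.eq (by fun_prop) (by fun_prop)) (RE.and (RE.eq (by fun_prop) (by fun_prop))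
      (RE.eq (by fun_prop) (by fun_prop)))
  · exact RE.and (RE.eq (by fun_prop) (by fun_prop)) (RE.and (RE.eq (by fun_prop) (by fun_prop))
      (RE.eq (by fun_prop) (by fun_prop)))
  · exact RE.and (RE.lt (by fun_prop) (by fun_prop)) (RE.and (RE.lt (by fun_prop) (by fun_prop))
      (RE.and (RE.eq (by fun_prop) (by fun_prop)) (RE.eq (by fun_prop) (by fun_prop))))

theorem Ev0_re : REPred fun x : ℕ × ℕ => Ev0 x.1 (rpbit x.2) := by
  unfold Ev0
  refine (RE.exN (p := fun (x : ℕ × ℕ) j => j < (Nat.unpair x.1).1 ∧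
    ∀ p < (Nat.unpair (Nat.beta (Nat.unpair x.1).2 j)).1,
    (Nat.beta (Nat.unpair (Nat.beta (Nat.unpair x.1).2 j)).2 p = 1 ↔ rpbit x.2 p = true)) ?_)
  refine RE.and (RE.lt (by fun_prop) (by fun_prop)) ?_
  refine RE.all_lt (p := fun (x : (ℕ × ℕ) × ℕ) p =>
    (Nat.beta (Nat.unpair (Nat.beta (Nat.unpair x.1.1).2 x.2)).2 p = 1 ↔ rpbit x.1.2 p = true)) ?_
    (f := fun x => (Nat.unpair (Nat.beta (Nat.unpair x.1.1).2 x.2)).1) (by fun_prop)
  have h : REPred fun x : ((ℕ × ℕ) × ℕ) × ℕ =>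
      (Nat.beta (Nat.unpair (Nat.beta (Nat.unpair x.1.1.1).2 x.1.2)).2 x.2 = 1 ∧
        rpbit x.1.1.2 x.2 = true) ∨
      (Nat.beta (Nat.unpair (Nat.beta (Nat.unpair x.1.1.1).2 x.1.2)).2 x.2 ≠ 1 ∧
        rpbit x.1.1.2 x.2 = false) :=
    RE.or (RE.and (RE.eq (by fun_prop) (by fun_prop)) (RE.eq (by fun_prop) (by fun_prop)))
      (RE.and (RE.ne (by fun_prop) (by fun_prop)) (RE.eq (by fun_prop) (by fun_prop)))
  refine h.of_eq fun x => ?_
  cases rpbit x.1.1.2 x.2 <;> simp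

theorem not_Ev0_re : REPred fun x : ℕ × ℕ => ¬ Ev0 x.1 (rpbit x.2) := by
  have h : REPred fun x : ℕ × ℕ => ∀ j < (Nat.unpair x.1).1, ∃ p,
      p < (Nat.unpair (Nat.beta (Nat.unpair x.1).2 j)).1 ∧
      ((Nat.beta (Nat.unpair (Nat.beta (Nat.unpair x.1).2 j)).2 p = 1 ∧ rpbit x.2 p = false) ∨
      (Nat.beta (Nat.unpair (Nat.beta (Nat.unpair x.1).2 j)).2 p ≠ 1 ∧ rpbit x.2 p = true)) := by
    refine RE.all_lt (p := fun (x : ℕ × ℕ) j => ∃ p,
      p < (Nat.unpair (Nat.beta (Nat.unpair x.1).2 j)).1 ∧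
      ((Nat.beta (Nat.unpair (Nat.beta (Nat.unpair x.1).2 j)).2 p = 1 ∧ rpbit x.2 p = false) ∨
      (Nat.beta (Nat.unpair (Nat.beta (Nat.unpair x.1).2 j)).2 p ≠ 1 ∧ rpbit x.2 p = true))) ?_
      (f := fun x => (Nat.unpair x.1).1) (by fun_prop)
    refine RE.exN (p := fun (x : (ℕ × ℕ) × ℕ) p =>
      p < (Nat.unpair (Nat.beta (Nat.unpair x.1.1).2 x.2)).1 ∧
      ((Nat.beta (Nat.unpair (Nat.beta (Nat.unpair x.1.1).2 x.2)).2 p = 1 ∧ rpbit x.1.2 p = false) ∨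
      (Nat.beta (Nat.unpair (Nat.beta (Nat.unpair x.1.1).2 x.2)).2 p ≠ 1 ∧ rpbit x.1.2 p = true))) ?_
    exact RE.and (RE.lt (by fun_prop) (by fun_prop)) (RE.or
      (RE.and (RE.eq (by fun_prop) (by fun_prop)) (RE.eq (by fun_prop) (by fun_prop)))
      (RE.and (RE.ne (by fun_prop) (by fun_prop)) (RE.eq (by fun_prop) (by fun_prop))))
  refine h.of_eq fun x => ?_
  unfold Ev0
  push Not
  refine forall_congr' fun j => forall_congr' fun _ => exists_congr fun p => and_congr_right fun _ => ?_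
  cases rpbit x.2 p <;> simp

/-- patterns for clopen codes: `x = ((u, s), (a, b))` -/
def Vc (v : List (Bool × ℕ)) : Prop := ∃ x : (ℕ × ℕ) × (List ℕ × Bool),
  ((x.2.2 = true ∧ ¬ Ev0 x.1.1 (rpbit x.1.2)) ∨ (x.2.2 = false ∧ Ev0 x.1.1 (rpbit x.1.2))) ∧
  v.length = x.1.1 + 1 ∧
  (∀ p < x.1.1, v[p]? = some (rpbit x.1.2 p,
    ep (fc (q0 p) (x.2.1.getD (q1 p) 0) (x.2.1.getD (q2 p) 0) (x.2.1.getD (q3 p) 0)))) ∧
  v[x.1.1]? = some (x.2.2, hp 0 x.1.1 x.2.1)

theorem Vc_re : REPred Vc := by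
  refine RE.ex (p := fun (v : List (Bool × ℕ)) (x : (ℕ × ℕ) × (List ℕ × Bool)) => _) ?_
  refine RE.and (RE.or (RE.and (RE.eq (by fun_prop) (by fun_prop)) ?_)
    (RE.and (RE.eq (by fun_prop) (by fun_prop)) ?_))
    (RE.and (RE.eq (by fun_prop) (by fun_prop)) (RE.and ?_ (RE.eq (by fun_prop) (by fun_prop))))
  · exact RE.comp not_Ev0_re (f := fun x : List (Bool × ℕ) × ((ℕ × ℕ) × (List ℕ × Bool)) => x.2.1)
      (by fun_prop)
  · exact RE.comp Ev0_re (f := fun x : List (Bool × ℕ) × ((ℕ × ℕ) × (List ℕ × Bool)) => x.2.1)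
      (by fun_prop)
  · refine RE.all_lt (p := fun (x : List (Bool × ℕ) × ((ℕ × ℕ) × (List ℕ × Bool))) p =>
      x.1[p]? = some (rpbit x.2.1.2 p,
      ep (fc (q0 p) (x.2.2.1.getD (q1 p) 0) (x.2.2.1.getD (q2 p) 0) (x.2.2.1.getD (q3 p) 0))))
      ?_ (f := fun x => x.2.1.1) (by fun_prop)
    exact RE.eq (by fun_prop) (by fun_prop)

/-- `a'` lists the names of the witness for the code `u` of level `n + 1` at `a` -/
def IsW (n u : ℕ) (a a' : List ℕ) : Prop :=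
  (∀ i < (Nat.unpair u).1, a'.getD i 0 = a.getD i 0) ∧
  (∀ i < (Nat.unpair u).2, (Nat.unpair u).1 ≤ i → a'.getD i 0 = bw n u a i)

/-- patterns for blocks of quantifiers: `x = ((n, u), (a, a'))` -/
def Vb (v : List (Bool × ℕ)) : Prop := ∃ x : (ℕ × ℕ) × (List ℕ × List ℕ),
  (IsW x.1.1 x.1.2 x.2.1 x.2.2 ∧
    v = [(true, hp (x.1.1 + 1) x.1.2 x.2.1), (true, hp x.1.1 (Nat.unpair x.1.2).2 x.2.2)]) ∨
  ((∀ i < (Nat.unpair x.1.2).1, x.2.2.getD i 0 = x.2.1.getD i 0) ∧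
    v = [(false, hp (x.1.1 + 1) x.1.2 x.2.1), (false, hp x.1.1 (Nat.unpair x.1.2).2 x.2.2)])

theorem Vb_re : REPred Vb := by
  refine RE.ex (p := fun (v : List (Bool × ℕ)) (x : (ℕ × ℕ) × (List ℕ × List ℕ)) => _) ?_
  have h1 : REPred fun x : List (Bool × ℕ) × ((ℕ × ℕ) × (List ℕ × List ℕ)) =>
      ∀ i < (Nat.unpair x.2.1.2).1, x.2.2.2.getD i 0 = x.2.2.1.getD i 0 :=
    RE.all_lt (p := fun (x : List (Bool × ℕ) × ((ℕ × ℕ) × (List ℕ × List ℕ))) i =>
      x.2.2.2.getD i 0 = x.2.2.1.getD i 0) (RE.eq (by fun_prop) (by fun_prop))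
      (f := fun x => (Nat.unpair x.2.1.2).1) (by fun_prop)
  refine RE.or (RE.and ?_ (RE.eq (by fun_prop) (by fun_prop)))
    (RE.and h1 (RE.eq (by fun_prop) (by fun_prop)))
  refine RE.and h1 ?_
  refine (RE.all_lt (p := fun (x : List (Bool × ℕ) × ((ℕ × ℕ) × (List ℕ × List ℕ))) i =>
      i < (Nat.unpair x.2.1.2).1 ∨ x.2.2.2.getD i 0 = bw x.2.1.1 x.2.1.2 x.2.2.1 i)
      (RE.or (RE.lt (by fun_prop) (by fun_prop)) (RE.eq (by fun_prop) (by fun_prop)))
      (f := fun x => (Nat.unpair x.2.1.2).2) (by fun_prop)).of_eq fun x => ?_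
  refine forall_congr' fun i => forall_congr' fun _ => ?_
  rw [← not_le, imp_iff_not_or]

/-- patterns for the least number principle: `x = ((n, u), (y, a))` -/
def Vl (v : List (Bool × ℕ)) : Prop := ∃ x : (ℕ × ℕ) × (ℕ × List ℕ),
  v = [(true, hp x.1.1 x.1.2 (x.2.1 :: x.2.2)),
    (false, hp x.1.1 x.1.2 (lw x.1.1 x.1.2 x.2.2 :: x.2.2))] ∨
  v = [(true, hp x.1.1 x.1.2 (x.2.1 :: x.2.2)),
    (true, ep (fc 2 x.2.1 (lw x.1.1 x.1.2 x.2.2) 0))]

theorem Vl_re : REPred Vl := by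
  refine RE.ex (p := fun (v : List (Bool × ℕ)) (x : (ℕ × ℕ) × (ℕ × List ℕ)) => _) ?_
  exact RE.or (RE.eq (by fun_prop) (by fun_prop)) (RE.eq (by fun_prop) (by fun_prop))

/-- patterns for finitely many axioms -/
def Va (L : List (ℕ × ℕ)) (v : List (Bool × ℕ)) : Prop := ∃ q ∈ L, v = [(false, hp q.1 q.2 [])]

theorem Va_re (L : List (ℕ × ℕ)) : REPred (Va L) := by
  refine RE.ex_mem (p := fun (v : List (Bool × ℕ)) (q : ℕ × ℕ) => v = [(false, hp q.1 q.2 [])])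
    (RE.eq (by fun_prop) (by fun_prop)) (l := fun _ => L) (by fun_prop)

/-- all forbidden patterns -/
def Vall (L : List (ℕ × ℕ)) (v : List (Bool × ℕ)) : Prop :=
  Vs v ∨ Vq v ∨ Vc v ∨ Vb v ∨ Vl v ∨ Va L v

theorem Vall_re (L : List (ℕ × ℕ)) : REPred (Vall L) :=
  RE.or Vs_re (RE.or Vq_re (RE.or Vc_re (RE.or Vb_re (RE.or Vl_re (Va_re L)))))

end Pool.Agent.H646R2.SV
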