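import Pool.Agent.H646R2.SV.Ult
import Pool.Agent.Helper578.JD.Oracle
import Pool.Agent.Helper227.ENJ.P_rep_pre

/-!
The set of propositional clauses entailed by a c.e. set of clauses is c.e.
-/

set_option autoImplicit false
set_option linter.unusedVariables false

open Pool.Agent.Helper227.EN Pool.Agent.Helper578.JD Encodable

namespace Pool.Agent.H646R2.SV

/-- forbidden patterns `V`: `B` avoids all of them -/
def Avoids (V : List (Bool × ℕ) → Prop) (B : ℕ → Bool) : Prop :=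
  ∀ v, V v → ∃ q ∈ v, B q.2 ≠ q.1

theorem rpbit_comp : Computable fun x : ℕ × ℕ => rpbit x.1 x.2 := rp_primrec_bit.to_comp

theorem pow_comp : Computable fun t : ℕ => 2 ^ t := (Primrec.nat_iff.2 rp_primrec_two).to_comp

theorem ec0_iff (V : List (Bool × ℕ) → Prop) (c : List (Bool × ℕ)) :
    (∀ B, Avoids V B → ∃ q ∈ c, B q.2 = q.1) ↔
    ∃ t, ∀ s < 2 ^ t, (∃ v, V v ∧ ∀ q ∈ v, q.2 < t ∧ rpbit s q.2 = q.1) ∨
      (∃ q ∈ c, q.2 < t ∧ rpbit s q.2 = q.1) := by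
  constructor
  · intro h
    by_contra hc
    push Not at hc
    choose s hs1 hs2 hs3 using hc
    classical
    let B : ℕ → Bool := fun i => decide (∀ᶠ t in (UF : Filter ℕ), rpbit (s t) i = true)
    have hB : ∀ i, ∀ᶠ t in (UF : Filter ℕ), B i = rpbit (s t) i := by
      intro i
      by_cases hi : ∀ᶠ t in (UF : Filter ℕ), rpbit (s t) i = true
      · refine hi.mono fun t ht => ?_
        simp only [B, hi, decide_true, ht]
      · refine (uf_not.1 hi).mono fun t ht => ?_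
        simp only [B, hi, decide_false]
        simp only [Bool.not_eq_true] at ht
        exact ht.symm
    have hav : Avoids V B := by
      intro v hv
      by_contra hc
      push Not at hc
      have h1 : ∀ᶠ t in (UF : Filter ℕ), ∀ q ∈ v.toFinset, B q.2 = rpbit (s t) q.2 ∧ q.2 < t := by
        refine (Filter.eventually_all_finset _).2 fun q _ => ?_
        exact (hB q.2).and (uf_ge (q.2 + 1))
      obtain ⟨t, ht⟩ := h1.exists
      obtain ⟨q, hq, hq2⟩ := hs2 t v hv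
      obtain ⟨h3, h4⟩ := ht q (List.mem_toFinset.2 hq)
      exact hq2 h4 (by rw [← h3]; exact hc q hq)
    obtain ⟨q, hq, hq2⟩ := h B hav
    obtain ⟨t, h3, h4⟩ := ((hB q.2).and (uf_ge (q.2 + 1))).exists
    exact hs3 t q hq h4 (by rw [← h3]; exact hq2)
  · rintro ⟨t, ht⟩ B hB
    obtain ⟨s, hs, hs2⟩ := rp_exists t B
    rcases ht s hs with ⟨v, hv, h1⟩ | ⟨q, hq, h1, h2⟩
    · exfalso
      obtain ⟨q, hq, hq2⟩ := hB v hv
      obtain ⟨h3, h4⟩ := h1 q hq
      exact hq2 (by rw [← hs2 _ h3, h4])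
    · exact ⟨q, hq, by rw [← hs2 _ h1, h2]⟩

theorem ec0 {V : List (Bool × ℕ) → Prop} (hV : REPred V) :
    REPred fun c : List (Bool × ℕ) => ∀ B, Avoids V B → ∃ q ∈ c, B q.2 = q.1 := by
  have key : REPred fun c : List (Bool × ℕ) => ∃ t, ∀ s < 2 ^ t,
      (∃ v, V v ∧ ∀ q ∈ v, q.2 < t ∧ rpbit s q.2 = q.1) ∨
      (∃ q ∈ c, q.2 < t ∧ rpbit s q.2 = q.1) := by
    have hm : REPred fun x : ((List (Bool × ℕ) × ℕ) × ℕ) × (Bool × ℕ) =>
        x.2.2 < x.1.1.2 ∧ rpbit x.1.2 x.2.2 = x.2.1 := by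
      refine RE.and (RE.lt (by fun_prop) (by fun_prop)) (RE.eq ?_ (by fun_prop))
      exact rpbit_comp.comp (g := fun x : ((List (Bool × ℕ) × ℕ) × ℕ) × (Bool × ℕ) =>
        (x.1.2, x.2.2)) (by fun_prop)
    refine RE.exN ?_
    refine RE.all_lt (p := fun (x : List (Bool × ℕ) × ℕ) s =>
      (∃ v, V v ∧ ∀ q ∈ v, q.2 < x.2 ∧ rpbit s q.2 = q.1) ∨
      (∃ q ∈ x.1, q.2 < x.2 ∧ rpbit s q.2 = q.1)) ?_ (f := fun x => 2 ^ x.2) ?_
    · refine RE.or ?_ ?_
      · refine RE.ex (p := fun (x : (List (Bool × ℕ) × ℕ) × ℕ) (v : List (Bool × ℕ)) =>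
          V v ∧ ∀ q ∈ v, q.2 < x.1.2 ∧ rpbit x.2 q.2 = q.1) ?_
        refine RE.and (RE.comp hV Computable.snd) ?_
        refine RE.all_mem (p := fun (x : ((List (Bool × ℕ) × ℕ) × ℕ) × List (Bool × ℕ))
          (q : Bool × ℕ) => q.2 < x.1.1.2 ∧ rpbit x.1.2 q.2 = q.1) ?_ (l := fun x => x.2)
          (by fun_prop)
        exact RE.comp hm (f := fun x : (((List (Bool × ℕ) × ℕ) × ℕ) × List (Bool × ℕ)) ×
          (Bool × ℕ) => (x.1.1, x.2)) (by fun_prop)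
      · refine RE.ex_mem (p := fun (x : (List (Bool × ℕ) × ℕ) × ℕ) (q : Bool × ℕ) =>
          q.2 < x.1.2 ∧ rpbit x.2 q.2 = q.1) hm (l := fun x => x.1.1) (by fun_prop)
    · exact pow_comp.comp Computable.snd
  have e : (fun c : List (Bool × ℕ) => ∀ B, Avoids V B → ∃ q ∈ c, B q.2 = q.1) = fun c =>
      ∃ t, ∀ s < 2 ^ t, (∃ v, V v ∧ ∀ q ∈ v, q.2 < t ∧ rpbit s q.2 = q.1) ∨
      (∃ q ∈ c, q.2 < t ∧ rpbit s q.2 = q.1) := funext fun c => propext (ec0_iff V c)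
  rw [e]
  exact key

end Pool.Agent.H646R2.SV
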