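import Pool.Agent.H646R2.SV.Stmt

/-!
Sanity checks for the definitions: numbers of programs, and Mathlib's relative computability.
-/

set_option autoImplicit false
set_option linter.unusedVariables false

open Pool.Agent.H646R2.SV.Defs

namespace Pool.Agent.H646R2.SV

/-- every natural number is the number of exactly one program -/
theorem num_bijective : Function.Bijective OCode.num := by
  refine ⟨fun c d h => num_inj c d h, fun n => ?_⟩
  induction n using Nat.strong_induction_on with
  | _ n ih =>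
    by_cases h5 : n < 5
    · obtain rfl | rfl | rfl | rfl | rfl : n = 0 ∨ n = 1 ∨ n = 2 ∨ n = 3 ∨ n = 4 := by omega
      · exact ⟨.zero, rfl⟩
      · exact ⟨.succ, rfl⟩
      · exact ⟨.left, rfl⟩
      · exact ⟨.right, rfl⟩
      · exact ⟨.oracle, rfl⟩
    · have h1 := Nat.unpair_left_le ((n - 5) / 4)
      have h2 := Nat.unpair_right_le ((n - 5) / 4)
      obtain ⟨a, ha⟩ := ih (Nat.unpair ((n - 5) / 4)).1 (by omega)
      obtain ⟨b, hb⟩ := ih (Nat.unpair ((n - 5) / 4)).2 (by omega)
      obtain ⟨c, hc⟩ := ih ((n - 5) / 4) (by omega)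
      obtain h | h | h | h : (n - 5) % 4 = 0 ∨ (n - 5) % 4 = 1 ∨ (n - 5) % 4 = 2 ∨ (n - 5) % 4 = 3 := by
        omega
      · refine ⟨.pair a b, ?_⟩
        rw [OCode.num, ha, hb, Nat.pair_unpair]; omega
      · refine ⟨.comp a b, ?_⟩
        rw [OCode.num, ha, hb, Nat.pair_unpair]; omega
      · refine ⟨.prec a b, ?_⟩
        rw [OCode.num, ha, hb, Nat.pair_unpair]; omega
      · refine ⟨.rfind c, ?_⟩
        rw [OCode.num, hc]; omega

theorem exists_program {g f : ℕ → Part ℕ} (h : Nat.RecursiveIn {g} f) :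
    ∃ c : OCode, c.eval g = f := by
  induction h with
  | zero => exact ⟨.zero, rfl⟩
  | succ => exact ⟨.succ, rfl⟩
  | left => exact ⟨.left, rfl⟩
  | right => exact ⟨.right, rfl⟩
  | oracle g' hg => exact ⟨.oracle, (Set.mem_singleton_iff.1 hg).symm⟩
  | pair _ _ ih1 ih2 =>
    obtain ⟨a, rfl⟩ := ih1; obtain ⟨b, rfl⟩ := ih2; exact ⟨.pair a b, rfl⟩
  | comp _ _ ih1 ih2 =>
    obtain ⟨a, rfl⟩ := ih1; obtain ⟨b, rfl⟩ := ih2; exact ⟨.comp a b, rfl⟩
  | prec _ _ ih1 ih2 =>
    obtain ⟨a, rfl⟩ := ih1; obtain ⟨b, rfl⟩ := ih2; exact ⟨.prec a b, rfl⟩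
  | rfind _ ih1 =>
    obtain ⟨a, rfl⟩ := ih1; exact ⟨.rfind a, rfl⟩

theorem program_recursiveIn (g : ℕ → Part ℕ) (c : OCode) : Nat.RecursiveIn {g} (c.eval g) := by
  induction c with
  | zero => exact .zero
  | succ => exact .succ
  | left => exact .left
  | right => exact .right
  | oracle => exact .oracle g rfl
  | pair a b iha ihb => exact .pair iha ihb
  | comp a b iha ihb => exact .comp iha ihb
  | prec a b iha ihb => exact .prec iha ihb
  | rfind a iha => exact .rfind iha

/-- a set has an index as a set computable in `X` if and only if its characteristic function is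
computable with the oracle `X` in the sense of Mathlib -/
theorem exists_index_iff (X Y : Set ℕ) :
    (∃ e, IsIndex X e Y) ↔ Nat.RecursiveIn {chi X} (chi Y) := by
  constructor
  · rintro ⟨e, c, -, h⟩
    rw [← h]
    exact program_recursiveIn _ c
  · intro h
    obtain ⟨c, hc⟩ := exists_program h
    exact ⟨c.num, c, rfl, hc⟩

end Pool.Agent.H646R2.SV
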