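import Pool.Agent.H646R2.SV.Delta
import Pool.Agent.H646R2.SV.EffB
import Pool.Agent.Helper227.ENJ.P_beta_exists
import Pool.Agent.Helper227.ENJ.P_beta_unique
import Pool.Agent.Helper227.ENJ.P_repF_pair
import Pool.Agent.Helper227.ENJ.P_std_below

/-!
Partial truth definitions.
-/

set_option autoImplicit false
set_option linter.unusedVariables false
set_option linter.unusedSimpArgs false

open FirstOrder FirstOrder.Language Pool.Agent.Helper227.EN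

namespace Pool.Agent.H646R2.SV

section raw
variable {M : Type} [LA.Structure M]

/-- successor -/
def sc (x : M) : M := rad x (ron M)

/-- graph of the pairing function -/
def PairR (k l u : M) : Prop :=
  (rlt k l ∧ u = rad (rmu l l) k) ∨ (¬ rlt k l ∧ u = rad (rad (rmu k k) k) l)

/-- modulus -/
def mdR (c i : M) : M := rad (ron M) (rmu (rad i (ron M)) c)

/-- beta function -/
def BetaR (a c i v : M) : Prop :=
  rlt v (mdR c i) ∧ ∃ q, rlt q (sc a) ∧ a = rad (rmu q (mdR c i)) v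

/-- the beta function with one code -/
def BtR (B i v : M) : Prop := ∃ y, rlt y (sc B) ∧ ∃ z, rlt z (sc B) ∧ (PairR y z B ∧ BetaR y z i v)

/-- atomic facts by code -/
def FcR (c0 X Y Z : M) : Prop :=
  (c0 = nm M 0 ∧ rad X Y = Z) ∨ (¬ c0 = nm M 0 ∧
    ((c0 = nm M 1 ∧ rmu X Y = Z) ∨ (¬ c0 = nm M 1 ∧
      ((c0 = nm M 2 ∧ rlt X Y) ∨ (¬ c0 = nm M 2 ∧
        ((c0 = nm M 3 ∧ rze M = X) ∨ (¬ c0 = nm M 3 ∧
          ((c0 = nm M 4 ∧ ron M = X) ∨ (¬ c0 = nm M 4 ∧ X = Y)))))))))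

/-- truth of the atomic fact with code `p` -/
def FactR (p a c : M) : Prop :=
  ∃ c0, rlt c0 (sc p) ∧ ∃ t1, rlt t1 (sc p) ∧ (PairR c0 t1 p ∧
    ∃ i, rlt i (sc p) ∧ ∃ t2, rlt t2 (sc p) ∧ (PairR i t2 t1 ∧
      ∃ j, rlt j (sc p) ∧ ∃ l, rlt l (sc p) ∧ (PairR j l t2 ∧
        ∃ X, rlt X (sc a) ∧ (BetaR a c i X ∧ ∃ Y, rlt Y (sc a) ∧ (BetaR a c j Y ∧
          ∃ Z, rlt Z (sc a) ∧ (BetaR a c l Z ∧ FcR c0 X Y Z))))))

/-- the value of the beta function is `1` -/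
def B1R (B i : M) : Prop := ∃ o, rlt o (nm M 2) ∧ (o = nm M 1 ∧ BtR B i o)

/-- truth of clopen predicates -/
def Ev0R (u a c : M) : Prop :=
  ∃ N, rlt N (sc u) ∧ ∃ s, rlt s (sc u) ∧ (PairR N s u ∧
    ∃ j, rlt j N ∧ ∃ t, rlt t (sc u) ∧ (BtR s j t ∧
      ∃ P, rlt P (sc u) ∧ ∃ w, rlt w (sc u) ∧ (PairR P w t ∧
        ∀ p, rlt p P → (B1R w p ↔ FactR p a c))))

/-- `(a', c')` codes a sequence extending the first `k` entries of the sequence coded by `(a, c)` -/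
def ExtR (k a c a' c' : M) : Prop :=
  ∀ i, rlt i k → ∀ v, rlt v (sc a) → (BetaR a c i v → BetaR a' c' i v)

/-- the entries of the sequence coded by `(a', c')` up to `u'` exist -/
def TotR (u' a' c' : M) : Prop :=
  ∀ i, rlt i (sc u') → ∃ v, rlt v (sc a') ∧ BetaR a' c' i v

/-- partial truth definitions -/
def SatR : ℕ → M → M → M → Prop
  | 0, u, a, c => Ev0R u a c
  | n + 1, u, a, c => ∃ k, ∃ u', ∃ a', ∃ c', PairR k u' u ∧ (ExtR k a c a' c' ∧ (TotR u' a' c' ∧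
      ¬ SatR n u' a' c'))

end raw

/-! ### complexity -/

theorem Tm.nm (r : ℕ) : Tm (fun M _ x => nm M r) := by
  induction r with
  | zero => exact Tm.zero
  | succ r ih => exact Tm.add ih Tm.one

theorem Tm.sc {f : ∀ (M : Type) [LA.Structure M], (ℕ → M) → M} (h : Tm f) :
    Tm (fun M _ x => SV.sc (f M x)) := Tm.add h Tm.one

theorem Tm.mdR {f g : ∀ (M : Type) [LA.Structure M], (ℕ → M) → M} (h : Tm f) (h' : Tm g) :
    Tm (fun M _ x => SV.mdR (f M x) (g M x)) := Tm.add Tm.one (Tm.mul (Tm.add h' Tm.one) h)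

theorem D0.pair {f g h : ∀ (M : Type) [LA.Structure M], (ℕ → M) → M} (hf : Tm f) (hg : Tm g)
    (hh : Tm h) : D0 (fun M _ x => PairR (f M x) (g M x) (h M x)) :=
  ((D0.lt hf hg).and (D0.eq hh (Tm.add (Tm.mul hg hg) hf))).or
    ((D0.lt hf hg).not.and (D0.eq hh (Tm.add (Tm.add (Tm.mul hf hf) hf) hg)))

/-- fresh variables simp set -/
theorem upd_ne {M : Type} (x : ℕ → M) (K i : ℕ) (v : M) (h : i ≠ K) : Function.update x K v i = x i :=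
  Function.update_of_ne h _ _

theorem D0.beta0 : D0 (fun M _ x => BetaR (x 0) (x 1) (x 2) (x 3)) := by
  refine (D0.lt (Tm.var 3) (Tm.mdR (Tm.var 1) (Tm.var 2))).and ?_
  refine D0.ex (Tm.sc (Tm.var 0)) (fun M _ x q => x 0 = rad (rmu q (SV.mdR (x 1) (x 2))) (x 3)) 4 ?_ ?_
  · intro M _ x y v
    simp [Function.update_apply]
  · exact D0.eq (Tm.var 0) (Tm.add (Tm.mul (Tm.var 4) (Tm.mdR (Tm.var 1) (Tm.var 2))) (Tm.var 3))

theorem D0.beta (i j k l : ℕ) : D0 (fun M _ x => BetaR (x i) (x j) (x k) (x l)) :=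
  D0.beta0.ren (fun t => [i, j, k, l].getD t 0)

theorem D0.bt0 : D0 (fun M _ x => BtR (x 0) (x 1) (x 2)) := by
  refine D0.ex (Tm.sc (Tm.var 0)) (fun M _ x y => ∃ z, rlt z (SV.sc (x 0)) ∧
    (PairR y z (x 0) ∧ BetaR y z (x 1) (x 2))) 3 ?_ ?_
  · intro M _ x y v
    simp [Function.update_apply]
  refine D0.ex (Tm.sc (Tm.var 0)) (fun M _ x z => PairR (x 3) z (x 0) ∧ BetaR (x 3) z (x 1) (x 2)) 4 ?_ ?_
  · intro M _ x y v
    simp [Function.update_apply]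
  exact (D0.pair (Tm.var 3) (Tm.var 4) (Tm.var 0)).and (D0.beta 3 4 1 2)

theorem D0.bt (i j k : ℕ) : D0 (fun M _ x => BtR (x i) (x j) (x k)) :=
  D0.bt0.ren (fun t => [i, j, k].getD t 0)

theorem D0.b1R0 : D0 (fun M _ x => B1R (x 0) (x 1)) := by
  refine D0.ex (Tm.nm 2) (fun M _ x y => (y = SV.nm M 1 ∧ BtR (x 0) (x 1) y)) 2 ?_ ?_
  · intro M _ x y v
    simp [Function.update_apply]
  · exact (D0.eq (Tm.var 2) (Tm.nm 1)).and (D0.bt 0 1 2)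

theorem D0.b1 (i j : ℕ) : D0 (fun M _ x => B1R (x i) (x j)) :=
  D0.b1R0.ren (fun t => [i, j].getD t 0)

theorem D0.fcR (i j k l : ℕ) : D0 (fun M _ x => FcR (x i) (x j) (x k) (x l)) := by
  have e : ∀ r, D0 (fun M _ x => x i = SV.nm M r) := fun r => D0.eq (Tm.var i) (Tm.nm r)
  refine D0.or ((e 0).and (D0.eq (Tm.add (Tm.var j) (Tm.var k)) (Tm.var l)))
    ((e 0).not.and ?_)
  refine D0.or ((e 1).and (D0.eq (Tm.mul (Tm.var j) (Tm.var k)) (Tm.var l)))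
    ((e 1).not.and ?_)
  refine D0.or ((e 2).and (D0.lt (Tm.var j) (Tm.var k))) ((e 2).not.and ?_)
  refine D0.or ((e 3).and (D0.eq Tm.zero (Tm.var j))) ((e 3).not.and ?_)
  exact D0.or ((e 4).and (D0.eq Tm.one (Tm.var j))) ((e 4).not.and (D0.eq (Tm.var j) (Tm.var k)))

theorem D0.factR0 : D0 (fun M _ x => FactR (x 0) (x 1) (x 2)) := by
  refine D0.ex (Tm.sc (Tm.var 0)) (fun M _ x c0 => ∃ t1, rlt t1 (SV.sc (x 0)) ∧ (PairR c0 t1 (x 0) ∧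
    ∃ i, rlt i (SV.sc (x 0)) ∧ ∃ t2, rlt t2 (SV.sc (x 0)) ∧ (PairR i t2 t1 ∧
      ∃ j, rlt j (SV.sc (x 0)) ∧ ∃ l, rlt l (SV.sc (x 0)) ∧ (PairR j l t2 ∧
        ∃ X, rlt X (SV.sc (x 1)) ∧ (BetaR (x 1) (x 2) i X ∧ ∃ Y, rlt Y (SV.sc (x 1)) ∧
          (BetaR (x 1) (x 2) j Y ∧
          ∃ Z, rlt Z (SV.sc (x 1)) ∧ (BetaR (x 1) (x 2) l Z ∧ FcR c0 X Y Z))))))) 3 ?_ ?_
  · intro M _ x y v
    simp [Function.update_apply]
  refine D0.ex (Tm.sc (Tm.var 0)) (fun M _ x t1 => (PairR (x 3) t1 (x 0) ∧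
    ∃ i, rlt i (SV.sc (x 0)) ∧ ∃ t2, rlt t2 (SV.sc (x 0)) ∧ (PairR i t2 t1 ∧
      ∃ j, rlt j (SV.sc (x 0)) ∧ ∃ l, rlt l (SV.sc (x 0)) ∧ (PairR j l t2 ∧
        ∃ X, rlt X (SV.sc (x 1)) ∧ (BetaR (x 1) (x 2) i X ∧ ∃ Y, rlt Y (SV.sc (x 1)) ∧
          (BetaR (x 1) (x 2) j Y ∧
          ∃ Z, rlt Z (SV.sc (x 1)) ∧ (BetaR (x 1) (x 2) l Z ∧ FcR (x 3) X Y Z))))))) 4 ?_ ?_
  · intro M _ x y v
    simp [Function.update_apply]
  refine (D0.pair (Tm.var 3) (Tm.var 4) (Tm.var 0)).and ?_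
  refine D0.ex (Tm.sc (Tm.var 0)) (fun M _ x i => ∃ t2, rlt t2 (SV.sc (x 0)) ∧ (PairR i t2 (x 4) ∧
      ∃ j, rlt j (SV.sc (x 0)) ∧ ∃ l, rlt l (SV.sc (x 0)) ∧ (PairR j l t2 ∧
        ∃ X, rlt X (SV.sc (x 1)) ∧ (BetaR (x 1) (x 2) i X ∧ ∃ Y, rlt Y (SV.sc (x 1)) ∧
          (BetaR (x 1) (x 2) j Y ∧
          ∃ Z, rlt Z (SV.sc (x 1)) ∧ (BetaR (x 1) (x 2) l Z ∧ FcR (x 3) X Y Z)))))) 5 ?_ ?_
  · intro M _ x y v
    simp [Function.update_apply]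
  refine D0.ex (Tm.sc (Tm.var 0)) (fun M _ x t2 => (PairR (x 5) t2 (x 4) ∧
      ∃ j, rlt j (SV.sc (x 0)) ∧ ∃ l, rlt l (SV.sc (x 0)) ∧ (PairR j l t2 ∧
        ∃ X, rlt X (SV.sc (x 1)) ∧ (BetaR (x 1) (x 2) (x 5) X ∧ ∃ Y, rlt Y (SV.sc (x 1)) ∧
          (BetaR (x 1) (x 2) j Y ∧
          ∃ Z, rlt Z (SV.sc (x 1)) ∧ (BetaR (x 1) (x 2) l Z ∧ FcR (x 3) X Y Z)))))) 6 ?_ ?_
  · intro M _ x y v
    simp [Function.update_apply]
  refine (D0.pair (Tm.var 5) (Tm.var 6) (Tm.var 4)).and ?_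
  refine D0.ex (Tm.sc (Tm.var 0)) (fun M _ x j => ∃ l, rlt l (SV.sc (x 0)) ∧ (PairR j l (x 6) ∧
        ∃ X, rlt X (SV.sc (x 1)) ∧ (BetaR (x 1) (x 2) (x 5) X ∧ ∃ Y, rlt Y (SV.sc (x 1)) ∧
          (BetaR (x 1) (x 2) j Y ∧
          ∃ Z, rlt Z (SV.sc (x 1)) ∧ (BetaR (x 1) (x 2) l Z ∧ FcR (x 3) X Y Z))))) 7 ?_ ?_
  · intro M _ x y v
    simp [Function.update_apply]
  refine D0.ex (Tm.sc (Tm.var 0)) (fun M _ x l => (PairR (x 7) l (x 6) ∧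
        ∃ X, rlt X (SV.sc (x 1)) ∧ (BetaR (x 1) (x 2) (x 5) X ∧ ∃ Y, rlt Y (SV.sc (x 1)) ∧
          (BetaR (x 1) (x 2) (x 7) Y ∧
          ∃ Z, rlt Z (SV.sc (x 1)) ∧ (BetaR (x 1) (x 2) l Z ∧ FcR (x 3) X Y Z))))) 8 ?_ ?_
  · intro M _ x y v
    simp [Function.update_apply]
  refine (D0.pair (Tm.var 7) (Tm.var 8) (Tm.var 6)).and ?_
  refine D0.ex (Tm.sc (Tm.var 1)) (fun M _ x X => (BetaR (x 1) (x 2) (x 5) X ∧
    ∃ Y, rlt Y (SV.sc (x 1)) ∧ (BetaR (x 1) (x 2) (x 7) Y ∧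
          ∃ Z, rlt Z (SV.sc (x 1)) ∧ (BetaR (x 1) (x 2) (x 8) Z ∧ FcR (x 3) X Y Z)))) 9 ?_ ?_
  · intro M _ x y v
    simp [Function.update_apply]
  refine (D0.beta 1 2 5 9).and ?_
  refine D0.ex (Tm.sc (Tm.var 1)) (fun M _ x Y => (BetaR (x 1) (x 2) (x 7) Y ∧
          ∃ Z, rlt Z (SV.sc (x 1)) ∧ (BetaR (x 1) (x 2) (x 8) Z ∧ FcR (x 3) (x 9) Y Z))) 10 ?_ ?_
  · intro M _ x y v
    simp [Function.update_apply]
  refine (D0.beta 1 2 7 10).and ?_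
  refine D0.ex (Tm.sc (Tm.var 1)) (fun M _ x Z => (BetaR (x 1) (x 2) (x 8) Z ∧
    FcR (x 3) (x 9) (x 10) Z)) 11 ?_ ?_
  · intro M _ x y v
    simp [Function.update_apply]
  exact (D0.beta 1 2 8 11).and (D0.fcR 3 9 10 11)

theorem D0.factR (i j k : ℕ) : D0 (fun M _ x => FactR (x i) (x j) (x k)) :=
  D0.factR0.ren (fun t => [i, j, k].getD t 0)

theorem D0.ev0R0 : D0 (fun M _ x => Ev0R (x 0) (x 1) (x 2)) := by
  refine D0.ex (Tm.sc (Tm.var 0)) (fun M _ x N => ∃ s, rlt s (SV.sc (x 0)) ∧ (PairR N s (x 0) ∧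
    ∃ j, rlt j N ∧ ∃ t, rlt t (SV.sc (x 0)) ∧ (BtR s j t ∧
      ∃ P, rlt P (SV.sc (x 0)) ∧ ∃ w, rlt w (SV.sc (x 0)) ∧ (PairR P w t ∧
        ∀ p, rlt p P → (B1R w p ↔ FactR p (x 1) (x 2)))))) 3 ?_ ?_
  · intro M _ x y v
    simp [Function.update_apply]
  refine D0.ex (Tm.sc (Tm.var 0)) (fun M _ x s => (PairR (x 3) s (x 0) ∧
    ∃ j, rlt j (x 3) ∧ ∃ t, rlt t (SV.sc (x 0)) ∧ (BtR s j t ∧
      ∃ P, rlt P (SV.sc (x 0)) ∧ ∃ w, rlt w (SV.sc (x 0)) ∧ (PairR P w t ∧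
        ∀ p, rlt p P → (B1R w p ↔ FactR p (x 1) (x 2)))))) 4 ?_ ?_
  · intro M _ x y v
    simp [Function.update_apply]
  refine (D0.pair (Tm.var 3) (Tm.var 4) (Tm.var 0)).and ?_
  refine D0.ex (Tm.var 3) (fun M _ x j => ∃ t, rlt t (SV.sc (x 0)) ∧ (BtR (x 4) j t ∧
      ∃ P, rlt P (SV.sc (x 0)) ∧ ∃ w, rlt w (SV.sc (x 0)) ∧ (PairR P w t ∧
        ∀ p, rlt p P → (B1R w p ↔ FactR p (x 1) (x 2))))) 5 ?_ ?_
  · intro M _ x y v
    simp [Function.update_apply]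
  refine D0.ex (Tm.sc (Tm.var 0)) (fun M _ x t => (BtR (x 4) (x 5) t ∧
      ∃ P, rlt P (SV.sc (x 0)) ∧ ∃ w, rlt w (SV.sc (x 0)) ∧ (PairR P w t ∧
        ∀ p, rlt p P → (B1R w p ↔ FactR p (x 1) (x 2))))) 6 ?_ ?_
  · intro M _ x y v
    simp [Function.update_apply]
  refine (D0.bt 4 5 6).and ?_
  refine D0.ex (Tm.sc (Tm.var 0)) (fun M _ x P => ∃ w, rlt w (SV.sc (x 0)) ∧ (PairR P w (x 6) ∧
        ∀ p, rlt p P → (B1R w p ↔ FactR p (x 1) (x 2)))) 7 ?_ ?_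
  · intro M _ x y v
    simp [Function.update_apply]
  refine D0.ex (Tm.sc (Tm.var 0)) (fun M _ x w => (PairR (x 7) w (x 6) ∧
        ∀ p, rlt p (x 7) → (B1R w p ↔ FactR p (x 1) (x 2)))) 8 ?_ ?_
  · intro M _ x y v
    simp [Function.update_apply]
  refine (D0.pair (Tm.var 7) (Tm.var 8) (Tm.var 6)).and ?_
  refine D0.all (Tm.var 7) (fun M _ x p => (B1R (x 8) p ↔ FactR p (x 1) (x 2))) 9 ?_ ?_
  · intro M _ x y v
    simp [Function.update_apply]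
  exact D0.iff (D0.b1 8 9) (D0.factR 9 1 2)

theorem D0.ev0R (i j k : ℕ) : D0 (fun M _ x => Ev0R (x i) (x j) (x k)) :=
  D0.ev0R0.ren (fun t => [i, j, k].getD t 0)

theorem D0.extR0 : D0 (fun M _ x => ExtR (x 0) (x 1) (x 2) (x 3) (x 4)) := by
  refine D0.all (Tm.var 0) (fun M _ x i => ∀ v, rlt v (SV.sc (x 1)) →
    (BetaR (x 1) (x 2) i v → BetaR (x 3) (x 4) i v)) 5 ?_ ?_
  · intro M _ x y v
    simp [Function.update_apply]
  refine D0.all (Tm.sc (Tm.var 1)) (fun M _ x v =>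
    (BetaR (x 1) (x 2) (x 5) v → BetaR (x 3) (x 4) (x 5) v)) 6 ?_ ?_
  · intro M _ x y v
    simp [Function.update_apply]
  exact (D0.beta 1 2 5 6).imp (D0.beta 3 4 5 6)

theorem D0.extR (i j k l m : ℕ) : D0 (fun M _ x => ExtR (x i) (x j) (x k) (x l) (x m)) :=
  D0.extR0.ren (fun t => [i, j, k, l, m].getD t 0)

theorem D0.totR0 : D0 (fun M _ x => TotR (x 0) (x 1) (x 2)) := by
  refine D0.all (Tm.sc (Tm.var 0)) (fun M _ x i => ∃ v, rlt v (SV.sc (x 1)) ∧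
    BetaR (x 1) (x 2) i v) 3 ?_ ?_
  · intro M _ x y v
    simp [Function.update_apply]
  refine D0.ex (Tm.sc (Tm.var 1)) (fun M _ x v => BetaR (x 1) (x 2) (x 3) v) 4 ?_ ?_
  · intro M _ x y v
    simp [Function.update_apply]
  exact D0.beta 1 2 3 4

theorem D0.totR (i j k : ℕ) : D0 (fun M _ x => TotR (x i) (x j) (x k)) :=
  D0.totR0.ren (fun t => [i, j, k].getD t 0)

theorem SatR_hier (n : ℕ) : Hier D0 n (fun M _ x => SatR n (x 0) (x 1) (x 2)) := by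
  induction n with
  | zero => exact D0.ev0R 0 1 2
  | succ n ih =>
    refine Hier.ex D0.base (fun M _ x k => ∃ u', ∃ a', ∃ c', PairR k u' (x 0) ∧
      (ExtR k (x 1) (x 2) a' c' ∧ (TotR u' a' c' ∧ ¬ SatR n u' a' c'))) 3 ?_ ?_
    · intro M _ x y v
      simp [Function.update_apply]
    refine Hier.ex D0.base (fun M _ x u' => ∃ a', ∃ c', PairR (x 3) u' (x 0) ∧
      (ExtR (x 3) (x 1) (x 2) a' c' ∧ (TotR u' a' c' ∧ ¬ SatR n u' a' c'))) 4 ?_ ?_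
    · intro M _ x y v
      simp [Function.update_apply]
    refine Hier.ex D0.base (fun M _ x a' => ∃ c', PairR (x 3) (x 4) (x 0) ∧
      (ExtR (x 3) (x 1) (x 2) a' c' ∧ (TotR (x 4) a' c' ∧ ¬ SatR n (x 4) a' c'))) 5 ?_ ?_
    · intro M _ x y v
      simp [Function.update_apply]
    refine Hier.ex D0.base (fun M _ x c' => PairR (x 3) (x 4) (x 0) ∧
      (ExtR (x 3) (x 1) (x 2) (x 5) c' ∧ (TotR (x 4) (x 5) c' ∧ ¬ SatR n (x 4) (x 5) c'))) 6 ?_ ?_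
    · intro M _ x y v
      simp [Function.update_apply]
    have h0 : ∀ {R : Pr}, D0 R → Hier D0 (n + 1) R := fun h =>
      Hier.mono D0.base (n := 0) h (Nat.zero_le _)
    refine Hier.and D0.base (h0 (D0.pair (Tm.var 3) (Tm.var 4) (Tm.var 0))) ?_
    refine Hier.and D0.base (h0 (D0.extR 3 1 2 5 6)) ?_
    refine Hier.and D0.base (h0 (D0.totR 4 5 6)) ?_
    exact Hier.neg D0.base (Hier.ren D0.base ih (fun t => [4, 5, 6].getD t 0))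

end Pool.Agent.H646R2.SV
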