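import Pool.Agent.H646R2.SV.Force

/-!
Changing the theory while preserving the types of bounded level.
-/

set_option autoImplicit false
set_option linter.unusedVariables false

open FirstOrder FirstOrder.Language Pool.Agent.Helper227.EN

namespace Pool.Agent.H646R2.SV

/-- properties of structures -/
abbrev Sn : Type 1 := ∀ (M : Type) [LA.Structure M], Prop

/-- the property is first-order -/
def FO (X : Sn) : Prop := HierU Clop (fun M _ _ => X M)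

/-- the constant sequence with value the element `0` -/
def zr (M : Type) [LA.Structure M] : ℕ → M := fun _ => Structure.funMap (L := LA) AF.zero ![]

/-- the sentence of level `n` with code `u` -/
def Es (n u : ℕ) : Sn := fun M _ => Ev n u M (zr M)

theorem Es_FO (n u : ℕ) : FO (Es n u) := by
  have h1 : HierU Clop (fun M _ x => Structure.funMap (L := LA) AF.zero ![] = x 0 ∧
      Ev n u M (fun _ => x 0)) := by
    refine HierU.and Clop.base ((fact_hier 3 0 0 0).congr fun M _ x => by simp [fact4]) ?_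
    exact HierU.ren Clop.base ⟨n, Ev_hier n u⟩ (fun _ => 0)
  refine (h1.exv Clop.base 0).congr fun M _ x => ?_
  simp only [Function.update_self]
  constructor
  · rintro ⟨y, rfl, h⟩; exact h
  · intro h; exact ⟨_, rfl, h⟩

theorem FO.up {X : Sn} (h : FO X) {K : ℕ → Type} [∀ t, LA.Structure (K t)] [∀ t, Nonempty (K t)] :
    X (UPr K) ↔ ∀ᶠ t in (UF : Filter ℕ), X (K t) :=
  up_hierU h (fun t _ => Classical.arbitrary (K t))

theorem FO.ag {X : Sn} (h : FO X) {k : ℕ} {M M' : Type} [LA.Structure M] [LA.Structure M']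
    {x : ℕ → M} {x' : ℕ → M'} (ha : AgU k x x') : X M ↔ X M' := by
  obtain ⟨n, hn⟩ := h
  exact ha n (fun M _ _ => X M) hn (fun M _ x y _ => Iff.rfl)

theorem FO.le {X : Sn} (h : FO X) {p q : Cd} (hq : Le q p) : X p.M ↔ X q.M := h.ag hq.2

/-- The situation excluded by diagonalisation. -/
def Good (n m : ℕ) (X0 X1 : Sn) (τ : ℕ) (a0 a1 : List ℕ) : Prop :=
  ∀ (K : Type) [LA.Structure K] [Nonempty K], PAc K →
    (Es (n + 1) τ K → X0 K ∨ ∃ u ∈ a0, Es (m + 1) u K) ∧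
    (∀ u ∈ a0, Es (m + 1) u K → X0 K → X1 K ∨ ∃ w ∈ a1, Es (m + 1) w K) ∧
    (∀ w ∈ a1, Es (m + 1) w K → ¬ X1 K)

section
variable (m : ℕ) (X0 X1 : Sn)

/-- sentences of level `m + 1` inconsistent with `X1` -/
def F1 : Set ℕ := {w | ∀ (K : Type) [LA.Structure K] [Nonempty K], PAc K → Es (m + 1) w K → ¬ X1 K}

/-- sentences of level `m + 1` inconsistent with `X0`, the negation of `X1` and the negations of
the elements of `F1` -/
def F0 : Set ℕ := {u | ∃ a1 : List ℕ, (∀ w ∈ a1, w ∈ F1 m X1) ∧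
  ∀ (K : Type) [LA.Structure K] [Nonempty K], PAc K → Es (m + 1) u K → X0 K →
    X1 K ∨ ∃ w ∈ a1, Es (m + 1) w K}

end

/-- existence of a sequence with prescribed truth values of the first `t` codes of level `n` -/
theorem dia_code (n : ℕ) (s : ℕ → Prop) (t : ℕ) : ∃ u, ∀ (M : Type) [LA.Structure M] (x : ℕ → M),
    Ev (n + 1) u M x ↔ ∃ x' : ℕ → M, dia n s t M x' := by
  obtain ⟨u, hu⟩ := hier_iff.1 (Hier.blk (dia_hier n s t) 0)
  refine ⟨u, fun M _ x => ?_⟩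
  rw [← hu]
  simp

/-- general construction of a new condition by an ultraproduct -/
theorem new_cond (n : ℕ) (p : Cd) (c : ℕ → Cd)
    (hc : ∀ t, dia n (fun u => Ev n u p.M p.b) t (c t).M (c t).b) :
    ∃ q : Cd, LeN n q p ∧ q.k = p.k ∧ ∀ X : Sn, FO X →
      (X q.M ↔ ∀ᶠ t in (UF : Filter ℕ), X (c t).M) := by
  have hag : Ag n p.k p.b (ups (K := fun t => (c t).M) fun t => (c t).b) := amalg_ag hc _
  refine ⟨⟨UPr (fun t => (c t).M), PAc.up (fun t => (c t).pa),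
    ups (K := fun t => (c t).M) fun t => (c t).b, p.k, inj_of_ag le_rfl hag p.inj⟩,
    ⟨le_rfl, hag⟩, rfl, fun X hX => hX.up (K := fun t => (c t).M)⟩

/-- condition with empty tuple -/
def mkCd (K : Type) [LA.Structure K] [Nonempty K] (h : PAc K) (b : ℕ → K) : Cd :=
  ⟨K, h, b, 0, fun i hi => absurd hi (Nat.not_lt_zero i)⟩

theorem step0 {n m : ℕ} {X0 X1 : Sn} (h0 : FO X0) (p : Cd)
    (hG : ∀ τ a0 a1, Es (n + 1) τ p.M → ¬ Good n m X0 X1 τ a0 a1) :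
    ∃ q : Cd, LeN n q p ∧ q.k = p.k ∧ ¬ X0 q.M ∧ ∀ u ∈ F0 m X0 X1, ¬ Es (m + 1) u q.M := by
  classical
  have key : ∀ t, ∃ c : Cd, dia n (fun u => Ev n u p.M p.b) t c.M c.b ∧ ¬ X0 c.M ∧
      ∀ u < t, u ∈ F0 m X0 X1 → ¬ Es (m + 1) u c.M := by
    intro t
    obtain ⟨τ, hτ⟩ := dia_code n (fun u => Ev n u p.M p.b) t
    have h1 : ∀ u, ∃ a1 : List ℕ, u ∈ F0 m X0 X1 → (∀ w ∈ a1, w ∈ F1 m X1) ∧
        ∀ (K : Type) [LA.Structure K] [Nonempty K], PAc K → Es (m + 1) u K → X0 K →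
          X1 K ∨ ∃ w ∈ a1, Es (m + 1) w K := by
      intro u
      by_cases hu : u ∈ F0 m X0 X1
      · obtain ⟨a1, ha1⟩ := hu; exact ⟨a1, fun _ => ha1⟩
      · exact ⟨[], fun h => absurd h hu⟩
    choose a ha using h1
    let a0 : List ℕ := (List.range t).filter (fun u => decide (u ∈ F0 m X0 X1))
    have ha0 : ∀ u, u ∈ a0 ↔ u < t ∧ u ∈ F0 m X0 X1 := by
      intro u; simp [a0]
    have h2 := hG τ a0 (a0.flatMap a) ((hτ _ _).2 ⟨p.b, fun u _ => Iff.rfl⟩)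
    unfold Good at h2
    push Not at h2
    obtain ⟨K, i1, i2, hK, h3⟩ := h2
    have h4 : ∀ u ∈ a0, Es (m + 1) u K → X0 K → X1 K ∨ ∃ w ∈ a0.flatMap a, Es (m + 1) w K := by
      intro u hu h5 h6
      rcases (ha u ((ha0 u).1 hu).2).2 K hK h5 h6 with h7 | ⟨w, hw, h7⟩
      · exact Or.inl h7
      · exact Or.inr ⟨w, List.mem_flatMap.2 ⟨u, hu, hw⟩, h7⟩
    have h5 : ∀ w ∈ a0.flatMap a, Es (m + 1) w K → ¬ X1 K := by
      intro w hw
      obtain ⟨u, hu, hw⟩ := List.mem_flatMap.1 hw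
      exact (ha u ((ha0 u).1 hu).2).1 w hw K hK
    have h6 : ¬ (Es (n + 1) τ K → X0 K ∨ ∃ u ∈ a0, Es (m + 1) u K) := by
      intro hc
      obtain ⟨w, hw, h7, h8⟩ := h3 hc h4
      exact h5 w hw h7 h8
    push Not at h6
    obtain ⟨h7, h8, h9⟩ := h6
    obtain ⟨b, hb⟩ := (hτ K (zr K)).1 h7
    exact ⟨mkCd K hK b, hb, h8, fun u hu hu2 => h9 u ((ha0 u).2 ⟨hu, hu2⟩)⟩
  choose c hc1 hc2 hc3 using key
  obtain ⟨q, hq1, hq2, hq3⟩ := new_cond n p c hc1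
  refine ⟨q, hq1, hq2, ?_, fun u hu => ?_⟩
  · rw [hq3 X0 h0, uf_not]
    exact Filter.Eventually.of_forall hc2
  · rw [hq3 _ (Es_FO (m + 1) u), uf_not]
    exact (uf_ge (u + 1)).mono fun t ht => hc3 t u (by omega) hu

theorem step1 {m : ℕ} {X0 X1 : Sn} (h0 : FO X0) (h1 : FO X1) (p : Cd)
    (hp : ∀ u ∈ F0 m X0 X1, ¬ Es (m + 1) u p.M) :
    ∃ q : Cd, LeN m q p ∧ q.k = p.k ∧ X0 q.M ∧ ¬ X1 q.M ∧ ∀ w ∈ F1 m X1, ¬ Es (m + 1) w q.M := by
  classical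
  have key : ∀ t, ∃ c : Cd, dia m (fun u => Ev m u p.M p.b) t c.M c.b ∧ X0 c.M ∧ ¬ X1 c.M ∧
      ∀ w < t, w ∈ F1 m X1 → ¬ Es (m + 1) w c.M := by
    intro t
    obtain ⟨τ, hτ⟩ := dia_code m (fun u => Ev m u p.M p.b) t
    have h2 : τ ∉ F0 m X0 X1 := fun hc => hp τ hc ((hτ _ _).2 ⟨p.b, fun u _ => Iff.rfl⟩)
    let a1 : List ℕ := (List.range t).filter (fun u => decide (u ∈ F1 m X1))
    have ha1 : ∀ u, u ∈ a1 ↔ u < t ∧ u ∈ F1 m X1 := by
      intro u; simp [a1]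
    have h3 : ¬ ∀ (K : Type) [LA.Structure K] [Nonempty K], PAc K → Es (m + 1) τ K → X0 K →
        X1 K ∨ ∃ w ∈ a1, Es (m + 1) w K := fun hc => h2 ⟨a1, fun w hw => ((ha1 w).1 hw).2, hc⟩
    push Not at h3
    obtain ⟨K, i1, i2, hK, h4, h5, h6, h7⟩ := h3
    obtain ⟨b, hb⟩ := (hτ K (zr K)).1 h4
    exact ⟨mkCd K hK b, hb, h5, h6, fun w hw hw2 => h7 w ((ha1 w).2 ⟨hw, hw2⟩)⟩
  choose c hc1 hc2 hc3 hc4 using key
  obtain ⟨q, hq1, hq2, hq3⟩ := new_cond m p c hc1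
  refine ⟨q, hq1, hq2, ?_, ?_, fun u hu => ?_⟩
  · rw [hq3 X0 h0]
    exact Filter.Eventually.of_forall hc2
  · rw [hq3 X1 h1, uf_not]
    exact Filter.Eventually.of_forall hc3
  · rw [hq3 _ (Es_FO (m + 1) u), uf_not]
    exact (uf_ge (u + 1)).mono fun t ht => hc4 t u (by omega) hu

theorem step2 {m : ℕ} {X1 : Sn} (h1 : FO X1) (p : Cd)
    (hp : ∀ w ∈ F1 m X1, ¬ Es (m + 1) w p.M) :
    ∃ q : Cd, LeN m q p ∧ q.k = p.k ∧ X1 q.M := by
  classical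
  have key : ∀ t, ∃ c : Cd, dia m (fun u => Ev m u p.M p.b) t c.M c.b ∧ X1 c.M := by
    intro t
    obtain ⟨τ, hτ⟩ := dia_code m (fun u => Ev m u p.M p.b) t
    have h2 : τ ∉ F1 m X1 := fun hc => hp τ hc ((hτ _ _).2 ⟨p.b, fun u _ => Iff.rfl⟩)
    have h3 : ¬ ∀ (K : Type) [LA.Structure K] [Nonempty K], PAc K → Es (m + 1) τ K → ¬ X1 K := h2
    push Not at h3
    obtain ⟨K, i1, i2, hK, h4, h5⟩ := h3
    obtain ⟨b, hb⟩ := (hτ K (zr K)).1 h4
    exact ⟨mkCd K hK b, hb, h5⟩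
  choose c hc1 hc2 using key
  obtain ⟨q, hq1, hq2, hq3⟩ := new_cond m p c hc1
  refine ⟨q, hq1, hq2, ?_⟩
  rw [hq3 X1 h1]
  exact Filter.Eventually.of_forall hc2

end Pool.Agent.H646R2.SV
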