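import Pool.Agent.H646R2.SV.Sat
import Pool.Agent.H646R2.SV.Steps

/-!
Correctness of the partial truth definitions for standard codes.
-/

set_option autoImplicit false
set_option linter.unusedVariables false
set_option linter.unusedSimpArgs false
set_option linter.unusedSectionVars false

open FirstOrder FirstOrder.Language Pool.Agent.Helper227.EN

namespace Pool.Agent.H646R2.SV

section
variable {M : Type} [CommSemiring M] [LinearOrder M] [IsStrictOrderedRing M]
    [CanonicallyOrderedAdd M] [LA.Structure M] (hc : Compat M)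
include hc

theorem rlt_iff (x y : M) : rlt x y ↔ x < y := hc.lt x y
theorem rad_eq (x y : M) : rad x y = x + y := hc.add x y
theorem rmu_eq (x y : M) : rmu x y = x * y := hc.mul x y
theorem rze_eq : rze M = 0 := hc.zero
theorem ron_eq : ron M = 1 := hc.one
theorem nm_eq (r : ℕ) : nm M r = (r : M) := by
  induction r with
  | zero => rw [Nat.cast_zero]; exact hc.zero
  | succ r ih =>
    rw [Nat.cast_succ, ← ih]
    exact (hc.add _ _).trans (by rw [hc.one])
theorem sc_eq (x : M) : sc x = x + 1 := by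
  unfold sc; rw [rad_eq hc, ron_eq hc]
theorem mdR_eq (c i : M) : mdR c i = 1 + (i + 1) * c := by
  unfold mdR; rw [rad_eq hc, ron_eq hc, rmu_eq hc, rad_eq hc]

theorem lt_succ_iff' (x y : M) : x < y + 1 ↔ x ≤ y := by
  constructor
  · intro h
    by_contra hn
    rw [not_le] at hn
    obtain ⟨d, rfl⟩ := le_iff_exists_add.mp hn.le
    have hd1 : 1 ≤ d := by
      by_contra h'
      have h0 := hc.disc d (not_le.mp h')
      rw [h0, add_zero] at hn
      exact lt_irrefl _ hn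
    have : y + 1 ≤ y + d := by gcongr
    exact absurd h (not_lt.mpr this)
  · intro h
    exact lt_of_le_of_lt h (lt_add_of_pos_right _ one_pos)

theorem rlt_sc (x y : M) : rlt x (sc y) ↔ x ≤ y := by
  rw [rlt_iff hc, sc_eq hc, lt_succ_iff' hc]

theorem pairR_iff (a b : M) (n : ℕ) :
    PairR a b (n : M) ↔ a = ((Nat.unpair n).1 : ℕ) ∧ b = ((Nat.unpair n).2 : ℕ) := by
  unfold PairR
  simp only [rlt_iff hc, rad_eq hc, rmu_eq hc, not_lt]
  have h2 : ∀ (a b : ℕ) (y : M),
      (((a : M) < b ∧ y = b * b + a) ∨ ((b : M) ≤ a ∧ y = a * a + a + b)) ↔ y = (Nat.pair a b : ℕ) := by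
    intro a b y
    unfold Nat.pair
    by_cases h : a < b
    · rw [if_pos h]
      have h1 : (a : M) < b := Nat.cast_lt.mpr h
      have h3 : ¬ ((b : M) ≤ a) := not_le.mpr h1
      push_cast
      simp only [h1, h3, true_and, false_and, or_false]
    · rw [if_neg h]
      have h3 : ¬ ((a : M) < b) := fun hh => h (Nat.cast_lt.mp hh)
      have h1 : (b : M) ≤ a := not_lt.mp h3
      push_cast
      simp only [h1, h3, true_and, false_and, false_or]
  constructor
  · intro h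
    have hab : a ≤ (n : M) ∧ b ≤ (n : M) := by
      rcases h with ⟨h1, h3⟩ | ⟨h1, h3⟩
      · rw [h3]
        refine ⟨le_add_self, ?_⟩
        have hb0 : b ≠ 0 := by
          intro hb
          rw [hb] at h1
          exact absurd h1 (not_lt.mpr zero_le)
        have hb1 : 1 ≤ b := by
          by_contra hcon
          exact hb0 (hc.disc b (not_le.mp hcon))
        calc b = b * 1 := (mul_one b).symm
          _ ≤ b * b := mul_le_mul_right hb1 b
          _ ≤ b * b + a := le_self_add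
      · rw [h3]
        constructor
        · calc a ≤ a * a + a := le_add_self
            _ ≤ a * a + a + b := le_self_add
        · exact le_add_self
    obtain ⟨m, -, hm⟩ := std_below hc n a hab.1
    obtain ⟨m', -, hm'⟩ := std_below hc n b hab.2
    rw [hm, hm'] at h
    have h4 := (h2 m m' n).mp h
    have h5 : n = Nat.pair m m' := Nat.cast_injective h4
    rw [hm, hm', h5, Nat.unpair_pair]
    exact ⟨rfl, rfl⟩
  · rintro ⟨h1, h3⟩
    rw [h1, h3, h2, Nat.pair_unpair]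

theorem one_le_md (c i : M) : (1 : M) ≤ 1 + (i + 1) * c := le_self_add

theorem betaR_iff (a c i v : M) : BetaR a c i v ↔ Beta a c i v := by
  unfold BetaR Beta
  rw [rlt_iff hc, mdR_eq hc]
  refine and_congr Iff.rfl ⟨?_, ?_⟩
  · rintro ⟨q, -, hq⟩
    rw [rad_eq hc, rmu_eq hc] at hq
    exact ⟨q, hq⟩
  · rintro ⟨q, hq⟩
    refine ⟨q, ?_, ?_⟩
    · rw [rlt_sc hc]
      calc q = q * 1 := (mul_one q).symm
        _ ≤ q * (1 + (i + 1) * c) := mul_le_mul_right (one_le_md hc c i) q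
        _ ≤ q * (1 + (i + 1) * c) + v := le_self_add
        _ = a := hq.symm
    · rw [rad_eq hc, rmu_eq hc]; exact hq

theorem Beta.le {a c i v : M} (h : Beta a c i v) : v ≤ a := by
  obtain ⟨-, q, hq⟩ := h
  rw [hq]; exact le_add_self

theorem beta_std (a c i : ℕ) :
    Beta (a : M) (c : M) (i : M) ((a % ((i + 1) * c + 1) : ℕ) : M) := by
  refine ⟨?_, ((a / ((i + 1) * c + 1) : ℕ) : M), ?_⟩
  · have h : a % ((i + 1) * c + 1) < (i + 1) * c + 1 := Nat.mod_lt _ (Nat.succ_pos _)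
    have h2 : (((a % ((i + 1) * c + 1) : ℕ)) : M) < (((i + 1) * c + 1 : ℕ) : M) := Nat.cast_lt.2 h
    refine lt_of_lt_of_eq h2 ?_
    push_cast
    ring
  · have h : (a / ((i + 1) * c + 1)) * ((i + 1) * c + 1) + a % ((i + 1) * c + 1) = a := by
      rw [mul_comm]; exact Nat.div_add_mod _ _
    have h2 : (((a / ((i + 1) * c + 1)) * ((i + 1) * c + 1) + a % ((i + 1) * c + 1) : ℕ) : M) = (a : M) := by
      rw [h]
    rw [← h2]
    rw [Nat.cast_add, Nat.cast_mul]
    congr 2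
    push_cast
    ring

theorem btR_iff (B i : ℕ) (v : M) : BtR (B : M) (i : M) v ↔ v = (Nat.beta B i : ℕ) := by
  unfold BtR
  constructor
  · rintro ⟨y, -, z, -, h1, h2⟩
    rw [pairR_iff hc] at h1
    rw [betaR_iff hc, h1.1, h1.2] at h2
    exact beta_unique hc.disc _ _ _ _ _ h2 (beta_std hc _ _ _)
  · rintro rfl
    refine ⟨((Nat.unpair B).1 : ℕ), ?_, ((Nat.unpair B).2 : ℕ), ?_, ?_, ?_⟩
    · rw [rlt_sc hc, Nat.cast_le]; exact Nat.unpair_left_le _
    · rw [rlt_sc hc, Nat.cast_le]; exact Nat.unpair_right_le _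
    · rw [pairR_iff hc]; exact ⟨rfl, rfl⟩
    · rw [betaR_iff hc]; exact beta_std hc _ _ _

theorem b1R_iff (B i : ℕ) : B1R (B : M) (i : M) ↔ Nat.beta B i = 1 := by
  unfold B1R
  constructor
  · rintro ⟨o, -, h1, h2⟩
    rw [btR_iff hc] at h2
    rw [h2, nm_eq hc, Nat.cast_inj] at h1
    exact h1
  · intro h
    refine ⟨nm M 1, ?_, rfl, ?_⟩
    · rw [rlt_iff hc, nm_eq hc, nm_eq hc, Nat.cast_lt]; omega
    · rw [btR_iff hc, h, nm_eq hc]

theorem fcR_iff (x : ℕ → M) (c0 i j l : ℕ) :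
    FcR (c0 : M) (x i) (x j) (x l) ↔ fact4 x c0 i j l := by
  unfold FcR fact4
  simp only [nm_eq hc, Nat.cast_inj]
  by_cases h0 : c0 = 0
  · simp [h0, rad]
  by_cases h1 : c0 = 1
  · simp [h0, h1, rmu]
  by_cases h2 : c0 = 2
  · simp [h0, h1, h2, rlt]
  by_cases h3 : c0 = 3
  · simp [h0, h1, h2, h3, rze]
  by_cases h4 : c0 = 4
  · simp [h0, h1, h2, h3, h4, ron]
  · simp [h0, h1, h2, h3, h4]

theorem factR_iff (p : ℕ) {a c : M} {x : ℕ → M} (hx : ∀ i ≤ p, Beta a c (i : M) (x i)) :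
    FactR (p : M) a c ↔ fact4 x (q0 p) (q1 p) (q2 p) (q3 p) := by
  have hu : ∀ i ≤ p, ∀ v, BetaR a c (i : M) v ↔ v = x i := by
    intro i hi v
    rw [betaR_iff hc]
    constructor
    · intro h; exact beta_unique hc.disc _ _ _ _ _ h (hx i hi)
    · rintro rfl; exact hx i hi
  unfold FactR
  rw [← fcR_iff hc]
  constructor
  · rintro ⟨c0, -, t1, -, h1, i, -, t2, -, h2, j, -, l, -, h3, X, -, hX, Y, -, hY, Z, -, hZ, h⟩
    rw [pairR_iff hc] at h1
    obtain ⟨rfl, rfl⟩ := h1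
    rw [pairR_iff hc] at h2
    obtain ⟨rfl, rfl⟩ := h2
    rw [pairR_iff hc] at h3
    obtain ⟨rfl, rfl⟩ := h3
    have hX := (hu (q1 p) (q1_le p) X).1 hX
    have hY := (hu (q2 p) (q2_le p) Y).1 hY
    have hZ := (hu (q3 p) (q3_le p) Z).1 hZ
    subst hX hY hZ
    exact h
  · intro h
    refine ⟨(q0 p : ℕ), ?_, ((Nat.unpair p).2 : ℕ), ?_, ?_, (q1 p : ℕ), ?_,
      ((Nat.unpair (Nat.unpair p).2).2 : ℕ), ?_, ?_, (q2 p : ℕ), ?_, (q3 p : ℕ), ?_, ?_,
      x (q1 p), ?_, ?_, x (q2 p), ?_, ?_, x (q3 p), ?_, ?_, h⟩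
    · rw [rlt_sc hc, Nat.cast_le]; exact Nat.unpair_left_le _
    · rw [rlt_sc hc, Nat.cast_le]; exact Nat.unpair_right_le _
    · rw [pairR_iff hc]; exact ⟨rfl, rfl⟩
    · rw [rlt_sc hc, Nat.cast_le]; exact q1_le p
    · rw [rlt_sc hc, Nat.cast_le]; exact (Nat.unpair_right_le _).trans (Nat.unpair_right_le _)
    · rw [pairR_iff hc]; exact ⟨rfl, rfl⟩
    · rw [rlt_sc hc, Nat.cast_le]; exact q2_le p
    · rw [rlt_sc hc, Nat.cast_le]; exact q3_le p
    · rw [pairR_iff hc]; exact ⟨rfl, rfl⟩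
    · rw [rlt_sc hc]; exact Beta.le hc (hx _ (q1_le p))
    · exact (hu _ (q1_le p) _).2 rfl
    · rw [rlt_sc hc]; exact Beta.le hc (hx _ (q2_le p))
    · exact (hu _ (q2_le p) _).2 rfl
    · rw [rlt_sc hc]; exact Beta.le hc (hx _ (q3_le p))
    · exact (hu _ (q3_le p) _).2 rfl

theorem ev0R_iff (u : ℕ) {a c : M} {x : ℕ → M} (hx : ∀ i ≤ u, Beta a c (i : M) (x i)) :
    Ev0R (u : M) a c ↔ Ev0 u (D x) := by
  have key : ∀ (j : ℕ), (∀ p : M, rlt p ((Nat.unpair (Nat.beta (Nat.unpair u).2 j)).1 : ℕ) →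
      (B1R (((Nat.unpair (Nat.beta (Nat.unpair u).2 j)).2 : ℕ) : M) p ↔ FactR p a c)) ↔
      ∀ p < (Nat.unpair (Nat.beta (Nat.unpair u).2 j)).1,
        (Nat.beta (Nat.unpair (Nat.beta (Nat.unpair u).2 j)).2 p = 1 ↔ D x p = true) := by
    intro j
    constructor
    · intro h p hp
      have h1 := h (p : M) (by rw [rlt_iff hc, Nat.cast_lt]; exact hp)
      rw [b1R_iff hc, factR_iff hc p fun i hi => hx i (by have := ev0_bound hp; omega)] at h1
      rw [h1, D_iff]
    · intro h p hp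
      rw [rlt_iff hc] at hp
      obtain ⟨p, -, rfl⟩ := std_below hc _ p hp.le
      rw [Nat.cast_lt] at hp
      rw [b1R_iff hc, factR_iff hc p fun i hi => hx i (by have := ev0_bound hp; omega), h p hp, D_iff]
  unfold Ev0R Ev0
  constructor
  · rintro ⟨N, -, s, -, h1, j, hj, t, -, h2, P, -, w, -, h3, h4⟩
    rw [pairR_iff hc] at h1
    obtain ⟨rfl, rfl⟩ := h1
    rw [rlt_iff hc] at hj
    obtain ⟨j, -, rfl⟩ := std_below hc _ j hj.le
    rw [Nat.cast_lt] at hj
    rw [btR_iff hc] at h2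
    subst h2
    rw [pairR_iff hc] at h3
    obtain ⟨rfl, rfl⟩ := h3
    exact ⟨j, hj, (key j).1 h4⟩
  · rintro ⟨j, hj, h⟩
    have hle : Nat.beta (Nat.unpair u).2 j ≤ u := (beta_le _ _).trans (Nat.unpair_right_le _)
    refine ⟨((Nat.unpair u).1 : ℕ), ?_, ((Nat.unpair u).2 : ℕ), ?_, ?_, (j : M), ?_,
      (Nat.beta (Nat.unpair u).2 j : ℕ), ?_, ?_,
      ((Nat.unpair (Nat.beta (Nat.unpair u).2 j)).1 : ℕ), ?_,
      ((Nat.unpair (Nat.beta (Nat.unpair u).2 j)).2 : ℕ), ?_, ?_, (key j).2 h⟩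
    · rw [rlt_sc hc, Nat.cast_le]; exact Nat.unpair_left_le _
    · rw [rlt_sc hc, Nat.cast_le]; exact Nat.unpair_right_le _
    · rw [pairR_iff hc]; exact ⟨rfl, rfl⟩
    · rw [rlt_iff hc, Nat.cast_lt]; exact hj
    · rw [rlt_sc hc, Nat.cast_le]; exact hle
    · rw [btR_iff hc]
    · rw [rlt_sc hc, Nat.cast_le]; exact (Nat.unpair_left_le _).trans hle
    · rw [rlt_sc hc, Nat.cast_le]; exact (Nat.unpair_right_le _).trans hle
    · rw [pairR_iff hc]; exact ⟨rfl, rfl⟩

theorem satR_iff (n u : ℕ) {a c : M} {x : ℕ → M} (hx : ∀ i ≤ u, Beta a c (i : M) (x i)) :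
    SatR n (u : M) a c ↔ Ev n u M x := by
  induction n generalizing u a c x with
  | zero => exact ev0R_iff hc u hx
  | succ n ih =>
    have hk := Nat.unpair_left_le u
    have hu := Nat.unpair_right_le u
    constructor
    · rintro ⟨k, u', a', c', h1, h2, h3, h4⟩
      rw [pairR_iff hc] at h1
      obtain ⟨rfl, rfl⟩ := h1
      have h5 : ∀ i : ℕ, ∃ v : M, i ≤ (Nat.unpair u).2 → Beta a' c' (i : M) v := by
        intro i
        by_cases hi : i ≤ (Nat.unpair u).2
        · obtain ⟨v, -, hv⟩ := h3 (i : M) (by rw [rlt_sc hc, Nat.cast_le]; exact hi)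
          exact ⟨v, fun _ => (betaR_iff hc _ _ _ _).1 hv⟩
        · exact ⟨0, fun h => absurd h hi⟩
      choose y hy using h5
      refine ⟨fun i => if i < (Nat.unpair u).1 then x i else y i, fun i hi => if_pos hi, ?_⟩
      have h6 : ∀ i ≤ (Nat.unpair u).2, Beta a' c' (i : M)
          (if i < (Nat.unpair u).1 then x i else y i) := by
        intro i hi
        by_cases hik : i < (Nat.unpair u).1
        · rw [if_pos hik]
          have h7 := hx i (by omega)
          have h8 := h2 (i : M) (by rw [rlt_iff hc, Nat.cast_lt]; exact hik) (x i)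
            (by rw [rlt_sc hc]; exact Beta.le hc h7) ((betaR_iff hc _ _ _ _).2 h7)
          exact (betaR_iff hc _ _ _ _).1 h8
        · rw [if_neg hik]; exact hy i hi
      rwa [ih (Nat.unpair u).2 h6] at h4
    · rintro ⟨x', h1, h2⟩
      obtain ⟨a', c', h3⟩ := beta_exists hc.disc ((Nat.unpair u).1 + (Nat.unpair u).2 + 1) x'
      refine ⟨((Nat.unpair u).1 : ℕ), ((Nat.unpair u).2 : ℕ), a', c', ?_, ?_, ?_, ?_⟩
      · rw [pairR_iff hc]; exact ⟨rfl, rfl⟩
      · intro i hi v _ hv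
        rw [rlt_iff hc] at hi
        obtain ⟨i, -, rfl⟩ := std_below hc _ i hi.le
        rw [Nat.cast_lt] at hi
        rw [betaR_iff hc] at hv ⊢
        have := beta_unique hc.disc _ _ _ _ _ hv (hx i (by omega))
        rw [this, ← h1 i hi]
        exact h3 i (by omega)
      · intro i hi
        rw [rlt_sc hc] at hi
        obtain ⟨i, -, rfl⟩ := std_below hc _ i hi
        rw [Nat.cast_le] at hi
        refine ⟨x' i, ?_, ?_⟩
        · rw [rlt_sc hc]; exact Beta.le hc (h3 i (by omega))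
        · rw [betaR_iff hc]; exact h3 i (by omega)
      · rwa [ih (Nat.unpair u).2 fun i hi => h3 i (by omega)]

theorem satR_sent (n u : ℕ) : SatR n (u : M) (0 : M) (0 : M) ↔ Es n u M := by
  refine satR_iff hc n u fun i _ => ?_
  have : (zr M : ℕ → M) i = 0 := hc.zero
  rw [this]
  refine ⟨?_, 0, by simp⟩
  rw [mul_zero, add_zero]
  exact one_pos

end

end Pool.Agent.H646R2.SV
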