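import Pool.Agent.H646R2.SV.SatC
import Pool.Agent.Helper578.JD.Core
import Pool.Agent.Helper227.ENJ.P_repF_comp2

/-!
The search formula, and the chain lemma.
-/

set_option autoImplicit false
set_option linter.unusedVariables false
set_option linter.unusedSimpArgs false

open FirstOrder FirstOrder.Language Pool.Agent.Helper227.EN Pool.Agent.Helper578.JD Encodable

namespace Pool.Agent.H646R2.SV

/-- disjunctions of codes -/
theorem exists_disj (n : ℕ) (a : List ℕ) : ∃ u, ∀ (M : Type) [LA.Structure M] (x : ℕ → M),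
    Ev n u M x ↔ ∃ v ∈ a, Ev n v M x := by
  induction a with
  | nil =>
    have h0 : Clop (fun M _ x => False) := ⟨0, fun _ => False, fun _ _ _ => Iff.rfl, rfl⟩
    have h1 : Hier Clop n (fun M _ x => False) :=
      Hier.mono Clop.base (n := 0) h0 (Nat.zero_le _)
    obtain ⟨u, hu⟩ := hier_iff.1 h1
    refine ⟨u, fun M _ x => ?_⟩
    rw [← hu]; simp
  | cons v a ih =>
    obtain ⟨u, hu⟩ := ih
    obtain ⟨u', hu'⟩ := hier_iff.1 (Hier.or Clop.base (Ev_hier n v) (Ev_hier n u))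
    refine ⟨u', fun M _ x => ?_⟩
    rw [← hu']
    simp [hu]

/-- the excluded situation with single codes -/
def Good1 (n m : ℕ) (X0 X1 : Sn) (τ u w : ℕ) : Prop :=
  ∀ (K : Type) [LA.Structure K] [Nonempty K], PAc K →
    (Es (n + 1) τ K → X0 K ∨ Es (m + 1) u K) ∧
    (Es (m + 1) u K → X0 K → X1 K ∨ Es (m + 1) w K) ∧
    (Es (m + 1) w K → ¬ X1 K)

theorem Good.one {n m : ℕ} {X0 X1 : Sn} {τ : ℕ} {a0 a1 : List ℕ} (h : Good n m X0 X1 τ a0 a1) :
    ∃ u w, Good1 n m X0 X1 τ u w := by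
  obtain ⟨u, hu⟩ := exists_disj (m + 1) a0
  obtain ⟨w, hw⟩ := exists_disj (m + 1) a1
  refine ⟨u, w, fun K _ _ hK => ?_⟩
  obtain ⟨h1, h2, h3⟩ := h K hK
  have hu' : Es (m + 1) u K ↔ ∃ v ∈ a0, Es (m + 1) v K := hu K _
  have hw' : Es (m + 1) w K ↔ ∃ v ∈ a1, Es (m + 1) v K := hw K _
  rw [hu', hw']
  refine ⟨h1, ?_, ?_⟩
  · rintro ⟨v, hv, h4⟩; exact h2 v hv h4
  · rintro ⟨v, hv, h4⟩; exact h3 v hv h4

/-! ### the formulas -/

section
variable (K : Type) [LA.Structure K]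

/-- a formula with three free variables -/
def r3 (φ : LA.Formula ℕ) (a b c : K) : Prop :=
  φ.Realize (fun i => if i = 0 then a else if i = 1 then b else c)

/-- truth of a sentence of level `n` -/
def SaR (n : ℕ) (t : K) : Prop := ∃ o, o = nm K 0 ∧ SatR n t o o

/-- the search relation -/
def SP (φ φ1 : LA.Formula ℕ) (n : ℕ) (v z : K) : Prop :=
  (∃ o, o = nm K 1 ∧ r3 K φ v z o) ∧ ∃ t, r3 K φ1 z t t ∧ SaR K (n + 1) t

/-- least solution of the search -/
def LP (φ φ1 : LA.Formula ℕ) (n : ℕ) (v z : K) : Prop :=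
  SP K φ φ1 n v z ∧ ¬ ∃ z', rlt z' z ∧ SP K φ φ1 n v z'

/-- result of the search -/
def HP (φ φ1 φ2 : LA.Formula ℕ) (n : ℕ) (v w : K) : Prop :=
  ∃ z, LP K φ φ1 n v z ∧ r3 K φ2 z w w

/-- the diagonal predicates -/
def CP (φ φ1 φ2 : LA.Formula ℕ) (n m : ℕ) (v : K) : Prop :=
  ∃ w, HP K φ φ1 φ2 n v w ∧ SaR K (m + 1) w

end

theorem r3_hier (φ : LA.Formula ℕ) (i j k : ℕ) :
    HierU Clop (fun K _ x => r3 K φ (x i) (x j) (x k)) := by
  refine ((formula_hier φ).ren Clop.base (fun t => if t = 0 then i else if t = 1 then j else k)).congr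
    fun K _ x => ?_
  unfold r3
  have : (fun t : ℕ => x (if t = 0 then i else if t = 1 then j else k)) =
      fun t : ℕ => if t = 0 then x i else if t = 1 then x j else x k := by
    funext t; split_ifs <;> rfl
  rw [this]

theorem SaR_hier0 (n : ℕ) : Hier D0 (n + 1) (fun K _ x => SaR K (n + 1) (x 0)) := by
  refine Hier.ex D0.base (fun K _ x o => o = nm K 0 ∧ SatR (n + 1) (x 0) o o) 1 ?_ ?_
  · intro M _ x y v
    simp [Function.update_apply]
  refine Hier.and D0.base (Hier.mono D0.base (n := 0) (D0.eq (Tm.var 1) (Tm.nm 0)) (Nat.zero_le _)) ?_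
  exact Hier.ren D0.base (SatR_hier (n + 1)) (fun t => [0, 1, 1].getD t 0)

theorem SaR_hier (n i : ℕ) : Hier D0 (n + 1) (fun K _ x => SaR K (n + 1) (x i)) :=
  Hier.ren D0.base (SaR_hier0 n) (fun _ => i)

theorem D0_U {R : Pr} (h : D0 R) : HierU Clop R := D0.hierU h

theorem SP_hier0 (φ φ1 : LA.Formula ℕ) (n : ℕ) :
    HierU Clop (fun K _ x => SP K φ φ1 n (x 0) (x 1)) := by
  refine HierU.and Clop.base ?_ ?_
  · refine HierU.ex Clop.base (fun K _ x o => o = nm K 1 ∧ r3 K φ (x 0) (x 1) o) 2 ?_ ?_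
    · intro M _ x y v
      simp [Function.update_apply]
    · exact (D0_U (D0.eq (Tm.var 2) (Tm.nm 1))).and Clop.base (r3_hier φ 0 1 2)
  · refine HierU.ex Clop.base (fun K _ x t => r3 K φ1 (x 1) t t ∧ SaR K (n + 1) t) 2 ?_ ?_
    · intro M _ x y v
      simp [Function.update_apply]
    · exact (r3_hier φ1 1 2 2).and Clop.base (hier_D0_hierU (SaR_hier n 2))

theorem SP_hier (φ φ1 : LA.Formula ℕ) (n i j : ℕ) :
    HierU Clop (fun K _ x => SP K φ φ1 n (x i) (x j)) :=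
  (SP_hier0 φ φ1 n).ren Clop.base (fun t => [i, j].getD t 0)

theorem LP_hier (φ φ1 : LA.Formula ℕ) (n i j : ℕ) :
    HierU Clop (fun K _ x => LP K φ φ1 n (x i) (x j)) := by
  have h0 : HierU Clop (fun K _ x => LP K φ φ1 n (x 0) (x 1)) := by
    refine HierU.and Clop.base (SP_hier φ φ1 n 0 1) (HierU.not Clop.base ?_)
    refine HierU.ex Clop.base (fun K _ x z' => rlt z' (x 1) ∧ SP K φ φ1 n (x 0) z') 2 ?_ ?_
    · intro M _ x y v
      simp [Function.update_apply]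
    · exact (D0_U (D0.lt (Tm.var 2) (Tm.var 1))).and Clop.base (SP_hier φ φ1 n 0 2)
  exact h0.ren Clop.base (fun t => [i, j].getD t 0)

theorem HP_hier0 (φ φ1 φ2 : LA.Formula ℕ) (n : ℕ) :
    HierU Clop (fun K _ x => HP K φ φ1 φ2 n (x 0) (x 1)) := by
  refine HierU.ex Clop.base (fun K _ x z => LP K φ φ1 n (x 0) z ∧ r3 K φ2 z (x 1) (x 1)) 2 ?_ ?_
  · intro M _ x y v
    simp [Function.update_apply]
  · exact (LP_hier φ φ1 n 0 2).and Clop.base (r3_hier φ2 2 1 1)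

theorem CP_hier {φ φ1 φ2 : LA.Formula ℕ} {n m : ℕ}
    (h : Hier Clop m (fun K _ x => HP K φ φ1 φ2 n (x 0) (x 1))) :
    Hier D0 (m + 1) (fun K _ x => CP K φ φ1 φ2 n m (x 0)) := by
  refine Hier.ex D0.base (fun K _ x w => HP K φ φ1 φ2 n (x 0) w ∧ SaR K (m + 1) w) 1 ?_ ?_
  · intro M _ x y v
    simp [Function.update_apply]
  · exact Hier.and D0.base (Hier.lift D0.base (hier_clop_D0 h)) (SaR_hier m 1)

theorem CPr_hier {φ φ1 φ2 : LA.Formula ℕ} {n m : ℕ}
    (h : Hier Clop m (fun K _ x => HP K φ φ1 φ2 n (x 0) (x 1))) (r : ℕ) :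
    Hier D0 (m + 1) (fun K _ _ => CP K φ φ1 φ2 n m (nm K r)) := by
  refine (Hier.ex D0.base (fun K _ x v => v = nm K r ∧ CP K φ φ1 φ2 n m v) 0 ?_ ?_).congr
    fun K _ x => ?_
  · intro M _ x y v
    simp [Function.update_apply]
  · exact Hier.and D0.base (Hier.mono D0.base (n := 0) (D0.eq (Tm.var 0) (Tm.nm r)) (Nat.zero_le _))
      (CP_hier h)
  · simp

/-! ### effective part -/

theorem good1_re {n m N0 U0 N1 U1 : ℕ} {C0 C1 : Pr} (h0 : C0 = Ev N0 U0) (h1 : C1 = Ev N1 U1) :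
    REPred fun x : ℕ × (ℕ × (ℕ × ℕ)) => Good1 n m (fun K _ => C0 K (cs K x.1))
      (fun K _ => C1 K (cs K x.1)) x.2.1 x.2.2.1 x.2.2.2 := by
  subst h0 h1
  obtain ⟨L, hL⟩ := exists_ax
  have hz : ∀ (K : Type) [LA.Structure K], cs K 0 = zr K := by
    intro K _
    funext i
    unfold cs zr
    split_ifs <;> rfl
  -- the three clauses
  let cl1 : ℕ × (ℕ × (ℕ × ℕ)) → List (Bool × ((ℕ × ℕ) × ℕ)) := fun x =>
    [(false, ((n + 1, x.2.1), 0)), (true, ((N0, U0), x.1)), (true, ((m + 1, x.2.2.1), 0))]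
  let cl2 : ℕ × (ℕ × (ℕ × ℕ)) → List (Bool × ((ℕ × ℕ) × ℕ)) := fun x =>
    [(false, ((m + 1, x.2.2.1), 0)), (false, ((N0, U0), x.1)), (true, ((N1, U1), x.1)),
      (true, ((m + 1, x.2.2.2), 0))]
  let cl3 : ℕ × (ℕ × (ℕ × ℕ)) → List (Bool × ((ℕ × ℕ) × ℕ)) := fun x =>
    [(false, ((m + 1, x.2.2.2), 0)), (false, ((N1, U1), x.1))]
  have c1 : Computable cl1 := by
    show Computable fun x : ℕ × (ℕ × (ℕ × ℕ)) => _
    fun_prop
  have c2 : Computable cl2 := by
    show Computable fun x : ℕ × (ℕ × (ℕ × ℕ)) => _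
    fun_prop
  have c3 : Computable cl3 := by
    show Computable fun x : ℕ × (ℕ × (ℕ × ℕ)) => _
    fun_prop
  refine (RE.and (RE.comp (ec_re hL) c1) (RE.and (RE.comp (ec_re hL) c2)
    (RE.comp (ec_re hL) c3))).of_eq fun x => ?_
  simp only [cl1, cl2, cl3, List.mem_cons, List.not_mem_nil, or_false, exists_eq_or_imp,
    exists_eq_left, hz]
  unfold Good1
  constructor
  · rintro ⟨h1, h2, h3⟩ K _ _ hK
    have h1 := h1 K hK
    have h2 := h2 K hK
    have h3 := h3 K hK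
    simp only [Bool.false_eq_true, iff_false, iff_true] at h1 h2 h3
    unfold Es
    tauto
  · intro h
    refine ⟨fun K _ _ hK => ?_, fun K _ _ hK => ?_, fun K _ _ hK => ?_⟩ <;>
    · have h1 := h K hK
      simp only [Bool.false_eq_true, iff_false, iff_true]
      unfold Es at h1
      tauto

end Pool.Agent.H646R2.SV
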