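import Pool.Agent.H646R2.SV.Stmt
import Pool.Agent.H646R2.SV.SatC

/-!
From predicates of the hierarchy to formulas of the language `{0, S, +, ·}`.
-/

set_option autoImplicit false
set_option linter.unusedVariables false
set_option linter.unusedSimpArgs false
set_option linter.unusedSectionVars false

open FirstOrder FirstOrder.Language Pool.Agent.Helper227.EN Pool.Agent.H646R2.SV.Defs

namespace Pool.Agent.H646R2.SV

section
variable (M : Type) [LA.Structure M]

/-- realization of formulas of the language `{0, S, +, ·}` -/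
def rl {N : ℕ} (φ : LS.BoundedFormula Empty N) (v : Fin N → M) : Prop :=
  @BoundedFormula.Realize LS M (red M) Empty N φ default v

/-- value of terms of the language `{0, S, +, ·}` -/
def tl {N : ℕ} (t : LS.Term (Empty ⊕ Fin N)) (v : Fin N → M) : M :=
  @Term.realize LS M (red M) (Empty ⊕ Fin N) (Sum.elim default v) t

variable {M} {N : ℕ}

theorem tl_last (v : Fin N → M) (y : M) : tl M (lastV N) (Fin.snoc v y) = y := by
  show (Fin.snoc v y : Fin (N + 1) → M) (Fin.last N) = y
  exact Fin.snoc_last _ _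

theorem tl_lift (t : LS.Term (Empty ⊕ Fin N)) (v : Fin N → M) (y : M) :
    tl M (liftT t) (Fin.snoc v y) = tl M t v := by
  unfold tl liftT
  let _ : LS.Structure M := red M
  rw [Term.realize_relabel]
  congr 1
  funext i
  rcases i with i | i
  · rfl
  · show (Fin.snoc v y : Fin (N + 1) → M) (Fin.castSucc i) = v i
    exact Fin.snoc_castSucc _ _ _

/-- lifting several times -/
def liftN (s : ℕ) (t : LS.Term (Empty ⊕ Fin N)) : LS.Term (Empty ⊕ Fin (N + s)) :=
  t.relabel (Sum.map id (Fin.castAdd s))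

theorem tl_liftN (s : ℕ) (t : LS.Term (Empty ⊕ Fin N)) (v : Fin (N + s) → M) :
    tl M (liftN s t) v = tl M t (fun i => v (Fin.castAdd s i)) := by
  unfold tl liftN
  let _ : LS.Structure M := red M
  rw [Term.realize_relabel]
  congr 1
  funext i
  rcases i with i | i <;> rfl

theorem rl_falsum (v : Fin N → M) : ¬ rl M (BoundedFormula.falsum) v := id

theorem rl_equal (s t : LS.Term (Empty ⊕ Fin N)) (v : Fin N → M) :
    rl M (Term.bdEqual s t) v ↔ tl M s v = tl M t v := Iff.rfl

theorem rl_imp (φ ψ : LS.BoundedFormula Empty N) (v : Fin N → M) :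
    rl M (φ.imp ψ) v ↔ (rl M φ v → rl M ψ v) := Iff.rfl

theorem rl_all (φ : LS.BoundedFormula Empty (N + 1)) (v : Fin N → M) :
    rl M φ.all v ↔ ∀ y, rl M φ (Fin.snoc v y) := Iff.rfl

theorem rl_ex (φ : LS.BoundedFormula Empty (N + 1)) (v : Fin N → M) :
    rl M φ.ex v ↔ ∃ y, rl M φ (Fin.snoc v y) := by
  let _ : LS.Structure M := red M
  exact BoundedFormula.realize_ex

theorem tl_add (s t : LS.Term (Empty ⊕ Fin N)) (v : Fin N → M) :
    tl M (Term.func (L := LS) AFun.add ![s, t]) v = rad (tl M s v) (tl M t v) := rfl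

theorem tl_mul (s t : LS.Term (Empty ⊕ Fin N)) (v : Fin N → M) :
    tl M (Term.func (L := LS) AFun.mul ![s, t]) v = rmu (tl M s v) (tl M t v) := rfl

theorem tl_succ (s : LS.Term (Empty ⊕ Fin N)) (v : Fin N → M) :
    tl M (Term.func (L := LS) AFun.succ ![s]) v = sc (tl M s v) := rfl

theorem tl_zero (v : Fin N → M) :
    tl M (Term.func (L := LS) AFun.zero ![]) v = rze M := rfl

theorem rl_ball (t : LS.Term (Empty ⊕ Fin N)) (φ : LS.BoundedFormula Empty (N + 1))
    (v : Fin N → M) : rl M (ballF t φ) v ↔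
      ∀ y, (∃ z, rad y z = tl M t v) → rl M φ (Fin.snoc v y) := by
  unfold ballF
  rw [rl_all]
  refine forall_congr' fun y => ?_
  rw [rl_imp]
  refine imp_congr ?_ Iff.rfl
  unfold leF
  rw [rl_ex]
  refine exists_congr fun z => ?_
  rw [rl_equal, tl_add, tl_lift, tl_lift, tl_lift, tl_last, tl_last]

end

/-- iterated existential quantifiers -/
def exsF : ∀ (s : ℕ) {N : ℕ}, LS.BoundedFormula Empty (N + s) → LS.BoundedFormula Empty N
  | 0, _, φ => φ
  | s + 1, _, φ => exsF s φ.ex

/-- iterated universal quantifiers -/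
def allsF : ∀ (s : ℕ) {N : ℕ}, LS.BoundedFormula Empty (N + s) → LS.BoundedFormula Empty N
  | 0, _, φ => φ
  | s + 1, _, φ => allsF s φ.all

theorem exsF_level {k : ℕ} (s : ℕ) {N : ℕ} (φ : LS.BoundedFormula Empty (N + s))
    (h : IsLevel true (k + 1) φ) : IsLevel true (k + 1) (exsF s φ) := by
  induction s with
  | zero => exact h
  | succ s ih => exact ih φ.ex (IsLevel.ex h)

theorem allsF_level {k : ℕ} (s : ℕ) {N : ℕ} (φ : LS.BoundedFormula Empty (N + s))
    (h : IsLevel false (k + 1) φ) : IsLevel false (k + 1) (allsF s φ) := by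
  induction s with
  | zero => exact h
  | succ s ih => exact ih φ.all (IsLevel.all h)

section
variable {M : Type} [LA.Structure M]

theorem rl_exsF (s : ℕ) {N : ℕ} (φ : LS.BoundedFormula Empty (N + s)) (v : Fin N → M) :
    rl M (exsF s φ) v ↔ ∃ v' : Fin (N + s) → M, (∀ i : Fin N, v' (Fin.castAdd s i) = v i) ∧
      rl M φ v' := by
  induction s with
  | zero =>
    constructor
    · intro h; exact ⟨v, fun i => rfl, h⟩
    · rintro ⟨v', h1, h2⟩
      have : v' = v := funext fun i => h1 i
      rw [← this]; exact h2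
  | succ s ih =>
    show rl M (exsF s φ.ex) v ↔ _
    rw [ih]
    constructor
    · rintro ⟨v'', h1, h2⟩
      rw [rl_ex] at h2
      obtain ⟨y, hy⟩ := h2
      refine ⟨Fin.snoc v'' y, fun i => ?_, hy⟩
      have : (Fin.castAdd (s + 1) i : Fin (N + s + 1)) = Fin.castSucc (Fin.castAdd s i) := rfl
      rw [← h1 i]
      exact (congrArg _ this).trans (Fin.snoc_castSucc (α := fun _ => M) _ _ _)
    · rintro ⟨v', h1, h2⟩
      refine ⟨fun i => v' (Fin.castSucc i), fun i => h1 i, ?_⟩
      rw [rl_ex]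
      refine ⟨v' (Fin.last _), ?_⟩
      have : (Fin.snoc (fun i => v' (Fin.castSucc i)) (v' (Fin.last _)) : Fin (N + s + 1) → M) = v' := by
        funext i
        refine Fin.lastCases ?_ (fun i => ?_) i
        · rw [Fin.snoc_last]; rfl
        · rw [Fin.snoc_castSucc]
      rw [this]; exact h2

theorem rl_allsF (s : ℕ) {N : ℕ} (φ : LS.BoundedFormula Empty (N + s)) (v : Fin N → M) :
    rl M (allsF s φ) v ↔ ∀ v' : Fin (N + s) → M, (∀ i : Fin N, v' (Fin.castAdd s i) = v i) →
      rl M φ v' := by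
  induction s with
  | zero =>
    constructor
    · intro h v' h1
      have : v' = v := funext fun i => h1 i
      rw [this]; exact h
    · intro h; exact h v fun i => rfl
  | succ s ih =>
    show rl M (allsF s φ.all) v ↔ _
    rw [ih]
    constructor
    · intro h v' h1
      have h2 := h (fun i => v' (Fin.castSucc i)) fun i => h1 i
      rw [rl_all] at h2
      have h3 := h2 (v' (Fin.last _))
      have : (Fin.snoc (fun i => v' (Fin.castSucc i)) (v' (Fin.last _)) : Fin (N + s + 1) → M) = v' := by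
        funext i
        refine Fin.lastCases ?_ (fun i => ?_) i
        · rw [Fin.snoc_last]; rfl
        · rw [Fin.snoc_castSucc]
      rw [this] at h3; exact h3
    · intro h v'' h1
      rw [rl_all]
      intro y
      refine h _ fun i => ?_
      have : (Fin.castAdd (s + 1) i : Fin (N + s + 1)) = Fin.castSucc (Fin.castAdd s i) := rfl
      rw [← h1 i]
      exact (congrArg _ this).trans (Fin.snoc_castSucc (α := fun _ => M) _ _ _)

end

/-- terms -/
theorem tm_rep {f : ∀ (M : Type) [LA.Structure M], (ℕ → M) → M} (hf : Tm f) (N : ℕ)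
    (g : ℕ → LS.Term (Empty ⊕ Fin N)) : ∃ t : LS.Term (Empty ⊕ Fin N),
      ∀ (M : Type) [LA.Structure M] [Nonempty M], M ⊨ PAminus → ∀ v : Fin N → M,
        tl M t v = f M (fun i => tl M (g i) v) := by
  induction hf with
  | var i => exact ⟨g i, fun M _ _ _ v => rfl⟩
  | zero => exact ⟨Term.func (L := LS) AFun.zero ![], fun M _ _ _ v => rfl⟩
  | one =>
    refine ⟨Term.func (L := LS) AFun.succ ![Term.func (L := LS) AFun.zero ![] ], fun M _ _ hM v => ?_⟩
    obtain ⟨i1, i2, i3, i4, hc⟩ := exists_alg M hM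
    show tl M _ v = ron M
    rw [tl_succ, tl_zero, sc_eq hc, rze_eq hc, ron_eq hc, zero_add]
  | add _ _ h1 h2 =>
    obtain ⟨s, hs⟩ := h1
    obtain ⟨t, ht⟩ := h2
    exact ⟨Term.func (L := LS) AFun.add ![s, t], fun M _ _ hM v => by
      rw [tl_add, hs M hM, ht M hM]⟩
  | mul _ _ h1 h2 =>
    obtain ⟨s, hs⟩ := h1
    obtain ⟨t, ht⟩ := h2
    exact ⟨Term.func (L := LS) AFun.mul ![s, t], fun M _ _ hM v => by
      rw [tl_mul, hs M hM, ht M hM]⟩

/-- bounded predicates are given by bounded formulas -/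
theorem d0_rep {R : Pr} (h : D0 R) (N : ℕ) (g : ℕ → LS.Term (Empty ⊕ Fin N)) :
    ∃ φ : LS.BoundedFormula Empty N, IsBounded φ ∧
      ∀ (M : Type) [LA.Structure M] [Nonempty M], M ⊨ PAminus → ∀ v : Fin N → M,
        (rl M φ v ↔ R M (fun i => tl M (g i) v)) := by
  induction h generalizing N with
  | eq hf hg =>
    obtain ⟨s, hs⟩ := tm_rep hf N g
    obtain ⟨t, ht⟩ := tm_rep hg N g
    refine ⟨_, IsBounded.equal s t, fun M _ _ hM v => ?_⟩
    rw [rl_equal, hs M hM, ht M hM]
  | @lt f1 f2 hf hg =>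
    obtain ⟨s, hs⟩ := tm_rep hf N g
    obtain ⟨t, ht⟩ := tm_rep hg N g
    refine ⟨(ballF t ((Term.bdEqual (Term.func (L := LS) AFun.add ![liftT s,
      Term.func (L := LS) AFun.succ ![lastV N] ]) (liftT t)).imp BoundedFormula.falsum)).imp
      BoundedFormula.falsum, IsBounded.imp (IsBounded.ball t (IsBounded.imp (IsBounded.equal _ _)
        IsBounded.falsum)) IsBounded.falsum, fun M _ _ hM v => ?_⟩
    obtain ⟨i1, i2, i3, i4, hc⟩ := exists_alg M hM
    rw [rl_imp, rl_ball]
    simp only [rl_imp, rl_equal, tl_add, tl_succ, tl_lift, tl_last, hs M hM, ht M hM, rl_falsum,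
      imp_false, rlt_iff hc, rad_eq hc, sc_eq hc]
    push Not
    constructor
    · rintro ⟨y, -, h⟩
      rw [← h, ← add_assoc]
      exact lt_of_le_of_lt le_self_add (lt_add_of_pos_right _ one_pos)
    · intro h
      obtain ⟨d, hd⟩ := exists_add_of_le h.le
      have hd1 : 1 ≤ d := by
        by_contra h'
        have h0 := hc.disc d (not_le.mp h')
        rw [h0, add_zero] at hd
        exact absurd h (by rw [hd]; exact lt_irrefl _)
      obtain ⟨e, he⟩ := exists_add_of_le hd1
      have h7 : e ≤ 1 + e := le_add_self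
      rw [← he] at h7
      obtain ⟨z, hz⟩ := exists_add_of_le (h7.trans (le_add_self (a := d)
        (b := f1 M fun i => tl M (g i) v)))
      refine ⟨e, ⟨z, ?_⟩, ?_⟩
      · rw [← hz, hd]
      · rw [hd, he]; ring
  | not _ h1 =>
    obtain ⟨φ, h2, h3⟩ := h1 N g
    exact ⟨φ.imp BoundedFormula.falsum, h2.imp IsBounded.falsum, fun M _ _ hM v => by
      rw [rl_imp, h3 M hM]; exact Iff.rfl⟩
  | and _ _ h1 h2 =>
    obtain ⟨φ, h3, h4⟩ := h1 N g
    obtain ⟨ψ, h5, h6⟩ := h2 N g
    refine ⟨(φ.imp (ψ.imp BoundedFormula.falsum)).imp BoundedFormula.falsum,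
      (h3.imp (h5.imp IsBounded.falsum)).imp IsBounded.falsum, fun M _ _ hM v => ?_⟩
    rw [rl_imp, rl_imp, rl_imp, h4 M hM, h6 M hM]
    simp only [rl_falsum, imp_false]
    tauto
  | @ball f R k hf hR ih =>
    obtain ⟨t, ht⟩ := tm_rep hf N g
    obtain ⟨φ, h2, h3⟩ := ih (N + 1) (fun i => if i = k then lastV N else liftT (g i))
    refine ⟨ballF t (((Term.bdEqual (lastV N) (liftT t)).imp BoundedFormula.falsum).imp φ),
      IsBounded.ball t (IsBounded.imp (IsBounded.imp (IsBounded.equal _ _) IsBounded.falsum) h2),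
      fun M _ _ hM v => ?_⟩
    obtain ⟨i1, i2, i3, i4, hc⟩ := exists_alg M hM
    rw [rl_ball]
    refine forall_congr' fun y => ?_
    rw [rl_imp, rl_imp, rl_equal, tl_last, tl_lift, h3 M hM, ht M hM]
    have e : (fun i => tl M (if i = k then lastV N else liftT (g i)) (Fin.snoc v y)) =
        Function.update (fun i => tl M (g i) v) k y := by
      funext i
      by_cases hi : i = k
      · subst hi; simp [tl_last]
      · rw [Function.update_of_ne hi, if_neg hi, tl_lift]
    rw [e]
    simp only [rl_falsum, imp_false, rlt_iff hc, rad_eq hc]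
    constructor
    · intro h h4
      exact h (by obtain ⟨d, hd⟩ := exists_add_of_le h4.le; exact ⟨d, hd.symm⟩) h4.ne
    · rintro h ⟨z, hz⟩ h5
      exact h (lt_of_le_of_ne (by rw [← hz]; exact le_self_add) h5)

end Pool.Agent.H646R2.SV
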