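import Pool.Agent.H646R2.SV.Fml

/-!
Ultraproducts of sequences of structures.
-/

set_option autoImplicit false
set_option linter.unusedVariables false

open FirstOrder FirstOrder.Language Pool.Agent.Helper227.EN

namespace Pool.Agent.H646R2.SV

/-- a nonprincipal ultrafilter on `ℕ` -/
noncomputable abbrev UF : Ultrafilter ℕ := Filter.hyperfilter ℕ

theorem uf_ge (s : ℕ) : ∀ᶠ t in (UF : Filter ℕ), s ≤ t :=
  Nat.hyperfilter_le_atTop (Filter.eventually_ge_atTop s)

theorem uf_not {P : ℕ → Prop} :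
    (¬ ∀ᶠ t in (UF : Filter ℕ), P t) ↔ ∀ᶠ t in (UF : Filter ℕ), ¬ P t :=
  Ultrafilter.eventually_not.symm

/-- a clopen property of a limit of sequences of bits -/
theorem uf_clop (N : ℕ) (g : (ℕ → Bool) → Prop)
    (hg : ∀ a b : ℕ → Bool, (∀ i < N, a i = b i) → (g a ↔ g b)) (a : ℕ → Bool) (b : ℕ → ℕ → Bool)
    (h : ∀ p, a p = true ↔ ∀ᶠ t in (UF : Filter ℕ), b t p = true) :
    g a ↔ ∀ᶠ t in (UF : Filter ℕ), g (b t) := by
  have h1 : ∀ p, ∀ᶠ t in (UF : Filter ℕ), a p = b t p := by
    intro p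
    by_cases hp : a p = true
    · refine ((h p).1 hp).mono fun t ht => ?_
      rw [hp, ht]
    · refine (uf_not.1 (fun hc => hp ((h p).2 hc))).mono fun t ht => ?_
      simp only [Bool.not_eq_true] at hp ht
      rw [hp, ht]
  have h2 : ∀ᶠ t in (UF : Filter ℕ), ∀ p ∈ Finset.range N, a p = b t p :=
    (Filter.eventually_all_finset _).2 fun p _ => h1 p
  have h3 : ∀ᶠ t in (UF : Filter ℕ), (g a ↔ g (b t)) :=
    h2.mono fun t ht => hg _ _ fun i hi => ht i (Finset.mem_range.2 hi)
  rw [← Filter.eventually_congr h3]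
  exact (Filter.eventually_const (f := (UF : Filter ℕ))).symm

section
variable {K : ℕ → Type} [∀ t, LA.Structure (K t)]

/-- the ultraproduct -/
abbrev UPr (K : ℕ → Type) : Type := (UF : Filter ℕ).Product K

/-- the sequence of elements of the ultraproduct given by a sequence of sequences -/
noncomputable def ups (β : ∀ t, ℕ → K t) : ℕ → UPr K := fun i => ((fun t => β t i : ∀ t, K t) : UPr K)

omit [∀ t, LA.Structure (K t)] in
theorem upr_eq (a b : ∀ t, K t) :
    ((a : UPr K) = (b : UPr K)) ↔ ∀ᶠ t in (UF : Filter ℕ), a t = b t := Quotient.eq''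

theorem upr_fun2 (f : LA.Functions 2) (a b c : ∀ t, K t) :
    (Structure.funMap f ![(a : UPr K), (b : UPr K)] = (c : UPr K)) ↔
      ∀ᶠ t in (UF : Filter ℕ), Structure.funMap f ![a t, b t] = c t := by
  have h := Ultraproduct.funMap_cast (u := UF) (M := K) f ![a, b]
  have h1 : (fun i => ((![a, b] i : ∀ t, K t) : UPr K)) = ![(a : UPr K), (b : UPr K)] := by
    funext i; fin_cases i <;> rfl
  have h2 : (fun t => Structure.funMap f fun i => (![a, b] i : ∀ t, K t) t) =
      (fun t => Structure.funMap f ![a t, b t]) := by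
    funext t
    congr 1
    funext i; fin_cases i <;> rfl
  rw [← h1]
  refine Iff.trans ?_ (upr_eq _ _)
  rw [← h2]
  exact Eq.congr_left h

theorem upr_fun0 (f : LA.Functions 0) (c : ∀ t, K t) :
    (Structure.funMap f ![] = (c : UPr K)) ↔
      ∀ᶠ t in (UF : Filter ℕ), Structure.funMap f ![] = c t := by
  have h := Ultraproduct.funMap_cast (u := UF) (M := K) f (fun i : Fin 0 => i.elim0)
  have h1 : (fun i : Fin 0 => ((i.elim0 : ∀ t, K t) : UPr K)) = ![] := by
    funext i; exact i.elim0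
  have h2 : (fun t : ℕ => Structure.funMap f fun i : Fin 0 => ((i.elim0 : ∀ t, K t)) t) =
      (fun t => (Structure.funMap f ![] : K t)) := by
    funext t
    congr 1
    funext i; exact i.elim0
  rw [← h1]
  refine Iff.trans ?_ (upr_eq _ _)
  rw [← h2]
  exact Eq.congr_left h

theorem upr_rel2 (r : LA.Relations 2) (a b : ∀ t, K t) :
    Structure.RelMap r ![(a : UPr K), (b : UPr K)] ↔
      ∀ᶠ t in (UF : Filter ℕ), Structure.RelMap r ![a t, b t] := by
  have h1 : (fun i => ((![a, b] i : ∀ t, K t) : UPr K)) = ![(a : UPr K), (b : UPr K)] := by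
    funext i; fin_cases i <;> rfl
  have h2 : ∀ t, (Structure.RelMap r fun i => (![a, b] i : ∀ t, K t) t) ↔
      Structure.RelMap r ![a t, b t] := by
    intro t
    have : (fun i => (![a, b] i : ∀ t, K t) t) = ![a t, b t] := by
      funext i; fin_cases i <;> rfl
    rw [this]
  rw [← h1]
  refine Iff.trans ?_ (Filter.eventually_congr (Filter.Eventually.of_forall h2))
  exact relMap_quotient_mk' _ r (![a, b])

theorem up_fact4 (β : ∀ t, ℕ → K t) (c i j l : ℕ) :
    fact4 (ups β) c i j l ↔ ∀ᶠ t in (UF : Filter ℕ), fact4 (β t) c i j l := by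
  unfold fact4
  split_ifs with h0 h1 h2 h3 h4
  · exact upr_fun2 AF.add (fun t => β t i) (fun t => β t j) (fun t => β t l)
  · exact upr_fun2 AF.mul (fun t => β t i) (fun t => β t j) (fun t => β t l)
  · exact upr_rel2 AR.lt (fun t => β t i) (fun t => β t j)
  · exact upr_fun0 AF.zero (fun t => β t i)
  · exact upr_fun0 AF.one (fun t => β t i)
  · exact upr_eq (fun t => β t i) (fun t => β t j)

theorem up_D (β : ∀ t, ℕ → K t) (p : ℕ) :
    D (ups β) p = true ↔ ∀ᶠ t in (UF : Filter ℕ), D (β t) p = true := by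
  simp only [D_iff]
  exact up_fact4 β _ _ _ _

/-- Łoś's theorem for the hierarchy. -/
theorem up_hier {n : ℕ} {R : Pr} (h : Hier Clop n R) (β : ∀ t, ℕ → K t) :
    R (UPr K) (ups β) ↔ ∀ᶠ t in (UF : Filter ℕ), R (K t) (β t) := by
  classical
  induction n generalizing R β with
  | zero =>
    obtain ⟨N, g, hg, rfl⟩ := h
    exact uf_clop N g hg _ _ (up_D β)
  | succ n ih =>
    obtain ⟨Q, k, hQ, rfl⟩ := h
    show (∃ x' : ℕ → UPr K, (∀ i < k, x' i = ups β i) ∧ ¬ Q (UPr K) x') ↔
      ∀ᶠ t in (UF : Filter ℕ), ∃ x' : ℕ → K t, (∀ i < k, x' i = β t i) ∧ ¬ Q (K t) x'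
    constructor
    · rintro ⟨x', h1, h2⟩
      have h3 : ∀ i, ∃ a : ∀ t, K t, (a : UPr K) = x' i := fun i => Quotient.exists_rep (x' i)
      choose a ha using h3
      have h4 : x' = ups (fun t i => a i t) := by
        funext i; exact (ha i).symm
      rw [h4, ih hQ, uf_not] at h2
      have h5 : ∀ᶠ t in (UF : Filter ℕ), ∀ i ∈ Finset.range k, a i t = β t i := by
        refine (Filter.eventually_all_finset _).2 fun i hi => ?_
        rw [← upr_eq]
        exact (ha i).trans (h1 i (Finset.mem_range.1 hi))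
      filter_upwards [h2, h5] with t ht1 ht2
      exact ⟨fun i => a i t, fun i hi => ht2 i (Finset.mem_range.2 hi), ht1⟩
    · intro h
      let β' : ∀ t, ℕ → K t := fun t =>
        if ht : ∃ x' : ℕ → K t, (∀ i < k, x' i = β t i) ∧ ¬ Q (K t) x' then ht.choose else β t
      have hβ' : ∀ t, (∃ x' : ℕ → K t, (∀ i < k, x' i = β t i) ∧ ¬ Q (K t) x') →
          (∀ i < k, β' t i = β t i) ∧ ¬ Q (K t) (β' t) := by
        intro t ht
        simp only [β', dif_pos ht]
        exact ht.choose_spec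
      refine ⟨ups β', fun i hi => ?_, ?_⟩
      · refine (upr_eq _ _).2 (h.mono fun t ht => ?_)
        exact (hβ' t ht).1 i hi
      · rw [ih hQ, uf_not]
        exact h.mono fun t ht => (hβ' t ht).2

theorem up_hierU {R : Pr} (h : HierU Clop R) (β : ∀ t, ℕ → K t) :
    R (UPr K) (ups β) ↔ ∀ᶠ t in (UF : Filter ℕ), R (K t) (β t) := by
  obtain ⟨n, h⟩ := h
  exact up_hier h β

theorem up_model [∀ t, Nonempty (K t)] (T : LA.Theory) (h : ∀ t, K t ⊨ T) : UPr K ⊨ T := by
  refine ⟨fun φ hφ => ?_⟩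
  refine (Ultraproduct.sentence_realize (M := K) (u := UF) φ).2 ?_
  exact Filter.Eventually.of_forall fun t => (h t).realize_of_mem φ hφ

end

end Pool.Agent.H646R2.SV
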